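import Pool.Agent.N871.P21G.GenB

/-!
# P21G, divisor sums: the main identities, the local sums at `3` and `7`, the local densities
-/

set_option autoImplicit false

namespace Pool.Agent.N871.G21

open Finset
open Pool.Agent.Z700 (hh fac)
open Pool.Agent.Y574.Z7 (chp chp_mul chp_one chp_self chp_nd chp_sq chp_pm jac_eq sum_local two_pt
  one_sum alt_sum dvd_fac nd4 fac_D mem_D chp_D jac_prod chp_prod)
open Pool.Agent.N969.P15 (Ev tw tb ep2 psp psp2 c2)
open Pool.Agent.N969.P17G (psl psl2 sgp sg2 sgnE t2)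
open Pool.Agent.N295.P15 (dvd_iff' Ff mem_ST alt_zero dvd_cn fac4 chp4 fac_ST pf_four tw_eq fac42)
open Pool.Agent.N295.P15.E (cq kq Ps wq pq Ps_one Ps_fac Ps_pm cq_sq kq_sq cq_two cq_odd cq_mul eT eS
  eT_sq eS_sq pow_sq pq_eq oc_nd pf_prime pf_dvd podd jac_four)
open Pool.Agent.N833.P21 (p7 QQ mem_QQ2 mem_QQ7 mem_QQ3 sub_QQ pf_QQ QQ_prime Q' mem_Q' prod_Ff
  split_QQ Ps_odd L2 pow_alt M2 tw_A tw_B M2_even e2_eq R1)
open Pool.Agent.N871.G17 (kap wL wR wL_eq kap_zero kap_mul kap_sq kap_kq kap_neg)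
open Pool.Agent.N877.P21G (Fn dt)

variable {n : ℕ}

/-! ### the products `n = A m` -/

theorem Fn_two {n : ℕ} (h : Fn n) (h2 : 2 ∣ n) : Ev n := by
  rcases h with h | h
  · have := h.2; omega
  · exact h

theorem Fn_odd {n : ℕ} (h : Fn n) (h2 : ¬ 2 ∣ n) : Pool.Agent.N295.P15.Fd n := by
  rcases h with h | h
  · exact ⟨h.1, h.2⟩
  · obtain ⟨m, hm, _⟩ := h; omega

theorem chi_prod {m : ℕ} (hm : Squarefree m) (n : ℕ) (h2 : ¬ 2 ∣ m) :
    ∏ p ∈ m.primeFactors, kq n p = ZMod.χ₄ (m : ℕ) :=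
  Pool.Agent.N871.G17.chi_prod hm n h2

/-- the product of a positive and a negative discriminant -/
theorem Fn_mul {A m : ℕ} (hA : A = 1 ∨ N969.RQ.Fd A) (hm : Fn m) (hc : Nat.Coprime A m) :
    Fn (A * m) ∧ ∏ p ∈ A.primeFactors, kq (A * m) p = 1 := by
  rcases hA with rfl | ⟨h1, ⟨hs, h4⟩ | ⟨M, rfl, hs, h4⟩⟩
  · rw [one_mul, Nat.primeFactors_one, Finset.prod_empty]
    exact ⟨hm, rfl⟩
  · refine ⟨?_, ?_⟩
    · rcases hm with ⟨hms, hm4⟩ | ⟨m', rfl, hms, hm4⟩
      · left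
        refine ⟨(Nat.squarefree_mul hc).2 ⟨hs, hms⟩, ?_⟩
        simp [Nat.mul_mod, h4, hm4]
      · right
        have hc' : Nat.Coprime A m' := Nat.Coprime.coprime_mul_left_right hc
        refine ⟨A * m', by ring, (Nat.squarefree_mul hc').2 ⟨hs, hms⟩, ?_⟩
        rcases hm4 with h5 | h5 <;> simp [Nat.mul_mod, h4, h5]
    · rw [chi_prod hs (A * m) (by omega), ZMod.χ₄_nat_one_mod_four h4]
  · rcases hm with ⟨hms, hm4⟩ | ⟨m', rfl, _, _⟩
    · have hc' : Nat.Coprime M m := Nat.Coprime.coprime_mul_left hc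
      have hF : Fn (4 * M * m) := by
        right
        refine ⟨M * m, by ring, (Nat.squarefree_mul hc').2 ⟨hs, hms⟩, ?_⟩
        rcases h4 with h4 | h4 <;> simp [Nat.mul_mod, h4, hm4]
      refine ⟨hF, ?_⟩
      have h2 := (FF_of hF).kprod
      have hM0 : M ≠ 0 := hs.ne_zero
      rw [Nat.primeFactors_mul (mul_ne_zero (by norm_num) hM0) hms.ne_zero,
        Finset.prod_union hc.disjoint_primeFactors, chi_prod hms (4 * M * m)
          (by omega), ZMod.χ₄_nat_three_mod_four hm4] at h2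
      linarith
    · exfalso
      have h5 : 4 ∣ Nat.gcd (4 * M) (4 * m') := Nat.dvd_gcd (dvd_mul_right _ _) (dvd_mul_right _ _)
      rw [hc] at h5
      omega

/-! ### the main identities -/

/-- the factors away from `2`, `3` and `7` -/
def Fs (n S T : ℕ) : ℤ := ∏ l ∈ Q' n S T, Ff n S T l

theorem Fs_eq (S T : ℕ) : Fs n S T = R1 n (S * T) := by
  unfold Fs R1
  exact prod_Ff

theorem nv_or (n S T : ℕ) : ((∀ l ∈ Q' n S T, Ff n S T l ≠ 0) ∧
    (2 ∉ n.primeFactors → L2 n S T ≠ 0)) ∨ (L2 n S T * Fs n S T = 0 ∧ M2 n S T * Fs n S T = 0) := by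
  by_cases hF : ∀ l ∈ Q' n S T, Ff n S T l ≠ 0
  · by_cases hL : 2 ∉ n.primeFactors → L2 n S T ≠ 0
    · exact Or.inl ⟨hF, hL⟩
    · right
      push Not at hL
      have e2 : M2 n S T = 0 := by
        have := hL.2
        unfold L2 at this
        unfold M2
        rw [if_neg hL.1] at this ⊢
        exact this
      rw [hL.2, e2, zero_mul]
      exact ⟨rfl, rfl⟩
  · right
    push Not at hF
    obtain ⟨l, hl, hl0⟩ := hF
    have : Fs n S T = 0 := Finset.prod_eq_zero hl hl0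
    rw [this, mul_zero, mul_zero]
    exact ⟨rfl, rfl⟩

theorem main_T (h : Fn n) {c S T : ℕ} (hc : c = 1 ∨ c = 2) (hS : S ≠ 0) (hT : T ≠ 0)
    (hST : S + T = c * n) :
    (∏ l ∈ n.primeFactors, eT n T l) * (L2 n S T * Fs n S T) =
      -dl n T * (L2 n S T * Fs n S T) := by
  rcases nv_or n S T with ⟨hF, hL⟩ | ⟨h1, _⟩
  · rw [prod_eT (FF_of h) hc hS hT hST hL hF]
  · rw [h1, mul_zero, mul_zero]

theorem main_2 (h : Fn n) {c S T : ℕ} (hc : c = 1 ∨ c = 2) (hS : S ≠ 0) (hT : T ≠ 0)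
    (hST : S + T = c * n) :
    2 * (L2 n S T * Fs n S T) =
      (1 - dl n S * dl n T * (hl n S T 3 * hl n S T 7)) * (M2 n S T * Fs n S T) := by
  rcases nv_or n S T with ⟨hF, hL⟩ | ⟨h1, h2⟩
  · have h2T : 2 ∈ n.primeFactors → ¬ 2 ∣ T → eS n S 2 = eT n T 2 := fun h2 hT2 =>
      e2_eq ⟨Fn_two h (pf_dvd h2)⟩ hST hT2
    have := two_L2 (FF_of h) hc hS hT hST hL hF h2T
    rw [← mul_assoc, this]
    ring
  · rw [h1, h2, mul_zero, mul_zero]

/-- the signs at the primes of `A` -/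
theorem main_A {A m : ℕ} (hA : A = 1 ∨ N969.RQ.Fd A) (hm : Fn m) (hcop : Nat.Coprime A m)
    {c S T : ℕ} (hc : c = 1 ∨ c = 2) (hS : S ≠ 0) (hT : T ≠ 0) (hST : S + T = c * (A * m))
    (h3 : 3 ∣ A → ¬ 3 ∣ T) (h7 : 7 ∣ A → ¬ 7 ∣ T) :
    (∏ l ∈ A.primeFactors, eT (A * m) T l) * (L2 (A * m) S T * Fs (A * m) S T) =
      sgnE c A (A * m) T * (L2 (A * m) S T * Fs (A * m) S T) := by
  obtain ⟨hF, hk⟩ := Fn_mul hA hm hcop
  have hFF := FF_of hF
  have hA0 : A ≠ 0 := by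
    rintro rfl
    exact hFF.n0 (by rw [zero_mul])
  have hm0 : m ≠ 0 := by
    rintro rfl
    exact hFF.n0 (by rw [mul_zero])
  have hsub : A.primeFactors ⊆ (A * m).primeFactors :=
    Nat.primeFactors_mono (Dvd.intro m rfl) (Nat.mul_ne_zero hA0 hm0)
  rcases nv_or (A * m) S T with ⟨hF', hL⟩ | ⟨h1, _⟩
  · congr 1
    have e : ∏ p ∈ A.primeFactors, eT (A * m) T p =
        (∏ p ∈ A.primeFactors, kq (A * m) p) * sgnE c A (A * m) T := by
      unfold sgnE
      rw [← Finset.prod_mul_distrib]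
      refine Finset.prod_congr rfl fun p hp => ?_
      have hTn : T < c * (A * m) := by omega
      by_cases h2 : p = 2
      · subst h2
        rw [if_pos rfl, eT_two (Fn_two hF ((pf_dvd hp).mul_right m)) hT]
      · rw [if_neg h2]
        have hp' : p ∈ (A * m).primeFactors.erase 2 := Finset.mem_erase.2 ⟨h2, hsub hp⟩
        refine eT_odd hFF hT hc hTn hp' fun hpT _ => ?_
        have hp3 : p ≠ 3 := by
          rintro rfl
          exact h3 (pf_dvd hp) hpT
        have hp7 : p ≠ 7 := by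
          rintro rfl
          exact h7 (pf_dvd hp) hpT
        have e3 : c * (A * m) - T = S := by omega
        rw [e3, eS_eq hFF hS hT hST hF' hp' hp3 hp7, eT_sq (pf_prime hp) hT]
        norm_num
    rw [e, hk, one_mul]
  · rw [h1, mul_zero, mul_zero]

/-- the signs at the primes of `m` -/
theorem main_m {A m : ℕ} (hA : A = 1 ∨ N969.RQ.Fd A) (hm : Fn m) (hcop : Nat.Coprime A m)
    {c S T : ℕ} (hc : c = 1 ∨ c = 2) (hS : S ≠ 0) (hT : T ≠ 0) (hST : S + T = c * (A * m))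
    (h3 : 3 ∣ A → ¬ 3 ∣ T) (h7 : 7 ∣ A → ¬ 7 ∣ T) :
    (∏ l ∈ m.primeFactors, eT (A * m) T l) * (L2 (A * m) S T * Fs (A * m) S T) =
      -(dl (A * m) T * sgnE c A (A * m) T) * (L2 (A * m) S T * Fs (A * m) S T) := by
  obtain ⟨hF, hk⟩ := Fn_mul hA hm hcop
  have e1 := main_A hA hm hcop hc hS hT hST h3 h7
  have e2 := main_T hF hc hS hT hST
  have hFF := FF_of hF
  have hA0 : A ≠ 0 := by
    rintro rfl
    exact hFF.n0 (by rw [zero_mul])
  have hm0 : m ≠ 0 := by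
    rintro rfl
    exact hFF.n0 (by rw [mul_zero])
  rw [Nat.primeFactors_mul hA0 hm0, Finset.prod_union hcop.disjoint_primeFactors] at e2
  have e3 : (∏ l ∈ A.primeFactors, eT (A * m) T l) * ∏ l ∈ A.primeFactors, eT (A * m) T l = 1 := by
    rw [← Finset.prod_mul_distrib]
    exact Finset.prod_eq_one fun l hl => eT_sq (pf_prime hl) hT
  generalize ∏ l ∈ A.primeFactors, eT (A * m) T l = a at *
  generalize ∏ l ∈ m.primeFactors, eT (A * m) T l = b at *
  generalize L2 (A * m) S T * Fs (A * m) S T = F at *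
  linear_combination (-(b * F)) * e3 + a * e2 - (dl (A * m) T) * e1

/-! ### the local sums at `3` and `7` -/

/-- the level conditions -/
def v00 (i j : ℕ) : ℤ := if i = 0 ∧ j = 0 then 1 else 0
def v10 (i _j : ℕ) : ℤ := if 1 ≤ i then 1 else 0
def v01 (_i j : ℕ) : ℤ := if 1 ≤ j then 1 else 0
def v11 (i j : ℕ) : ℤ := if 1 ≤ i ∧ 1 ≤ j then 1 else 0

section

variable {B : Finset ℕ} {c S T p : ℕ}

theorem sT_out (hp : p ∉ n.primeFactors) : sT n B T p = 1 := by
  unfold sT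
  rw [if_neg (by tauto)]

/-- right kernel, prime to `p` -/
theorem Lc_R00 (hS : S ≠ 0) (hT : T ≠ 0) (hST : S + T = c * n) (hp : p ∈ n.primeFactors)
    (hB : p ∉ B) : Lc v00 n B S T p = (if p ∣ T then 0 else 1) * sT n B T p := by
  have hpp := pf_prime hp
  have hd := dvd_iff' hST hp
  by_cases h1 : p ∣ T
  · have s1 := (dvd_fac hpp hS).1 (hd.2 h1)
    have t1 := (dvd_fac hpp hT).1 h1
    rw [Lc_R hS hT hST hp hB h1, if_pos h1]
    unfold v00
    rw [if_neg (by omega), if_neg (by omega)]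
    ring
  · rw [Lc_nd hST hp h1, if_neg h1]
    unfold v00
    rw [if_pos ⟨rfl, rfl⟩]

/-- right kernel, `a'` divisible by `p` -/
theorem Lc_R01 (hS : S ≠ 0) (hT : T ≠ 0) (hST : S + T = c * n) (hp : p ∈ n.primeFactors)
    (hB : p ∉ B) : Lc v01 n B S T p = (if p ∣ T then 1 else 0) * sT n B T p := by
  have hpp := pf_prime hp
  by_cases h1 : p ∣ T
  · have t1 := (dvd_fac hpp hT).1 h1
    rw [Lc_R hS hT hST hp hB h1, if_pos h1]
    unfold v01 sT
    rw [if_neg (by omega), if_pos t1, if_pos ⟨hp, hB⟩]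
    ring
  · rw [Lc_nd hST hp h1, if_neg h1]
    unfold v01
    rw [if_neg (by omega)]

/-- left kernel, both divisible by `p` -/
theorem Lc_L11 (hS : S ≠ 0) (hT : T ≠ 0) (hST : S + T = c * n) (hp : p ∈ n.primeFactors)
    (hB : p ∈ B) : Lc v11 n B S T p = (if p ∣ T then hl n S T p else 0) * sT n B T p := by
  have hpp := pf_prime hp
  have hd := dvd_iff' hST hp
  by_cases h1 : p ∣ T
  · have s1 := (dvd_fac hpp hS).1 (hd.2 h1)
    have t1 := (dvd_fac hpp hT).1 h1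
    rw [Lc_L hS hT hST hp hB h1, if_pos h1]
    unfold v11 sT hl
    rw [if_neg (by omega), if_pos ⟨s1, t1⟩, if_pos hp, if_neg (by tauto)]
    ring
  · rw [Lc_nd hST hp h1, if_neg h1]
    unfold v11
    rw [if_neg (by omega)]

/-- away from `n`, prime to `p` -/
theorem Lc_O00 (hp : p ∉ n.primeFactors) : Lc v00 n B S T p = 1 * sT n B T p := by
  rw [Lc_out hp, sT_out hp]
  unfold v00
  rw [mul_one]
  have e : ∀ i ∈ range (S.factorization p + 1), ∀ j ∈ range (T.factorization p + 1),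
      Ps n p ^ (i + j) * (if i = 0 ∧ j = 0 then (1 : ℤ) else 0) =
        if i = 0 then (if j = 0 then 1 else 0) else 0 := by
    intro i _ j _
    by_cases hi : i = 0 <;> by_cases hj : j = 0 <;> simp [hi, hj]
  rw [Finset.sum_congr rfl fun i hi => Finset.sum_congr rfl fun j hj => e i hi j hj]
  simp only [Finset.sum_ite_irrel, Finset.sum_const_zero, Finset.sum_ite_eq', Finset.mem_range,
    if_true, Nat.lt_succ_iff, Nat.zero_le]

/-- split, `a` divisible by `p`, `p ∤ T` -/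
theorem Lc_S10 (hp : p ∉ n.primeFactors) (hP : Ps n p = 1) (hT : ¬ p ∣ T) :
    Lc v10 n B S T p = (S.factorization p : ℤ) * sT n B T p := by
  rw [Lc_out hp, sT_out hp]
  unfold v10
  rw [mul_one, Nat.factorization_eq_zero_of_not_dvd hT, zero_add, ← one_sum]
  refine Finset.sum_congr rfl fun i _ => ?_
  rw [Finset.sum_range_one, hP, one_pow]
  ring

/-- split, `a'` divisible by `p`, `p ∤ S` -/
theorem Lc_S01 (hp : p ∉ n.primeFactors) (hP : Ps n p = 1) (hS : ¬ p ∣ S) :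
    Lc v01 n B S T p = (T.factorization p : ℤ) * sT n B T p := by
  rw [Lc_out hp, sT_out hp]
  unfold v01
  rw [mul_one, Nat.factorization_eq_zero_of_not_dvd hS, zero_add,
    Finset.sum_range_one, ← one_sum]
  refine Finset.sum_congr rfl fun j _ => ?_
  rw [hP, one_pow]
  ring

/-- inert, `a` divisible by `p`, `p ∤ T` -/
theorem Lc_I10 (hp : p ∉ n.primeFactors) (hP : Ps n p = -1) (hT : ¬ p ∣ T) :
    Lc v10 n B S T p = (if Odd (S.factorization p) then -1 else 0) * sT n B T p := by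
  rw [Lc_out hp, sT_out hp]
  unfold v10
  rw [mul_one, Nat.factorization_eq_zero_of_not_dvd hT, zero_add, ← alt_sum]
  refine Finset.sum_congr rfl fun i _ => ?_
  rw [Finset.sum_range_one, hP]
  ring

/-- inert, `a'` divisible by `p`, `p ∤ S` or `p ∤ T` -/
theorem Lc_I01 (hp : p ∉ n.primeFactors) (hP : Ps n p = -1) (hS : ¬ p ∣ S ∨ ¬ p ∣ T) :
    Lc v01 n B S T p = (if Odd (T.factorization p) then -1 else 0) * sT n B T p := by
  rw [Lc_out hp, sT_out hp]
  unfold v01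
  rw [mul_one]
  rcases hS with hS | hT
  · rw [Nat.factorization_eq_zero_of_not_dvd hS, zero_add, Finset.sum_range_one, ← alt_sum]
    refine Finset.sum_congr rfl fun j _ => ?_
    rw [hP]
    ring
  · rw [Nat.factorization_eq_zero_of_not_dvd hT, zero_add]
    simp

end

/-! ### the level conditions -/

theorem z_fac {p x : ℕ} (hp : p.Prime) (hx : x ≠ 0) : x.factorization p = 0 ↔ ¬ p ∣ x := by
  rw [dvd_fac hp hx]; omega

/-- mixed orientation -/
theorem lev_M : Lev (7 ∣ ·) (3 ∣ ·) v01 v10 := by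
  intro a a' ha ha'
  unfold v01 v10
  simp only [← dvd_fac p7 ha, ← dvd_fac (by norm_num : Nat.Prime 3) ha']
  split_ifs <;> norm_num

theorem lev_B : Lev (¬ 3 ∣ ·) (fun a => 7 ∣ a ∧ ¬ 3 ∣ a) v00 v01 := by
  intro a a' ha ha'
  unfold v00 v01
  simp only [z_fac (by norm_num : Nat.Prime 3) ha, z_fac (by norm_num : Nat.Prime 3) ha',
    ← dvd_fac p7 ha']
  by_cases h1 : 3 ∣ a <;> by_cases h2 : 3 ∣ a' <;> by_cases h3 : 7 ∣ a' <;> simp [h1, h2, h3]

theorem lev_C : Lev (fun a => 7 ∣ a ∧ ¬ 3 ∣ a) (fun a => 7 ∣ a ∧ ¬ 3 ∣ a) v00 v11 := by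
  intro a a' ha ha'
  unfold v00 v11
  simp only [z_fac (by norm_num : Nat.Prime 3) ha, z_fac (by norm_num : Nat.Prime 3) ha',
    ← dvd_fac p7 ha', ← dvd_fac p7 ha]
  by_cases h1 : 3 ∣ a <;> by_cases h2 : 3 ∣ a' <;> by_cases h3 : 7 ∣ a' <;>
    by_cases h4 : 7 ∣ a <;> simp [h1, h2, h3, h4]

/-! ### the densities -/

theorem R1_four (h : FF n) {D : ℕ} (hD : D ≠ 0) : R1 n (4 * D) = R1 n D := by
  unfold R1
  rw [pf_four hD]
  refine Finset.prod_congr rfl fun l hl => ?_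
  have h1 := Finset.mem_erase.1 (Finset.mem_of_mem_erase (Finset.mem_of_mem_erase hl))
  exact fac_four h hD (Nat.prime_of_mem_primeFactors h1.2) h1.1

/-- the density at `2`, determinant `n` -/
theorem M2_dt {S T : ℕ} (h : Fn n) (hS : S ≠ 0) (hT : T ≠ 0) (hST : S + T = 1 * n) :
    M2 n S T = dt n (2 * T - (n : ℕ)) (4 * S * T) := by
  unfold dt
  split_ifs with h2
  · have hE : Pool.Agent.N295.P15.E.Fd n := ⟨Fn_two h h2⟩
    have h4 : 4 ∣ n := hE.four
    have h5 : (4 : ℤ) ∣ (n : ℤ) := by exact_mod_cast h4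
    rw [M2_even hE.mem2]
    by_cases h2 : 2 ∣ T
    · have h6 : (2 * (T : ℤ) - (n : ℤ)) % 4 = 0 := by omega
      unfold tb
      rw [if_pos h2, if_pos h6]
    · have h6 : (2 * (T : ℤ) - (n : ℤ)) % 4 = 2 := by omega
      unfold tb
      rw [if_neg h2, h6]
      norm_num
  · rw [tw_A (Fn_odd h h2) hS hT hST, mul_assoc]

/-- the product without the factor at `7` -/
theorem prod7 {D : ℕ} (hD : D ≠ 0) :
    ∏ l ∈ (D.primeFactors.erase 2).erase 7, fac n D l =
      (if 3 ∣ D then fac n D 3 else 1) * R1 n D := by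
  have p3 : Nat.Prime 3 := by norm_num
  have e : ((D.primeFactors.erase 2).erase 7).erase 3 = ((D.primeFactors.erase 2).erase 3).erase 7 :=
    Finset.erase_right_comm
  unfold R1
  rw [← e]
  split_ifs with h3
  · have hm : 3 ∈ (D.primeFactors.erase 2).erase 7 := Finset.mem_erase.2 ⟨by norm_num,
      Finset.mem_erase.2 ⟨by norm_num, Nat.mem_primeFactors.2 ⟨p3, h3, hD⟩⟩⟩
    rw [Finset.mul_prod_erase _ _ hm]
  · rw [Finset.erase_eq_of_notMem (a := 3) (fun h4 => h3 (Nat.dvd_of_mem_primeFactors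
      (Finset.mem_of_mem_erase (Finset.mem_of_mem_erase h4)))), one_mul]

/-- the product without the factor at `3` -/
theorem prod3 {D : ℕ} (hD : D ≠ 0) :
    ∏ l ∈ (D.primeFactors.erase 2).erase 3, fac n D l =
      (if 7 ∣ D then fac n D 7 else 1) * R1 n D := by
  unfold R1
  split_ifs with h3
  · have hm : 7 ∈ (D.primeFactors.erase 2).erase 3 := Finset.mem_erase.2 ⟨by norm_num,
      Finset.mem_erase.2 ⟨by norm_num, Nat.mem_primeFactors.2 ⟨p7, h3, hD⟩⟩⟩
    rw [Finset.mul_prod_erase _ _ hm]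
  · rw [Finset.erase_eq_of_notMem (a := 7) (fun h4 => h3 (Nat.dvd_of_mem_primeFactors
      (Finset.mem_of_mem_erase (Finset.mem_of_mem_erase h4)))), one_mul]

/-- the density ramified at `7`, `7 ∣ n` -/
theorem L7r_eq {b : ℤ} {D : ℕ} (hD : D ≠ 0) (h7 : 7 ∣ D) :
    N877.P21G.L7r n b D = (1 - hh n D 7) *
      (dt n b D * ((if 3 ∣ D then fac n D 3 else 1) * R1 n D)) := by
  unfold N877.P21G.L7r
  rw [if_pos h7, prod7 hD]

/-- `hl` is the local symbol -/
theorem hl_hh (h : FF n) {S T l : ℕ} (hS : S ≠ 0) (hT : T ≠ 0) (h2 : l ≠ 2)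
    (hl' : l ∈ n.primeFactors) : hh n (4 * S * T) l = hl n S T l := by
  have hm : l ∈ n.primeFactors.erase 2 := Finset.mem_erase.2 ⟨h2, hl'⟩
  unfold hl
  rw [mul_assoc, hh_four h (mul_ne_zero hS hT) hm, hh_ST h hS hT hm, if_pos hl']

theorem sdiff_m {A m : ℕ} (hA0 : A ≠ 0) (hm0 : m ≠ 0) (hcop : Nat.Coprime A m) :
    (A * m).primeFactors \ A.primeFactors = m.primeFactors := by
  rw [Nat.primeFactors_mul hA0 hm0]
  ext l
  simp only [Finset.mem_sdiff, Finset.mem_union]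
  constructor
  · rintro ⟨h1 | h1, h2⟩
    · exact absurd h1 h2
    · exact h1
  · intro h1
    exact ⟨Or.inr h1, Finset.disjoint_right.1 hcop.disjoint_primeFactors h1⟩

theorem sdiff_A {A m : ℕ} (hA0 : A ≠ 0) (hm0 : m ≠ 0) (hcop : Nat.Coprime A m) :
    (A * m).primeFactors \ m.primeFactors = A.primeFactors := by
  rw [mul_comm]
  exact sdiff_m hm0 hA0 hcop.symm

end Pool.Agent.N871.G21
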