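import Pool.Agent.N871.P21G.GenC
import Pool.Agent.N833.P21.CW

/-!
# P21G: the divisor sums `S_C221`, `S_C2D21`, `S_C2E`, `S_C2E7`
-/

set_option autoImplicit false

namespace Pool.Agent.N871.G21

open Finset
open Pool.Agent.Z700 (hh fac)
open Pool.Agent.Y574.Z7 (chp dvd_fac)
open Pool.Agent.N969.P15 (Ev tw tb ep2)
open Pool.Agent.N969.P17G (sgnE)
open Pool.Agent.N295.P15 (Ff dvd_cn fac_ST fac4 pf_four)
open Pool.Agent.N295.P15.E (Ps eT eS eT_sq eS_sq pf_prime pf_dvd)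
open Pool.Agent.N833.P21 (p7 Q' L2 M2 tw_A tw_B M2_even R1 v5 v54)
open Pool.Agent.N877.P21G

variable {n : ℕ}

theorem p3 : Nat.Prime 3 := by norm_num

theorem Fn_ne {n : ℕ} (h : Fn n) : n ≠ 0 := (FF_of h).n0

theorem Ai_Fd {A : ℕ} (h : Ai A) : A = 1 ∨ N969.RQ.Fd A := Or.inr h.1

theorem jac7_nd {A : ℕ} (h : jacobiSym A 7 = -1) : ¬ 7 ∣ A := by
  intro h7
  have h1 : jacobiSym (A : ℤ) 7 = 0 := by
    rw [jacobiSym.mod_left, Int.emod_eq_zero_of_dvd (by exact_mod_cast h7)]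
    norm_num
  rw [h1] at h
  norm_num at h

theorem K21_Fn {m : ℕ} (h : K21 m) : Fn m ∧ 7 ∣ m ∧ 3 ∣ m := by
  rcases h with h | h
  · exact ⟨Or.inl ⟨h.1, h.2.1⟩, h.2.2.1, h.2.2.2⟩
  · exact ⟨Or.inr h.1, h.2.1, h.2.2⟩

theorem K7_Fn {m : ℕ} (h : K7 m) : Fn m ∧ 7 ∣ m ∧ m % 3 = 1 := by
  rcases h with h | h
  · exact ⟨Or.inl ⟨h.1, h.2.1⟩, h.2.2.1, h.2.2.2⟩
  · exact ⟨Or.inr h.1, h.2.1, h.2.2⟩

theorem K0_Fn {m : ℕ} (h : K0 m) : Fn m ∧ N877.P21.Sp7 m ∧ m % 3 = 1 := by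
  rcases h with h | h
  · exact ⟨Or.inl ⟨h.1, h.2.1⟩, h.2.2.2, h.2.2.1⟩
  · exact ⟨Or.inr h.1, h.2.2, h.2.1⟩

theorem K3_Fn {m : ℕ} (h : K3 m) : Fn m ∧ N877.P21.Sp7 m ∧ 3 ∣ m := by
  rcases h with h | h
  · exact ⟨Or.inl ⟨h.1, h.2.1⟩, h.2.2.1, h.2.2.2⟩
  · exact ⟨Or.inr h.1, h.2.1, h.2.2⟩

/-- `7 ∣ n`, `3 ∣ n`: the density in terms of the factor at `2` -/
theorem L7r_val {S T : ℕ} (h : Fn n) (hS : S ≠ 0) (hT : T ≠ 0) (hST : S + T = 1 * n)
    (h3 : 3 ∣ n) (h7 : 7 ∣ n) (hT3 : ¬ 3 ∣ T) (hT7 : 7 ∣ T) :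
    L7r n (2 * T - (n : ℕ)) (4 * S * T) = (1 - hl n S T 7) * (M2 n S T * Fs n S T) := by
  have hF := FF_of h
  have hD : 4 * S * T ≠ 0 := mul_ne_zero (mul_ne_zero (by norm_num) hS) hT
  have hS3 : ¬ 3 ∣ S := by
    intro h1
    have h2 : 3 ∣ S + T := by rw [hST, one_mul]; exact h3
    exact hT3 ((Nat.dvd_add_right h1).1 h2)
  have hD3 : ¬ 3 ∣ 4 * S * T := by
    rw [p3.dvd_mul, p3.dvd_mul]
    rintro ((h1 | h1) | h1)
    · omega
    · exact hS3 h1
    · exact hT3 h1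
  have h7' : 7 ∈ n.primeFactors := (hF.mem p7).2 h7
  rw [L7r_eq hD (hT7.mul_left _), if_neg hD3, one_mul, hl_hh hF hS hT (by norm_num) h7',
    ← M2_dt h hS hT hST, Fs_eq, mul_assoc 4 S T, R1_four hF (mul_ne_zero hS hT)]

theorem dl_one (h3 : 3 ∈ n.primeFactors) (h7 : 7 ∈ n.primeFactors) (T : ℕ) : dl n T = 1 := by
  unfold dl
  rw [if_pos h3, if_pos h7, one_mul]

/-- `Ai × K21`, symbol of `A` -/
theorem t_C221 : S_C221 := by
  intro A m hA hm hcop T hT0 hTn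
  obtain ⟨hmF, hm7, hm3⟩ := K21_Fn hm
  obtain ⟨hF, _⟩ := Fn_mul (Ai_Fd hA) hmF hcop
  have hFF := FF_of hF
  have hA0 : A ≠ 0 := by rintro rfl; exact hFF.n0 (by rw [zero_mul])
  have hm0 : m ≠ 0 := Fn_ne hmF
  have hA3 : ¬ 3 ∣ A := by have := hA.2.1; omega
  have hA7 : ¬ 7 ∣ A := jac7_nd hA.2.2
  have h3n : 3 ∈ (A * m).primeFactors := (hFF.mem p3).2 (hm3.mul_left A)
  have h7n : 7 ∈ (A * m).primeFactors := (hFF.mem p7).2 (hm7.mul_left A)
  have h3B : 3 ∉ A.primeFactors := fun h => hA3 (pf_dvd h)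
  have h7B : 7 ∉ A.primeFactors := fun h => hA7 (pf_dvd h)
  obtain ⟨S, hSdef⟩ : ∃ S, S = A * m - T := ⟨_, rfl⟩
  rw [← hSdef]
  have hST : S + T = 1 * (A * m) := by omega
  have hS : S ≠ 0 := by omega
  have hT : T ≠ 0 := by omega
  have e1 : WB A m S T = _ := Wd_DS (¬ 3 ∣ ·) (fun a => 7 ∣ a ∧ ¬ 3 ∣ a) hA0 hm0 hcop S T
  rw [e1, DS_val lev_B hFF (Or.inl rfl) hS hT hST (Lc_R00 hS hT hST h3n h3B)
    (Lc_R01 hS hT hST h7n h7B), sdiff_m hA0 hm0 hcop]
  by_cases h7 : 7 ∣ T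
  · by_cases h3 : 3 ∣ T
    · rw [if_neg (fun h : 7 ∣ T ∧ ¬ 3 ∣ T => h.2 h3), if_pos h3]
      ring
    · rw [if_pos (⟨h7, h3⟩ : 7 ∣ T ∧ ¬ 3 ∣ T), if_neg h3, if_pos h7, L7r_val hF hS hT hST (hm3.mul_left A)
        (hm7.mul_left A) h3 h7]
      have m1 := main_m (Ai_Fd hA) hmF hcop (Or.inl rfl) hS hT hST (fun h => absurd h hA3)
        (fun h => absurd h hA7)
      have m2 := main_2 hF (Or.inl rfl) hS hT hST
      rw [dl_one h3n h7n] at m1 m2
      rw [dl_one h3n h7n, hl_nd hT hST (by norm_num) h3] at m2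
      unfold Fs at *
      generalize ∏ l ∈ m.primeFactors, eT (A * m) T l = a at *
      generalize ∏ l ∈ Q' (A * m) S T, Ff (A * m) S T l = F at *
      linear_combination 2 * m1 - sgnE 1 A (A * m) T * m2
  · rw [if_neg (fun h : 7 ∣ T ∧ ¬ 3 ∣ T => h7 h.1), if_neg h7]
    ring

/-- `A0 × K7`, symbol of `-m` -/
theorem t_C2D21 : S_C2D21 := by
  intro A m hA hm hcop T hT0 hTn
  obtain ⟨hmF, hm7, hm3⟩ := K7_Fn hm
  have hAF : A = 1 ∨ N969.RQ.Fd A := Or.inr hA.1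
  obtain ⟨hF, _⟩ := Fn_mul hAF hmF hcop
  have hFF := FF_of hF
  have hA0 : A ≠ 0 := by rintro rfl; exact hFF.n0 (by rw [zero_mul])
  have hm0 : m ≠ 0 := Fn_ne hmF
  have hA3 : 3 ∣ A := hA.2.1
  have hA7 : ¬ 7 ∣ A := jac7_nd hA.2.2
  have hm3' : ¬ 3 ∣ m := by omega
  have h3n : 3 ∈ (A * m).primeFactors := (hFF.mem p3).2 (hA3.mul_right m)
  have h7n : 7 ∈ (A * m).primeFactors := (hFF.mem p7).2 (hm7.mul_left A)
  have h3B : 3 ∉ m.primeFactors := fun h => hm3' (pf_dvd h)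
  have h7B : 7 ∈ m.primeFactors := Nat.mem_primeFactors.2 ⟨p7, hm7, hm0⟩
  obtain ⟨S, hSdef⟩ : ∃ S, S = A * m - T := ⟨_, rfl⟩
  rw [← hSdef]
  have hST : S + T = 1 * (A * m) := by omega
  have hS : S ≠ 0 := by omega
  have hT : T ≠ 0 := by omega
  have e1 : WC m A S T = _ := Wd_DS (fun a => 7 ∣ a ∧ ¬ 3 ∣ a) (fun a => 7 ∣ a ∧ ¬ 3 ∣ a)
    hm0 hA0 hcop.symm S T
  rw [e1, mul_comm m A, DS_val lev_C hFF (Or.inl rfl) hS hT hST (Lc_R00 hS hT hST h3n h3B)
    (Lc_L11 hS hT hST h7n h7B), sdiff_A hA0 hm0 hcop]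
  by_cases h7 : 7 ∣ T
  · by_cases h3 : 3 ∣ T
    · rw [if_neg (fun h : 7 ∣ T ∧ ¬ 3 ∣ T => h.2 h3), if_pos h3]
      ring
    · rw [if_pos (⟨h7, h3⟩ : 7 ∣ T ∧ ¬ 3 ∣ T), if_neg h3, if_pos h7, L7r_val hF hS hT hST (hA3.mul_right m)
        (hm7.mul_left A) h3 h7]
      have m1 := main_A hAF hmF hcop (Or.inl rfl) hS hT hST (fun _ => h3)
        (fun h => absurd h hA7)
      have m2 := main_2 hF (Or.inl rfl) hS hT hST
      rw [dl_one h3n h7n, dl_one h3n h7n, hl_nd hT hST (by norm_num) h3] at m2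
      have q7 := hl_sq (n := A * m) (l := 7) hS hT
      unfold Fs at *
      generalize ∏ l ∈ A.primeFactors, eT (A * m) T l = a at *
      generalize ∏ l ∈ Q' (A * m) S T, Ff (A * m) S T l = F at *
      generalize hl (A * m) S T 7 = x at *
      linear_combination 2 * x * m1 + sgnE 1 A (A * m) T * x * m2 -
        (sgnE 1 A (A * m) T * M2 (A * m) S T * F) * q7
  · rw [if_neg (fun h : 7 ∣ T ∧ ¬ 3 ∣ T => h7 h.1), if_neg h7]
    ring

/-! ### `A = 1` -/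

theorem Ps3_of (h : FF n) (h3 : n % 3 = 1) : 3 ∉ n.primeFactors ∧ Ps n 3 = -1 := by
  have h5 : 3 ∉ n.primeFactors := fun h1 => by have := pf_dvd h1; omega
  refine ⟨h5, ?_⟩
  rw [h.Ps_l 3 p3 (by norm_num) h5, jacobiSym.mod_left]
  have h1 : (-(n : ℤ)) % ((3 : ℕ) : ℤ) = 2 := by omega
  rw [h1]; norm_num

theorem Ps7_of (h : FF n) (h0 : N877.P21.Sp7 n) : 7 ∉ n.primeFactors ∧ Ps n 7 = 1 := by
  have h5 : 7 ∉ n.primeFactors := fun h1 => by
    have := pf_dvd h1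
    rcases h0 with h0 | h0 | h0 <;> omega
  refine ⟨h5, ?_⟩
  rw [h.Ps_l 7 p7 (by norm_num) h5, jacobiSym.mod_left]
  rcases h0 with h0 | h0 | h0
  · have h1 : (-(n : ℤ)) % ((7 : ℕ) : ℤ) = 4 := by omega
    rw [h1]; norm_num
  · have h1 : (-(n : ℤ)) % ((7 : ℕ) : ℤ) = 2 := by omega
    rw [h1]; norm_num
  · have h1 : (-(n : ℤ)) % ((7 : ℕ) : ℤ) = 1 := by omega
    rw [h1]; norm_num

/-- the density at `2` for even discriminants -/
theorem M2_tb {k S T : ℕ} (h : Ev n) (hST : S + T = k * n) :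
    M2 n S T = tb (2 * T - (k * n : ℕ)) := by
  have hE : Pool.Agent.N295.P15.E.Fd n := ⟨h⟩
  have h4 : 4 ∣ k * n := hE.four.mul_left k
  have h5 : (4 : ℤ) ∣ ((k * n : ℕ) : ℤ) := by exact_mod_cast h4
  rw [M2_even hE.mem2]
  by_cases h2 : 2 ∣ T
  · have h6 : (2 * (T : ℤ) - ((k * n : ℕ) : ℤ)) % 4 = 0 := by omega
    unfold tb
    rw [if_pos h2, if_pos h6]
  · have h6 : (2 * (T : ℤ) - ((k * n : ℕ) : ℤ)) % 4 = 2 := by omega
    unfold tb
    rw [if_neg h2, h6]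
    norm_num

/-- the factor at `2` for odd discriminants -/
theorem M2_tw {k S T : ℕ} (h : Pool.Agent.N295.P15.Fd n) (hk : k = 1 ∨ k = 2) (hS : S ≠ 0)
    (hT : T ≠ 0) (hST : S + T = k * n) :
    M2 n S T = tw n (4 * (S * T)) + if k = 2 ∧ 2 ∣ T then ep2 n * tw n (S * T) else 0 := by
  rcases hk with rfl | rfl
  · rw [tw_A h hS hT hST, if_neg (by norm_num), add_zero]
  · rw [tw_B h hS hT hST]
    simp only [true_and]

theorem t_C2E : S_C2E := by
  intro m hm k hk T hT0 hTn hT3 hS7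
  obtain ⟨hF, h7, h3⟩ := K0_Fn hm
  have hFF := FF_of hF
  have hm0 : m ≠ 0 := hFF.n0
  obtain ⟨n3, P3⟩ := Ps3_of hFF h3
  obtain ⟨n7, P7'⟩ := Ps7_of hFF h7
  obtain ⟨S, hSdef⟩ : ∃ S, S = k * m - T := ⟨_, rfl⟩
  rw [← hSdef] at hS7 ⊢
  have hST : S + T = k * m := by omega
  have hS : S ≠ 0 := by omega
  have hT : T ≠ 0 := by omega
  have hST0 := mul_ne_zero hS hT
  have hT7 : ¬ 7 ∣ T := by
    intro h
    have h6 : 7 ∣ k * m := hST ▸ dvd_add hS7 h
    have := dvd_cn hk p7 (by norm_num) h6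
    rcases h7 with h7 | h7 | h7 <;> omega
  have hS3 : ¬ 3 ∣ S := by
    intro h
    have h6 : 3 ∣ k * m := hST ▸ dvd_add h hT3
    have := dvd_cn hk p3 (by norm_num) h6
    omega
  have e1 : WM m 1 S T = _ := Wd_DS (7 ∣ ·) (3 ∣ ·) hm0 one_ne_zero (Nat.coprime_one_right m) S T
  have hST' : S + T = k * (m * 1) := by rw [mul_one]; exact hST
  rw [e1, mul_one, DS_val lev_M hFF hk hS hT hST
    (Lc_I01 n3 P3 (Or.inl hS3)) (Lc_S10 n7 P7' hT7), Finset.sdiff_self, Finset.prod_empty, mul_one]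
  have m2 := main_2 hF hk hS hT hST
  have d1 : dl m S * dl m T = (-1) ^ T.factorization 3 := by
    unfold dl
    rw [if_neg n3, if_neg n7, if_neg n3, if_neg n7, P3, P7', one_pow, one_pow,
      Nat.factorization_eq_zero_of_not_dvd hS3]
    ring
  have d3 : hl m S T 3 = 1 := if_neg n3
  have d7 : hl m S T 7 = 1 := if_neg n7
  rw [d1, d3, d7] at m2
  -- the densities
  have r1 : (4 * (S * T)).factorization 3 = T.factorization 3 := v54 hS hT hS3
  have r2 : (S * T).factorization 3 = T.factorization 3 := v5 hS hT hS3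
  have r3 : (4 * (S * T)).factorization 7 = S.factorization 7 :=
    Pool.Agent.N833.P21.v74 hS hT hT7
  have r4 : (S * T).factorization 7 = S.factorization 7 := Pool.Agent.N833.P21.v7 hS hT hT7
  have r5 : R1 m (4 * (S * T)) = Fs m S T := by rw [R1_four hFF hST0, Fs_eq]
  have r6 : R1 m (S * T) = Fs m S T := (Fs_eq S T).symm
  have q1 : ∀ b : ℤ, N877.P21.loc7E m b (4 * S * T) =
      if Odd ((4 * (S * T)).factorization 3) then
        ((4 * (S * T)).factorization 7 : ℤ) * (tb b * R1 m (4 * (S * T))) else 0 := by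
    intro b
    rw [mul_assoc 4 S T]
    rfl
  have q2 : N877.P21.loc7 m (4 * S * T) = ((4 * (S * T)).factorization 7 : ℤ) *
      if Odd ((4 * (S * T)).factorization 3) then tw m (4 * (S * T)) * R1 m (4 * (S * T))
        else 0 := by
    rw [mul_assoc 4 S T]
    rfl
  have q3 : N877.P21.loc7 m (S * T) = ((S * T).factorization 7 : ℤ) *
      if Odd ((S * T).factorization 3) then tw m (S * T) * R1 m (S * T) else 0 := rfl
  have hfin : (if 2 ∣ m then N877.P21.loc7E m (2 * T - (k * m : ℕ)) (4 * S * T)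
      else N877.P21.loc7 m (4 * S * T) +
        if k = 2 ∧ 2 ∣ T then ep2 m * N877.P21.loc7 m (S * T) else 0) =
      (S.factorization 7 : ℤ) * if Odd (T.factorization 3) then M2 m S T * Fs m S T else 0 := by
    by_cases h2 : 2 ∣ m
    · rw [if_pos h2, q1, r1, r3, r5, M2_tb (Fn_two hF h2) hST]
      split_ifs <;> ring
    · rw [if_neg h2, q2, q3, r1, r2, r3, r4, r5, r6, M2_tw (Fn_odd hF h2) hk hS hT hST]
      split_ifs <;> ring
  rw [hfin]
  by_cases hodd : Odd (T.factorization 3)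
  · rw [if_pos hodd, if_pos hodd]
    rw [hodd.neg_one_pow] at m2
    unfold Fs at *
    generalize ∏ l ∈ Q' m S T, Ff m S T l = F at *
    have m3 : L2 m S T * F = M2 m S T * F := by linarith
    linear_combination (-(S.factorization 7 : ℤ)) * m3
  · rw [if_neg hodd, if_neg hodd]
    ring

/-- the difference of the two lattices -/
theorem dif_val {m : ℕ} (hF : Fn m) (h3 : m % 3 = 1) (h7 : 7 ∣ m) {D : ℕ} (hD : D ≠ 0)
    (hD7 : 7 ∣ D) (b : ℤ) :
    dif m b D = (hh m D 7 - (-1) ^ D.factorization 3) * (dt m b D * R1 m D) := by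
  have hFF := FF_of hF
  obtain ⟨n3, P3⟩ := Ps3_of hFF h3
  have f7 : fac m D 7 = 1 + hh m D 7 := by
    unfold fac
    rw [if_pos h7]
  have f3 : (if 3 ∣ D then fac m D 3 else 1) = if Odd (D.factorization 3) then (0 : ℤ) else 1 := by
    by_cases h : 3 ∣ D
    · rw [if_pos h]
      unfold fac
      rw [if_neg (by omega), ← hFF.Ps_l 3 p3 (by norm_num) n3, P3, Finset.sum_range_succ']
      have := Pool.Agent.Y574.Z7.alt_sum (D.factorization 3)
      have e : ∑ k ∈ range (D.factorization 3), (-1 : ℤ) ^ (k + 1) =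
          if Odd (D.factorization 3) then -1 else 0 := by
        rw [← this, Finset.sum_range_succ' (fun j => (-1 : ℤ) ^ j * if 1 ≤ j then 1 else 0)]
        simp
      rw [e]
      split_ifs <;> norm_num
    · rw [if_neg h, Nat.factorization_eq_zero_of_not_dvd h]
      norm_num
  have e1 : (if 2 ∣ m then N877.P21.locE m b D else N877.P21.loc m D) =
      if Odd (D.factorization 3) then dt m b D * ((1 + hh m D 7) * R1 m D) else 0 := by
    unfold N877.P21.locE N877.P21.loc dt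
    rw [prod3 hD, if_pos hD7, f7]
    split_ifs <;> ring
  unfold dif
  rw [e1, L7r_eq hD hD7, f3]
  by_cases ho : Odd (D.factorization 3)
  · rw [if_pos ho, if_pos ho, ho.neg_one_pow]
    ring
  · rw [if_neg ho, if_neg ho, (Nat.not_odd_iff_even.1 ho).neg_one_pow]
    ring

theorem t_C2E7 : S_C2E7 := by
  intro m hm k hk T hT0 hTn
  obtain ⟨hF, h7, h3⟩ := K7_Fn hm
  have hFF := FF_of hF
  have hm0 : m ≠ 0 := hFF.n0
  obtain ⟨n3, P3⟩ := Ps3_of hFF h3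
  have h7n : 7 ∈ m.primeFactors := (hFF.mem p7).2 h7
  obtain ⟨S, hSdef⟩ : ∃ S, S = k * m - T := ⟨_, rfl⟩
  rw [← hSdef]
  have hST : S + T = k * m := by omega
  have hS : S ≠ 0 := by omega
  have hT : T ≠ 0 := by omega
  have hST0 := mul_ne_zero hS hT
  have e1 : WC m 1 S T = _ := Wd_DS (fun a => 7 ∣ a ∧ ¬ 3 ∣ a) (fun a => 7 ∣ a ∧ ¬ 3 ∣ a)
    hm0 one_ne_zero (Nat.coprime_one_right m) S T
  rw [e1, mul_one, DS_val lev_C hFF hk hS hT hST (Lc_O00 n3) (Lc_L11 hS hT hST h7n h7n),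
    Finset.sdiff_self, Finset.prod_empty, mul_one]
  by_cases hT7 : 7 ∣ T
  · rw [if_pos hT7, if_pos hT7]
    have hD4 : 4 * S * T ≠ 0 := mul_ne_zero (mul_ne_zero (by norm_num) hS) hT
    have r1 : (4 * S * T).factorization 3 = S.factorization 3 + T.factorization 3 := by
      rw [mul_assoc, fac4 hST0 p3 (by norm_num), fac_ST hS hT]
    have r2 : (S * T).factorization 3 = S.factorization 3 + T.factorization 3 := fac_ST hS hT
    have r5 : R1 m (4 * S * T) = Fs m S T := by rw [mul_assoc, R1_four hFF hST0, Fs_eq]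
    have r6 : R1 m (S * T) = Fs m S T := (Fs_eq S T).symm
    have hm7 : 7 ∈ m.primeFactors.erase 2 := Finset.mem_erase.2 ⟨by norm_num, h7n⟩
    have r7 : hh m (4 * S * T) 7 = hl m S T 7 := hl_hh hFF hS hT (by norm_num) h7n
    have r8 : hh m (S * T) 7 = hl m S T 7 := by
      unfold hl
      rw [hh_ST hFF hS hT hm7, if_pos h7n]
    have m2 := main_2 hF hk hS hT hST
    have d1 : dl m S * dl m T = (-1) ^ (S.factorization 3 + T.factorization 3) := by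
      unfold dl
      rw [if_neg n3, if_pos h7n, if_neg n3, if_pos h7n, P3, pow_add]
      ring
    have d3 : hl m S T 3 = 1 := if_neg n3
    rw [d1, d3] at m2
    have q7 := hl_sq (n := m) (l := 7) hS hT
    have hfin : dif m (2 * T - (k * m : ℕ)) (4 * S * T) +
        (if k = 2 ∧ 2 ∣ T ∧ ¬ 2 ∣ m then ep2 m * dif m 0 (S * T) else 0) =
        (hl m S T 7 - (-1) ^ (S.factorization 3 + T.factorization 3)) *
          (M2 m S T * Fs m S T) := by
      rw [dif_val hF h3 h7 hD4 (hT7.mul_left _), dif_val hF h3 h7 hST0 (hT7.mul_left _), r1, r2,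
        r5, r6, r7, r8]
      unfold dt
      by_cases h2 : 2 ∣ m
      · rw [if_pos h2, if_neg (by tauto), M2_tb (Fn_two hF h2) hST]
        ring
      · rw [if_neg h2, if_neg h2, M2_tw (Fn_odd hF h2) hk hS hT hST, mul_assoc 4 S T]
        by_cases h5 : k = 2 ∧ 2 ∣ T
        · rw [if_pos h5, if_pos ⟨h5.1, h5.2, h2⟩]
          ring
        · rw [if_neg h5, if_neg (by tauto)]
          ring
    rw [hfin]
    unfold Fs at *
    generalize ∏ l ∈ Q' m S T, Ff m S T l = F at *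
    generalize (-1 : ℤ) ^ (S.factorization 3 + T.factorization 3) = e at *
    generalize hl m S T 7 = x at *
    linear_combination x * m2 - e * M2 m S T * F * q7
  · rw [if_neg hT7, if_neg hT7]
    ring

end Pool.Agent.N871.G21
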