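import Pool.Agent.N871.P21G.C2
import Pool.Agent.N877.P21G.Defs2

/-!
# P21G: the divisor sums `S_C2I`, `S_C2DI`, `S_C2N`, `S_C2N2`, `S_C23`, `S_C2D3`, `S_C2S`
-/

set_option autoImplicit false

namespace Pool.Agent.N871.G21

open Finset
open Pool.Agent.Z700 (hh fac)
open Pool.Agent.Y574.Z7 (chp dvd_fac)
open Pool.Agent.N969.P15 (Ev tw tb ep2)
open Pool.Agent.N969.P17G (sgnE)
open Pool.Agent.N295.P15 (Ff dvd_cn fac_ST fac4 pf_four)
open Pool.Agent.N295.P15.E (Ps eT eS eT_sq eS_sq pf_prime pf_dvd)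
open Pool.Agent.N833.P21 (p7 Q' L2 M2 tw_A tw_B M2_even R1 v5 v54 v7 v74)
open Pool.Agent.N877.P21G

variable {n : ℕ}

/-! ### the characters -/

theorem Ps3_split (h : FF n) (h3 : n % 3 = 2) : 3 ∉ n.primeFactors ∧ Ps n 3 = 1 := by
  have h5 : 3 ∉ n.primeFactors := fun h1 => by have := pf_dvd h1; omega
  refine ⟨h5, ?_⟩
  rw [h.Ps_l 3 p3 (by norm_num) h5, jacobiSym.mod_left]
  have h1 : (-(n : ℤ)) % ((3 : ℕ) : ℤ) = 1 := by omega
  rw [h1]; norm_num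

theorem Ps7_inert (h : FF n) (h0 : I7 n) : 7 ∉ n.primeFactors ∧ Ps n 7 = -1 := by
  have h5 : 7 ∉ n.primeFactors := fun h1 => by
    have := pf_dvd h1
    rcases h0 with h0 | h0 | h0 <;> omega
  refine ⟨h5, ?_⟩
  rw [h.Ps_l 7 p7 (by norm_num) h5, jacobiSym.mod_left]
  rcases h0 with h0 | h0 | h0
  · have h1 : (-(n : ℤ)) % ((7 : ℕ) : ℤ) = 6 := by omega
    rw [h1]; norm_num
  · have h1 : (-(n : ℤ)) % ((7 : ℕ) : ℤ) = 5 := by omega
    rw [h1]; norm_num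
  · have h1 : (-(n : ℤ)) % ((7 : ℕ) : ℤ) = 3 := by omega
    rw [h1]; norm_num

theorem jac7_vals (A : ℕ) : (jacobiSym A 7 = 1 ↔ A % 7 = 1 ∨ A % 7 = 2 ∨ A % 7 = 4) ∧
    (jacobiSym A 7 = -1 ↔ A % 7 = 3 ∨ A % 7 = 5 ∨ A % 7 = 6) := by
  have h0 : jacobiSym (A : ℤ) 7 = jacobiSym ((A % 7 : ℕ) : ℤ) 7 := by
    rw [jacobiSym.mod_left]
    push_cast
    rfl
  rw [h0]
  have h : A % 7 < 7 := Nat.mod_lt _ (by norm_num)
  generalize A % 7 = r at *
  interval_cases r <;> norm_num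

theorem I7_mul {A m : ℕ} (hA : jacobiSym A 7 = -1) (hm : N877.P21.Sp7 m) : I7 (A * m) := by
  have h1 := (jac7_vals A).2.1 hA
  unfold I7
  rcases h1 with h1 | h1 | h1 <;> rcases hm with h2 | h2 | h2 <;> simp [Nat.mul_mod, h1, h2]

theorem I7_mul' {A m : ℕ} (hA : jacobiSym A 7 = 1) (hm : I7 m) : I7 (A * m) := by
  have h1 := (jac7_vals A).1.1 hA
  unfold I7
  rcases h1 with h1 | h1 | h1 <;> rcases hm with h2 | h2 | h2 <;> simp [Nat.mul_mod, h1, h2]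

theorem Sp7_mul {A m : ℕ} (hA : jacobiSym A 7 = 1) (hm : N877.P21.Sp7 m) :
    N877.P21.Sp7 (A * m) := by
  have h1 := (jac7_vals A).1.1 hA
  unfold N877.P21.Sp7
  rcases h1 with h1 | h1 | h1 <;> rcases hm with h2 | h2 | h2 <;> simp [Nat.mul_mod, h1, h2]

theorem I7_nd (h : I7 n) : ¬ 7 ∣ n := by
  rcases h with h | h | h <;> omega

/-! ### `3` split, `7` inert -/

theorem L37_val {S T : ℕ} {b : ℤ} (hF : FF n) (hS : S ≠ 0) (hT : T ≠ 0) (hS3 : ¬ 3 ∣ S)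
    (hT7 : ¬ 7 ∣ T) : L37 n b (4 * S * T) = if Odd (S.factorization 7) then
      (T.factorization 3 : ℤ) * (dt n b (4 * S * T) * Fs n S T) else 0 := by
  have hST0 := mul_ne_zero hS hT
  have e : L37 n b (4 * S * T) = if Odd ((4 * (S * T)).factorization 7) then
      ((4 * (S * T)).factorization 3 : ℤ) * (dt n b (4 * S * T) * R1 n (4 * (S * T))) else 0 := by
    rw [mul_assoc 4 S T]
    rfl
  rw [e, v54 hS hT hS3, v74 hS hT hT7, R1_four hF hST0, ← Fs_eq]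

theorem gen_I {A m : ℕ} (hA : A = 1 ∨ N969.RQ.Fd A) (hm : Fn m) (hcop : Nat.Coprime A m)
    (h3 : A * m % 3 = 2) (h7 : I7 (A * m)) {T : ℕ} (hT0 : 0 < T) (hTn : T < A * m)
    (hT3 : 3 ∣ T) (hS7 : 7 ∣ A * m - T) :
    WM A m (A * m - T) T = sgnE 1 A (A * m) T *
      L37 (A * m) (2 * T - (A * m : ℕ)) (4 * (A * m - T) * T) ∧
    WM m A (A * m - T) T = - (sgnE 1 A (A * m) T *
      L37 (A * m) (2 * T - (A * m : ℕ)) (4 * (A * m - T) * T)) := by
  obtain ⟨hF, _⟩ := Fn_mul hA hm hcop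
  have hFF := FF_of hF
  have hA0 : A ≠ 0 := by rintro rfl; exact hFF.n0 (by rw [zero_mul])
  have hm0 : m ≠ 0 := Fn_ne hm
  obtain ⟨n3, P3⟩ := Ps3_split hFF h3
  obtain ⟨n7, P7'⟩ := Ps7_inert hFF h7
  have hA3 : ¬ 3 ∣ A := fun h => by have := h.mul_right m; omega
  have hA7 : ¬ 7 ∣ A := fun h => I7_nd h7 (h.mul_right m)
  obtain ⟨S, hSdef⟩ : ∃ S, S = A * m - T := ⟨_, rfl⟩
  rw [← hSdef] at hS7 ⊢
  have hST : S + T = 1 * (A * m) := by omega
  have hS : S ≠ 0 := by omega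
  have hT : T ≠ 0 := by omega
  have hT7 : ¬ 7 ∣ T := by
    intro h
    have h6 : 7 ∣ 1 * (A * m) := hST ▸ dvd_add hS7 h
    rw [one_mul] at h6
    exact I7_nd h7 h6
  have hS3 : ¬ 3 ∣ S := by
    intro h
    have h6 : 3 ∣ 1 * (A * m) := hST ▸ dvd_add h hT3
    omega
  have m1 := main_m hA hm hcop (Or.inl rfl) hS hT hST (fun h => absurd h hA3)
    (fun h => absurd h hA7)
  have m3 := main_A hA hm hcop (Or.inl rfl) hS hT hST (fun h => absurd h hA3)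
    (fun h => absurd h hA7)
  have m2 := main_2 hF (Or.inl rfl) hS hT hST
  have d1 : dl (A * m) T = 1 := by
    unfold dl
    rw [if_neg n3, if_neg n7, P3, P7', one_pow, Nat.factorization_eq_zero_of_not_dvd hT7]
    norm_num
  have d2 : dl (A * m) S = (-1) ^ S.factorization 7 := by
    unfold dl
    rw [if_neg n3, if_neg n7, P3, P7', one_pow, one_mul]
  have d3 : hl (A * m) S T 3 = 1 := if_neg n3
  have d7 : hl (A * m) S T 7 = 1 := if_neg n7
  rw [d1] at m1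
  rw [d1, d2, d3, d7] at m2
  have e1 : WM A m S T = _ := Wd_DS (7 ∣ ·) (3 ∣ ·) hA0 hm0 hcop S T
  have e2 : WM m A S T = _ := Wd_DS (7 ∣ ·) (3 ∣ ·) hm0 hA0 hcop.symm S T
  rw [e1, e2, mul_comm m A, DS_val lev_M hFF (Or.inl rfl) hS hT hST
    (Lc_S01 n3 P3 hS3) (Lc_I10 n7 P7' hT7), DS_val lev_M hFF (Or.inl rfl) hS hT hST
    (Lc_S01 n3 P3 hS3) (Lc_I10 n7 P7' hT7), sdiff_m hA0 hm0 hcop, sdiff_A hA0 hm0 hcop,
    L37_val hFF hS hT hS3 hT7, ← M2_dt hF hS hT hST]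
  by_cases ho : Odd (S.factorization 7)
  · rw [if_pos ho, if_pos ho]
    rw [ho.neg_one_pow] at m2
    unfold Fs at *
    generalize ∏ l ∈ m.primeFactors, eT (A * m) T l = a at *
    generalize ∏ l ∈ A.primeFactors, eT (A * m) T l = a' at *
    generalize ∏ l ∈ Q' (A * m) S T, Ff (A * m) S T l = F at *
    have m4 : L2 (A * m) S T * F = M2 (A * m) S T * F := by linarith
    constructor
    · linear_combination (-(T.factorization 3 : ℤ)) * m1 +
        (T.factorization 3 : ℤ) * sgnE 1 A (A * m) T * m4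
    · linear_combination (-(T.factorization 3 : ℤ)) * m3 -
        (T.factorization 3 : ℤ) * sgnE 1 A (A * m) T * m4
  · rw [if_neg ho, if_neg ho]
    constructor <;> ring

theorem PrI_h {A m : ℕ} (h : PrI A m) : A * m % 3 = 2 ∧ I7 (A * m) := by
  obtain ⟨h1, h2, _⟩ := h
  obtain ⟨_, h4, h5⟩ := K0_Fn h2
  exact ⟨by simp [Nat.mul_mod, h1.2.1, h5], I7_mul h1.2.2 h4⟩

theorem t_C2I : S_C2I := by
  intro A m h T hT0 hTn hT3 hS7
  obtain ⟨h3, h7⟩ := PrI_h h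
  exact (gen_I (Or.inr h.1.1) (K0_Fn h.2.1).1 h.2.2 h3 h7 hT0 hTn hT3 hS7).1

theorem t_C2DI : S_C2DI := by
  intro A m h T hT0 hTn hT3 hS7
  obtain ⟨h3, h7⟩ := PrI_h h
  exact (gen_I (Or.inr h.1.1) (K0_Fn h.2.1).1 h.2.2 h3 h7 hT0 hTn hT3 hS7).2

theorem t_C2N : S_C2N := by
  intro A m h T hT0 hTn hT3 hS7
  obtain ⟨h1, ⟨hm, hm3, hm7⟩, hc⟩ := h
  rcases h1 with rfl | h1
  · exact (gen_I (Or.inl rfl) hm hc (by rw [one_mul]; exact hm3) (by rw [one_mul]; exact hm7)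
      hT0 hTn hT3 hS7).1
  · exact (gen_I (Or.inr h1.1) hm hc (by simp [Nat.mul_mod, h1.2.1, hm3]) (I7_mul' h1.2.2 hm7)
      hT0 hTn hT3 hS7).1

theorem t_C2N2 : S_C2N2 := by
  intro m h T hT0 hTn hT3 hS7
  obtain ⟨hF, hm3, hm7⟩ := h
  have hFF := FF_of hF
  have hm0 : m ≠ 0 := hFF.n0
  obtain ⟨n3, P3⟩ := Ps3_split hFF hm3
  obtain ⟨n7, P7'⟩ := Ps7_inert hFF hm7
  obtain ⟨S, hSdef⟩ : ∃ S, S = 2 * m - T := ⟨_, rfl⟩
  rw [← hSdef] at hS7 ⊢
  have hST : S + T = 2 * m := by omega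
  have hS : S ≠ 0 := by omega
  have hT : T ≠ 0 := by omega
  have hST0 := mul_ne_zero hS hT
  have hT7 : ¬ 7 ∣ T := by
    intro h
    have h6 : 7 ∣ 2 * m := hST ▸ dvd_add hS7 h
    exact I7_nd hm7 (dvd_cn (Or.inr rfl) p7 (by norm_num) h6)
  have hS3 : ¬ 3 ∣ S := by
    intro h
    have h6 : 3 ∣ 2 * m := hST ▸ dvd_add h hT3
    have := dvd_cn (Or.inr rfl) p3 (by norm_num) h6
    omega
  have m1 := main_T hF (Or.inr rfl) hS hT hST
  have m2 := main_2 hF (Or.inr rfl) hS hT hST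
  have d1 : dl m T = 1 := by
    unfold dl
    rw [if_neg n3, if_neg n7, P3, P7', one_pow, Nat.factorization_eq_zero_of_not_dvd hT7]
    norm_num
  have d2 : dl m S = (-1) ^ S.factorization 7 := by
    unfold dl
    rw [if_neg n3, if_neg n7, P3, P7', one_pow, one_mul]
  have d3 : hl m S T 3 = 1 := if_neg n3
  have d7 : hl m S T 7 = 1 := if_neg n7
  rw [d1] at m1
  rw [d1, d2, d3, d7] at m2
  have e1 : WM 1 m S T = _ := Wd_DS (7 ∣ ·) (3 ∣ ·) one_ne_zero hm0 (Nat.coprime_one_left m) S T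
  rw [e1, one_mul, Nat.primeFactors_one, DS_val lev_M hFF (Or.inr rfl) hS hT hST
    (Lc_S01 n3 P3 hS3) (Lc_I10 n7 P7' hT7), Finset.sdiff_empty, L37_val hFF hS hT hS3 hT7]
  have q3 : L37 m 0 (S * T) = if Odd (S.factorization 7) then
      (T.factorization 3 : ℤ) * (dt m 0 (S * T) * Fs m S T) else 0 := by
    have e : L37 m 0 (S * T) = if Odd ((S * T).factorization 7) then
        ((S * T).factorization 3 : ℤ) * (dt m 0 (S * T) * R1 m (S * T)) else 0 := rfl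
    rw [e, v5 hS hT hS3, v7 hS hT hT7, ← Fs_eq]
  rw [q3]
  by_cases ho : Odd (S.factorization 7)
  · rw [if_pos ho, if_pos ho, if_pos ho]
    rw [ho.neg_one_pow] at m2
    have hM : M2 m S T = dt m (2 * T - (2 * m : ℕ)) (4 * S * T) +
        if 2 ∣ T ∧ ¬ 2 ∣ m then ep2 m * dt m 0 (S * T) else 0 := by
      unfold dt
      by_cases h2 : 2 ∣ m
      · rw [if_pos h2, if_neg (fun h : 2 ∣ T ∧ ¬ 2 ∣ m => h.2 h2), M2_tb (Fn_two hF h2) hST,
          add_zero]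
      · rw [if_neg h2, if_neg h2, tw_B (Fn_odd hF h2) hS hT hST, mul_assoc 4 S T]
        by_cases h5 : 2 ∣ T
        · rw [if_pos h5, if_pos (⟨h5, h2⟩ : 2 ∣ T ∧ ¬ 2 ∣ m)]
        · rw [if_neg h5, if_neg (fun h : 2 ∣ T ∧ ¬ 2 ∣ m => h5 h.1)]
    have hM' : (T.factorization 3 : ℤ) * (dt m (2 * T - (2 * m : ℕ)) (4 * S * T) * Fs m S T) +
        (if 2 ∣ T ∧ ¬ 2 ∣ m then
          ep2 m * ((T.factorization 3 : ℤ) * (dt m 0 (S * T) * Fs m S T)) else 0) =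
        (T.factorization 3 : ℤ) * (M2 m S T * Fs m S T) := by
      rw [hM]
      split_ifs <;> ring
    rw [hM']
    unfold Fs at *
    generalize ∏ l ∈ m.primeFactors, eT m T l = a at *
    generalize ∏ l ∈ Q' m S T, Ff m S T l = F at *
    have m4 : L2 m S T * F = M2 m S T * F := by linarith
    linear_combination (-(T.factorization 3 : ℤ)) * m1 + (T.factorization 3 : ℤ) * m4
  · rw [if_neg ho, if_neg ho, if_neg ho]
    split_ifs <;> ring

/-! ### `3 ∣ n`, `7` inert -/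

theorem L7_val {S T : ℕ} (h : Fn n) (hS : S ≠ 0) (hT : T ≠ 0) (hST : S + T = 1 * n)
    (h3 : 3 ∣ n) (h7 : I7 n) (hT3 : ¬ 3 ∣ T) (hT7 : 7 ∣ T) :
    L7 n (2 * T - (n : ℕ)) (4 * S * T) = if Odd (T.factorization 7) then
      M2 n S T * Fs n S T else 0 := by
  have hF := FF_of h
  have hD : 4 * S * T ≠ 0 := mul_ne_zero (mul_ne_zero (by norm_num) hS) hT
  have hS3 : ¬ 3 ∣ S := by
    intro h1
    have h2 : 3 ∣ S + T := by rw [hST, one_mul]; exact h3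
    exact hT3 ((Nat.dvd_add_right h1).1 h2)
  have hS7 : ¬ 7 ∣ S := by
    intro h1
    have h2 : 7 ∣ 1 * n := hST ▸ dvd_add h1 hT7
    rw [one_mul] at h2
    exact I7_nd h7 h2
  have hD3 : ¬ 3 ∣ 4 * S * T := by
    rw [p3.dvd_mul, p3.dvd_mul]
    rintro ((h1 | h1) | h1)
    · omega
    · exact hS3 h1
    · exact hT3 h1
  have e : (4 * S * T).factorization 7 = T.factorization 7 := by
    rw [mul_assoc, fac4 (mul_ne_zero hS hT) p7 (by norm_num), fac_ST hS hT,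
      Nat.factorization_eq_zero_of_not_dvd hS7, zero_add]
  unfold L7
  rw [e, prod7 hD, if_neg hD3, one_mul, ← M2_dt h hS hT hST, Fs_eq, mul_assoc 4 S T,
    R1_four hF (mul_ne_zero hS hT)]

/-- the common part of `C23` and `C2D3` -/
theorem gen_3 {A m : ℕ} (hA : A = 1 ∨ N969.RQ.Fd A) (hm : Fn m) (hcop : Nat.Coprime A m)
    (h3 : 3 ∣ A * m) (h7 : I7 (A * m)) {T : ℕ} (hT0 : 0 < T) (hTn : T < A * m) :
    (3 ∣ m → WB A m (A * m - T) T = if 7 ∣ T ∧ ¬ 3 ∣ T then - (sgnE 1 A (A * m) T *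
      L7 (A * m) (2 * T - (A * m : ℕ)) (4 * (A * m - T) * T)) else 0) ∧
    (3 ∣ A → WB m A (A * m - T) T = if 7 ∣ T ∧ ¬ 3 ∣ T then - (sgnE 1 A (A * m) T *
      L7 (A * m) (2 * T - (A * m : ℕ)) (4 * (A * m - T) * T)) else 0) := by
  obtain ⟨hF, _⟩ := Fn_mul hA hm hcop
  have hFF := FF_of hF
  have hA0 : A ≠ 0 := by rintro rfl; exact hFF.n0 (by rw [zero_mul])
  have hm0 : m ≠ 0 := Fn_ne hm
  have h3n : 3 ∈ (A * m).primeFactors := (hFF.mem p3).2 h3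
  obtain ⟨n7, P7'⟩ := Ps7_inert hFF h7
  have hA7 : ¬ 7 ∣ A := fun h => I7_nd h7 (h.mul_right m)
  obtain ⟨S, hSdef⟩ : ∃ S, S = A * m - T := ⟨_, rfl⟩
  rw [← hSdef]
  have hST : S + T = 1 * (A * m) := by omega
  have hS : S ≠ 0 := by omega
  have hT : T ≠ 0 := by omega
  have h77 : ¬ 7 ∣ S ∨ ¬ 7 ∣ T := by
    by_contra h
    push Not at h
    have h6 : 7 ∣ 1 * (A * m) := hST ▸ dvd_add h.1 h.2
    rw [one_mul] at h6
    exact I7_nd h7 h6
  have e1 : WB A m S T = _ := Wd_DS (¬ 3 ∣ ·) (fun a => 7 ∣ a ∧ ¬ 3 ∣ a) hA0 hm0 hcop S T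
  have e2 : WB m A S T = _ := Wd_DS (¬ 3 ∣ ·) (fun a => 7 ∣ a ∧ ¬ 3 ∣ a) hm0 hA0 hcop.symm S T
  rw [e1, e2, mul_comm m A]
  -- the evaluation for `7 ∣ T`, `3 ∤ T`
  have key : 7 ∣ T → ¬ 3 ∣ T → Odd (T.factorization 7) →
      (∏ l ∈ m.primeFactors, eT (A * m) T l) * (L2 (A * m) S T * Fs (A * m) S T) =
        sgnE 1 A (A * m) T * (M2 (A * m) S T * Fs (A * m) S T) ∧
      (∏ l ∈ A.primeFactors, eT (A * m) T l) * (L2 (A * m) S T * Fs (A * m) S T) =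
        sgnE 1 A (A * m) T * (M2 (A * m) S T * Fs (A * m) S T) := by
    intro hT7 hT3 ho
    have hS7 : ¬ 7 ∣ S := by tauto
    have m1 := main_m hA hm hcop (Or.inl rfl) hS hT hST (fun _ => hT3) (fun h => absurd h hA7)
    have m3 := main_A hA hm hcop (Or.inl rfl) hS hT hST (fun _ => hT3) (fun h => absurd h hA7)
    have m2 := main_2 hF (Or.inl rfl) hS hT hST
    have d1 : dl (A * m) T = -1 := by
      unfold dl
      rw [if_pos h3n, if_neg n7, P7', one_mul, ho.neg_one_pow]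
    have d2 : dl (A * m) S = 1 := by
      unfold dl
      rw [if_pos h3n, if_neg n7, P7', one_mul, Nat.factorization_eq_zero_of_not_dvd hS7, pow_zero]
    have d3 : hl (A * m) S T 3 = 1 := hl_nd hT hST (by norm_num) hT3
    have d7 : hl (A * m) S T 7 = 1 := if_neg n7
    rw [d1] at m1
    rw [d1, d2, d3, d7] at m2
    have m4 : L2 (A * m) S T * Fs (A * m) S T = M2 (A * m) S T * Fs (A * m) S T := by linarith
    rw [m1, m3, m4]
    constructor <;> ring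
  constructor
  · intro hm3
    have hA3 : 3 ∉ A.primeFactors := fun h =>
      Finset.disjoint_left.1 hcop.disjoint_primeFactors h (Nat.mem_primeFactors.2 ⟨p3, hm3, hm0⟩)
    rw [DS_val lev_B hFF (Or.inl rfl) hS hT hST (Lc_R00 hS hT hST h3n hA3)
      (Lc_I01 n7 P7' h77), sdiff_m hA0 hm0 hcop]
    by_cases hT3 : 3 ∣ T
    · rw [if_neg (fun h : 7 ∣ T ∧ ¬ 3 ∣ T => h.2 hT3), if_pos hT3]
      ring
    by_cases hT7 : 7 ∣ T
    · rw [if_pos (⟨hT7, hT3⟩ : 7 ∣ T ∧ ¬ 3 ∣ T), if_neg hT3, L7_val hF hS hT hST h3 h7 hT3 hT7]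
      by_cases ho : Odd (T.factorization 7)
      · rw [if_pos ho, if_pos ho, ← (key hT7 hT3 ho).1]
        unfold Fs
        ring
      · rw [if_neg ho, if_neg ho]
        ring
    · have ho : ¬ Odd (T.factorization 7) := by
        rw [Nat.factorization_eq_zero_of_not_dvd hT7]
        decide
      rw [if_neg (fun h : 7 ∣ T ∧ ¬ 3 ∣ T => hT7 h.1), if_neg ho]
      ring
  · intro hA3
    have hm3 : 3 ∉ m.primeFactors := fun h =>
      Finset.disjoint_left.1 hcop.disjoint_primeFactors (Nat.mem_primeFactors.2 ⟨p3, hA3, hA0⟩) h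
    rw [DS_val lev_B hFF (Or.inl rfl) hS hT hST (Lc_R00 hS hT hST h3n hm3)
      (Lc_I01 n7 P7' h77), sdiff_A hA0 hm0 hcop]
    by_cases hT3 : 3 ∣ T
    · rw [if_neg (fun h : 7 ∣ T ∧ ¬ 3 ∣ T => h.2 hT3), if_pos hT3]
      ring
    by_cases hT7 : 7 ∣ T
    · rw [if_pos (⟨hT7, hT3⟩ : 7 ∣ T ∧ ¬ 3 ∣ T), if_neg hT3, L7_val hF hS hT hST h3 h7 hT3 hT7]
      by_cases ho : Odd (T.factorization 7)
      · rw [if_pos ho, if_pos ho, ← (key hT7 hT3 ho).2]
        unfold Fs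
        ring
      · rw [if_neg ho, if_neg ho]
        ring
    · have ho : ¬ Odd (T.factorization 7) := by
        rw [Nat.factorization_eq_zero_of_not_dvd hT7]
        decide
      rw [if_neg (fun h : 7 ∣ T ∧ ¬ 3 ∣ T => hT7 h.1), if_neg ho]
      ring

theorem t_C23 : S_C23 := by
  intro A m hA hm hc T hT0 hTn
  obtain ⟨h1, h2, h3⟩ := K3_Fn hm
  exact (gen_3 (Or.inr hA.1) h1 hc (h3.mul_left A) (I7_mul hA.2.2 h2) hT0 hTn).1 h3

theorem t_C2D3 : S_C2D3 := by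
  intro A m hA hm hc T hT0 hTn
  obtain ⟨h1, h2, h3⟩ := K0_Fn hm
  exact (gen_3 (Or.inr hA.1) h1 hc (hA.2.1.mul_right m) (I7_mul hA.2.2 h2) hT0 hTn).2 hA.2.1

/-! ### the lattice ramified at `3` -/

theorem t_C2S : S_C2S := by
  intro A m hA hm hcop T hT0 hTn hT3 hS7
  obtain ⟨hmF, hm7, hm3⟩ := K0_Fn hm
  have hAF : A = 1 ∨ N969.RQ.Fd A := Or.inr hA.1
  obtain ⟨hF, _⟩ := Fn_mul hAF hmF hcop
  have hFF := FF_of hF
  have hA0 : A ≠ 0 := by rintro rfl; exact hFF.n0 (by rw [zero_mul])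
  have hm0 : m ≠ 0 := Fn_ne hmF
  have h3 : A * m % 3 = 1 := by simp [Nat.mul_mod, hA.2.1, hm3]
  have h7 := Sp7_mul hA.2.2 hm7
  obtain ⟨n3, P3⟩ := Ps3_of hFF h3
  obtain ⟨n7, P7'⟩ := Ps7_of hFF h7
  have hA3 : ¬ 3 ∣ A := fun h => by have := h.mul_right m; omega
  have hA7 : ¬ 7 ∣ A := fun h => n7 ((hFF.mem p7).2 (h.mul_right m))
  obtain ⟨S, hSdef⟩ : ∃ S, S = A * m - T := ⟨_, rfl⟩
  rw [← hSdef] at hS7 ⊢
  have hST : S + T = 1 * (A * m) := by omega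
  have hS : S ≠ 0 := by omega
  have hT : T ≠ 0 := by omega
  have hST0 := mul_ne_zero hS hT
  have hT7 : ¬ 7 ∣ T := by
    intro h
    have h6 : 7 ∣ 1 * (A * m) := hST ▸ dvd_add hS7 h
    rw [one_mul] at h6
    exact n7 ((hFF.mem p7).2 h6)
  have hS3 : ¬ 3 ∣ S := by
    intro h
    have h6 : 3 ∣ 1 * (A * m) := hST ▸ dvd_add h hT3
    omega
  have m1 := main_m hAF hmF hcop (Or.inl rfl) hS hT hST (fun h => absurd h hA3)
    (fun h => absurd h hA7)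
  have m3 := main_A hAF hmF hcop (Or.inl rfl) hS hT hST (fun h => absurd h hA3)
    (fun h => absurd h hA7)
  have m2 := main_2 hF (Or.inl rfl) hS hT hST
  have d1 : dl (A * m) T = (-1) ^ T.factorization 3 := by
    unfold dl
    rw [if_neg n3, if_neg n7, P3, P7', one_pow, mul_one]
  have d2 : dl (A * m) S = 1 := by
    unfold dl
    rw [if_neg n3, if_neg n7, P3, P7', one_pow, Nat.factorization_eq_zero_of_not_dvd hS3]
    norm_num
  have d3 : hl (A * m) S T 3 = 1 := if_neg n3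
  have d7 : hl (A * m) S T 7 = 1 := if_neg n7
  rw [d1] at m1
  rw [d1, d2, d3, d7] at m2
  have e1 : WM A m S T = _ := Wd_DS (7 ∣ ·) (3 ∣ ·) hA0 hm0 hcop S T
  have e2 : WM m A S T = _ := Wd_DS (7 ∣ ·) (3 ∣ ·) hm0 hA0 hcop.symm S T
  -- the density
  have r1 : (4 * (S * T)).factorization 3 = T.factorization 3 := v54 hS hT hS3
  have r3 : (4 * (S * T)).factorization 7 = S.factorization 7 := v74 hS hT hT7
  have r5 : R1 (A * m) (4 * (S * T)) = Fs (A * m) S T := by rw [R1_four hFF hST0, Fs_eq]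
  have q1 : ∀ b : ℤ, N877.P21.loc7E (A * m) b (4 * S * T) =
      if Odd ((4 * (S * T)).factorization 3) then
        ((4 * (S * T)).factorization 7 : ℤ) * (tb b * R1 (A * m) (4 * (S * T))) else 0 := by
    intro b
    rw [mul_assoc 4 S T]
    rfl
  have q2 : N877.P21.loc7 (A * m) (4 * S * T) = ((4 * (S * T)).factorization 7 : ℤ) *
      if Odd ((4 * (S * T)).factorization 3) then
        tw (A * m) (4 * (S * T)) * R1 (A * m) (4 * (S * T)) else 0 := by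
    rw [mul_assoc 4 S T]
    rfl
  have hfin : (if 2 ∣ A * m then N877.P21.loc7E (A * m) (2 * T - (A * m : ℕ)) (4 * S * T)
      else N877.P21.loc7 (A * m) (4 * S * T)) =
      (S.factorization 7 : ℤ) * if Odd (T.factorization 3) then
        M2 (A * m) S T * Fs (A * m) S T else 0 := by
    by_cases h2 : 2 ∣ A * m
    · have := M2_tb (k := 1) (Fn_two hF h2) hST
      rw [one_mul] at this
      rw [if_pos h2, q1, r1, r3, r5, this]
      split_ifs <;> ring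
    · rw [if_neg h2, q2, r1, r3, r5, tw_A (Fn_odd hF h2) hS hT hST]
  rw [hfin, e1, e2, mul_comm m A, DS_val lev_M hFF (Or.inl rfl) hS hT hST
    (Lc_I01 n3 P3 (Or.inl hS3)) (Lc_S10 n7 P7' hT7), DS_val lev_M hFF (Or.inl rfl) hS hT hST
    (Lc_I01 n3 P3 (Or.inl hS3)) (Lc_S10 n7 P7' hT7), sdiff_m hA0 hm0 hcop,
    sdiff_A hA0 hm0 hcop]
  by_cases hodd : Odd (T.factorization 3)
  · rw [if_pos hodd, if_pos hodd]
    rw [hodd.neg_one_pow] at m1 m2
    unfold Fs at *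
    generalize ∏ l ∈ m.primeFactors, eT (A * m) T l = a at *
    generalize ∏ l ∈ A.primeFactors, eT (A * m) T l = a' at *
    generalize ∏ l ∈ Q' (A * m) S T, Ff (A * m) S T l = F at *
    have m4 : L2 (A * m) S T * F = M2 (A * m) S T * F := by linarith
    constructor
    · linear_combination (-(S.factorization 7 : ℤ)) * m1 + (S.factorization 7 : ℤ) * m3
    · linear_combination (-(S.factorization 7 : ℤ)) * m1 -
        (S.factorization 7 : ℤ) * sgnE 1 A (A * m) T * m4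
  · rw [if_neg hodd, if_neg hodd]
    constructor <;> ring

end Pool.Agent.N871.G21
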