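import Pool.Agent.N833.P21.CB
import Pool.Agent.N871.P17G.C2GE
import Pool.Agent.N877.P21G.Defs

/-!
# P21G, divisor sums (after helper295, helper833): left and right kernel symbols, any level
conditions at `3` and `7`; the sum as a product of local sums
-/

set_option autoImplicit false

namespace Pool.Agent.N871.G21

open Finset
open Pool.Agent.Z700 (hh fac)
open Pool.Agent.Y574.Z7 (chp chp_mul chp_one chp_self chp_nd chp_sq chp_pm jac_eq sum_local two_pt
  one_sum alt_sum dvd_fac nd4 fac_D mem_D chp_D jac_prod chp_prod)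
open Pool.Agent.N969.P15 (Ev tw tb ep2 psp psp2 c2)
open Pool.Agent.N969.P17G (psl psl2 sgp sg2 sgnE t2)
open Pool.Agent.N295.P15 (dvd_iff' Ff mem_ST alt_zero dvd_cn fac4 chp4 fac_ST pf_four tw_eq fac42)
open Pool.Agent.N295.P15.E (cq kq Ps wq pq Ps_one Ps_fac Ps_pm cq_sq kq_sq cq_two cq_odd cq_mul eT eS
  eT_sq eS_sq pow_sq pq_eq oc_nd pf_prime pf_dvd podd)
open Pool.Agent.N833.P21 (p7 QQ mem_QQ2 mem_QQ7 mem_QQ3 sub_QQ pf_QQ QQ_prime Q' mem_Q' prod_Ff
  split_QQ Ps_odd L2 pow_alt M2 tw_A tw_B M2_even e2_eq)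
open Pool.Agent.N871.G17 (kap wL wR wL_eq kap_zero kap_mul kap_sq kap_kq kap_neg)

variable {n : ℕ}

/-! ### the hypotheses on `n` -/

/-- `-n` is a fundamental discriminant -/
structure FF (n : ℕ) : Prop where
  n0 : n ≠ 0
  fac1 : ∀ q ∈ n.primeFactors.erase 2, n.factorization q = 1
  Ps_l : ∀ l : ℕ, l.Prime → l ≠ 2 → l ∉ n.primeFactors → Ps n l = jacobiSym (-(n : ℤ)) l
  Ps_p : ∀ l ∈ n.primeFactors.erase 2, Ps n l = chp l n
  kprod : ∏ q ∈ n.primeFactors, kq n q = -1

theorem FF_odd (h : Pool.Agent.N295.P15.Fd n) : FF n where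
  n0 := h.n0
  fac1 := fun q hq => h.fac1 (Finset.mem_of_mem_erase hq)
  Ps_l := fun l hl h2 hn => by rw [Ps_odd h]; exact h.Ps_l hl h2 hn
  Ps_p := fun l hl => by rw [Ps_odd h]; exact h.Ps_p (Finset.mem_of_mem_erase hl)
  kprod := by
    have e : ∏ q ∈ n.primeFactors, kq n q = ∏ q ∈ n.primeFactors, ZMod.χ₄ (q : ZMod 4) :=
      Finset.prod_congr rfl fun q hq => if_neg (h.ne2 hq)
    rw [e, ← map_prod, ← Nat.cast_prod, h.prod]
    exact ZMod.χ₄_nat_three_mod_four h.m4

theorem FF_ev (h : Pool.Agent.N295.P15.E.Fd n) : FF n where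
  n0 := h.n0
  fac1 := fun _ hq => h.fac1 hq
  Ps_l := fun _ hl _ hn => h.Ps_l hl hn
  Ps_p := fun _ hl => h.Ps_p hl
  kprod := h.kprod

theorem FF_of (h : N877.P21G.Fn n) : FF n := by
  rcases h with h | h
  · exact FF_odd ⟨h.1, h.2⟩
  · exact FF_ev ⟨h⟩

theorem FF.mem (h : FF n) {q : ℕ} (hq : q.Prime) : q ∈ n.primeFactors ↔ q ∣ n :=
  ⟨pf_dvd, fun hd => Nat.mem_primeFactors.2 ⟨hq, hd, h.n0⟩⟩

/-! ### the left kernel symbol -/

/-- the left kernel symbol -/
def lq (n p a a' Y X : ℕ) : ℤ := if p = 2 then psl2 n a a' Y X else psl p a a' Y X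

/-- the local weight of the left kernel symbol -/
def wa (n S T q i j : ℕ) : ℤ :=
  if q ∣ T then (if i = 0 ∧ j = 0 then 1
      else if i = S.factorization q ∧ j = T.factorization q then
        kq n q * cq n q S * cq n q T else 0)
  else 1

theorem kap_nat {q u : ℕ} (hq : q.Prime) : kap n q (u : ℤ) = if q ∣ u then 0 else cq n q u := by
  split_ifs with h
  · exact kap_zero hq (by exact_mod_cast h)
  · unfold kap cq
    split_ifs with h2
    · subst h2; exact (oc_nd h).symm
    · exact (chp_nd h).symm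

theorem kap_nneg {q u : ℕ} (hq : q.Prime) :
    kap n q (-(u : ℤ)) = kq n q * if q ∣ u then 0 else cq n q u := by
  rw [kap_neg, kap_kq hq, kap_nat hq]

theorem lq_eq {p S T a a' : ℕ} (hp : p.Prime) (hS : S ≠ 0) (hT : T ≠ 0)
    (hd : p ∣ S ↔ p ∣ T) (ha : a ∣ S) (ha' : a' ∣ T) :
    lq n p a a' (S / a) (T / a') =
      cq n p a * cq n p a' * wa n S T p (a.factorization p) (a'.factorization p) := by
  obtain ⟨Y, rfl⟩ := ha
  obtain ⟨X, rfl⟩ := ha'
  have a0 : a ≠ 0 := left_ne_zero_of_mul hS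
  have Y0 : Y ≠ 0 := right_ne_zero_of_mul hS
  have b0 : a' ≠ 0 := left_ne_zero_of_mul hT
  have X0 : X ≠ 0 := right_ne_zero_of_mul hT
  rw [Nat.mul_div_cancel_left _ (Nat.pos_of_ne_zero a0),
    Nat.mul_div_cancel_left _ (Nat.pos_of_ne_zero b0)]
  rw [dvd_fac hp hS, dvd_fac hp hT, Nat.factorization_mul a0 Y0, Nat.factorization_mul b0 X0,
    Finsupp.add_apply, Finsupp.add_apply] at hd
  have e0 : lq n p a a' Y X = wL n p a a' Y X := rfl
  rw [e0, wL_eq hp, kap_nneg hp, kap_nat hp]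
  unfold wa
  simp only [dvd_fac hp a0, dvd_fac hp b0, dvd_fac hp (mul_ne_zero X0 Y0),
    dvd_fac hp (mul_ne_zero a0 b0), dvd_fac hp hT, Nat.factorization_mul a0 Y0,
    Nat.factorization_mul b0 X0, Nat.factorization_mul X0 Y0, Nat.factorization_mul a0 b0,
    Finsupp.add_apply, cq_mul]
  have s1 := cq_sq (n := n) hp a0
  have s2 := cq_sq (n := n) hp b0
  generalize a.factorization p = i at *
  generalize Y.factorization p = y at *
  generalize a'.factorization p = j at *
  generalize X.factorization p = x at *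
  generalize cq n p a = α at *
  generalize cq n p a' = α' at *
  generalize cq n p Y = υ at *
  generalize cq n p X = ξ at *
  generalize kq n p = κ at *
  split_ifs
  all_goals first
    | (exfalso; omega)
    | (linear_combination (-(κ * υ * ξ * α' * α')) * s1 - (κ * υ * ξ) * s2)
    | ring1

/-! ### the divisor sum -/

/-- the divisor sum: left kernel symbols at the primes in `B` -/
def DS (f g : ℕ → Prop) [DecidablePred f] [DecidablePred g] (n : ℕ) (B : Finset ℕ) (S T : ℕ) : ℤ :=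
  ∑ a ∈ S.divisors.filter f, ∑ a' ∈ T.divisors.filter g,
    ∏ p ∈ n.primeFactors, if p ∈ B then lq n p a a' (S / a) (T / a')
      else pq n p a a' (S / a) (T / a')

/-- the local weight at a prime of `n` -/
def wb (n : ℕ) (B : Finset ℕ) (S T q i j : ℕ) : ℤ :=
  if q ∈ B then wa n S T q i j else wq n S T q i j

/-- the local weights; `u3`, `u7` are the level conditions -/
def Wu (u3 u7 : ℕ → ℕ → ℤ) (n : ℕ) (B : Finset ℕ) (S T l i j : ℕ) : ℤ :=
  Ps n l ^ (i + j) * (if l ∈ n.primeFactors then wb n B S T l i j else 1) *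
    (if l = 7 then u7 i j else 1) * (if l = 3 then u3 i j else 1)

/-- the level conditions are local -/
def Lev (f g : ℕ → Prop) [DecidablePred f] [DecidablePred g] (u3 u7 : ℕ → ℕ → ℤ) : Prop :=
  ∀ a a' : ℕ, a ≠ 0 → a' ≠ 0 → (if f a then (if g a' then (1 : ℤ) else 0) else 0) =
    u7 (a.factorization 7) (a'.factorization 7) * u3 (a.factorization 3) (a'.factorization 3)

theorem term_eq {f g : ℕ → Prop} [DecidablePred f] [DecidablePred g] {u3 u7 : ℕ → ℕ → ℤ}
    (hL : Lev f g u3 u7) (B : Finset ℕ) {c S T : ℕ} (hS : S ≠ 0) (hT : T ≠ 0)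
    (hST : S + T = c * n) {a a' : ℕ} (ha : a ∣ S) (ha' : a' ∣ T) :
    (if f a then (if g a' then (∏ p ∈ n.primeFactors, if p ∈ B then lq n p a a' (S / a) (T / a')
      else pq n p a a' (S / a) (T / a')) else 0) else 0) =
      ∏ l ∈ QQ n S T, Wu u3 u7 n B S T l (a.factorization l) (a'.factorization l) := by
  classical
  have a0 : a ≠ 0 := by rintro rfl; exact hS (zero_dvd_iff.1 ha)
  have b0 : a' ≠ 0 := by rintro rfl; exact hT (zero_dvd_iff.1 ha')
  have hsa : a.primeFactors ⊆ QQ n S T :=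
    (Nat.primeFactors_mono (ha.mul_right T) (mul_ne_zero hS hT)).trans pf_QQ
  have hsb : a'.primeFactors ⊆ QQ n S T :=
    (Nat.primeFactors_mono (ha'.mul_left S) (mul_ne_zero hS hT)).trans pf_QQ
  unfold Wu
  rw [Finset.prod_mul_distrib, Finset.prod_mul_distrib, Finset.prod_mul_distrib]
  have e1 : ∏ l ∈ QQ n S T, Ps n l ^ (a.factorization l + a'.factorization l) =
      Ps n a * Ps n a' := by
    rw [Ps_fac n (QQ n S T) a a0 hsa, Ps_fac n (QQ n S T) a' b0 hsb,
      ← Finset.prod_mul_distrib]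
    exact Finset.prod_congr rfl fun l _ => pow_add _ _ _
  have e2 : ∏ l ∈ QQ n S T, (if l ∈ n.primeFactors then
      wb n B S T l (a.factorization l) (a'.factorization l) else 1) =
      ∏ l ∈ n.primeFactors, wb n B S T l (a.factorization l) (a'.factorization l) := by
    rw [Finset.prod_ite_mem, Finset.inter_eq_right.2 sub_QQ]
  have e3 : ∏ l ∈ QQ n S T, (if l = 7 then u7 (a.factorization l) (a'.factorization l) else 1) =
      u7 (a.factorization 7) (a'.factorization 7) := by
    rw [Finset.prod_ite_eq' (QQ n S T) 7 (fun l => u7 (a.factorization l) (a'.factorization l)),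
      if_pos mem_QQ7]
  have e4 : ∏ l ∈ QQ n S T, (if l = 3 then u3 (a.factorization l) (a'.factorization l) else 1) =
      u3 (a.factorization 3) (a'.factorization 3) := by
    rw [Finset.prod_ite_eq' (QQ n S T) 3 (fun l => u3 (a.factorization l) (a'.factorization l)),
      if_pos mem_QQ3]
  rw [e1, e2, e3, e4]
  have e5 : (∏ p ∈ n.primeFactors, if p ∈ B then lq n p a a' (S / a) (T / a')
      else pq n p a a' (S / a) (T / a')) = Ps n a * Ps n a' *
        ∏ l ∈ n.primeFactors, wb n B S T l (a.factorization l) (a'.factorization l) := by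
    unfold Ps
    rw [← Finset.prod_mul_distrib, ← Finset.prod_mul_distrib]
    refine Finset.prod_congr rfl fun p hp => ?_
    unfold wb
    split_ifs
    · exact lq_eq (pf_prime hp) hS hT (dvd_iff' hST hp) ha ha'
    · exact pq_eq (pf_prime hp) hS hT (dvd_iff' hST hp) ha ha'
  have e6 := hL a a' a0 b0
  rw [e5]
  have e7 : ∀ x : ℤ, (if f a then (if g a' then x else 0) else 0) =
      x * (if f a then (if g a' then (1 : ℤ) else 0) else 0) := by
    intro x
    split_ifs <;> ring
  rw [e7, e6]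
  ring

/-- the sum of the local weights -/
def Lu (u3 u7 : ℕ → ℕ → ℤ) (n : ℕ) (B : Finset ℕ) (S T l : ℕ) : ℤ :=
  ∑ i ∈ range (S.factorization l + 1), ∑ j ∈ range (T.factorization l + 1), Wu u3 u7 n B S T l i j

theorem DS_eq {f g : ℕ → Prop} [DecidablePred f] [DecidablePred g] {u3 u7 : ℕ → ℕ → ℤ}
    (hL : Lev f g u3 u7) (B : Finset ℕ) {c S T : ℕ} (hS : S ≠ 0) (hT : T ≠ 0)
    (hST : S + T = c * n) : DS f g n B S T = ∏ l ∈ QQ n S T, Lu u3 u7 n B S T l := by
  unfold Lu
  rw [← sum_local (Wu u3 u7 n B S T) (QQ n S T) QQ_prime S T hS hT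
    (fun l hl hd => pf_QQ (Nat.mem_primeFactors.2 ⟨hl, hd.mul_right T, mul_ne_zero hS hT⟩))
    (fun l hl hd => pf_QQ (Nat.mem_primeFactors.2 ⟨hl, hd.mul_left S, mul_ne_zero hS hT⟩))]
  unfold DS
  rw [Finset.sum_filter]
  refine Finset.sum_congr rfl fun a ha => ?_
  rw [Finset.sum_filter]
  have ha1 := Nat.dvd_of_mem_divisors ha
  have h1 : ∀ a' ∈ T.divisors,
      ∏ l ∈ QQ n S T, Wu u3 u7 n B S T l (a.factorization l) (a'.factorization l) =
      (if f a then (if g a' then (∏ p ∈ n.primeFactors, if p ∈ B then lq n p a a' (S / a) (T / a')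
        else pq n p a a' (S / a) (T / a')) else 0) else 0) :=
    fun a' ha' => (term_eq hL B hS hT hST ha1 (Nat.dvd_of_mem_divisors ha')).symm
  rw [Finset.sum_congr rfl h1]
  by_cases h2 : f a
  · simp only [h2, if_true]
  · simp only [h2, if_false, Finset.sum_const_zero]

/-- the divisor sum of the project -/
theorem Wd_DS (f g : ℕ → Prop) [DecidablePred f] [DecidablePred g] {A m : ℕ}
    (hA : A ≠ 0) (hm : m ≠ 0) (hc : Nat.Coprime A m) (S T : ℕ) :
    N877.P21G.Wd f g A m S T = DS f g (A * m) A.primeFactors S T := by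
  unfold N877.P21G.Wd DS
  refine Finset.sum_congr rfl fun a _ => Finset.sum_congr rfl fun a' _ => ?_
  rw [Nat.primeFactors_mul hA hm, Finset.prod_union hc.disjoint_primeFactors]
  congr 1
  · refine Finset.prod_congr rfl fun q hq => ?_
    rw [if_pos hq]
    rfl
  · refine Finset.prod_congr rfl fun q hq => ?_
    rw [if_neg (Finset.disjoint_right.1 hc.disjoint_primeFactors hq)]
    rfl

end Pool.Agent.N871.G21
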