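import Pool.Agent.N871.P21G.GenA

/-!
# P21G, divisor sums: the local sums, the product formulas, the signs
-/

set_option autoImplicit false

namespace Pool.Agent.N871.G21

open Finset
open Pool.Agent.Z700 (hh fac)
open Pool.Agent.Y574.Z7 (chp chp_mul chp_one chp_self chp_nd chp_sq chp_pm jac_eq sum_local two_pt
  one_sum alt_sum dvd_fac nd4 fac_D mem_D chp_D jac_prod chp_prod)
open Pool.Agent.N969.P15 (Ev tw tb ep2 psp psp2 c2)
open Pool.Agent.N969.P17G (psl psl2 sgp sg2 sgnE t2)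
open Pool.Agent.N295.P15 (dvd_iff' Ff mem_ST alt_zero dvd_cn fac4 chp4 fac_ST pf_four tw_eq fac42)
open Pool.Agent.N295.P15.E (cq kq Ps wq pq Ps_one Ps_fac Ps_pm cq_sq kq_sq cq_two cq_odd cq_mul eT eS
  eT_sq eS_sq pow_sq pq_eq oc_nd pf_prime pf_dvd podd jac_four)
open Pool.Agent.N833.P21 (p7 QQ mem_QQ2 mem_QQ7 mem_QQ3 sub_QQ pf_QQ QQ_prime Q' mem_Q' prod_Ff
  split_QQ Ps_odd L2 pow_alt M2 tw_A tw_B M2_even e2_eq)
open Pool.Agent.N871.G17 (kap wL wR wL_eq kap_zero kap_mul kap_sq kap_kq kap_neg)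

variable {n : ℕ}

/-! ### the local factors -/

theorem hh_eq (h : FF n) {D l : ℕ} (hl : l ∈ n.primeFactors.erase 2) :
    hh n D l = ZMod.χ₄ l * (chp l n) ^ D.factorization l * chp l D := by
  have hp := pf_prime (Finset.mem_of_mem_erase hl)
  have hodd := podd hl
  have hsq : chp l n * chp l n = 1 := chp_sq hp h.n0
  have e1 : jacobiSym ((n / l : ℕ) : ℤ) l = chp l n := by
    unfold chp
    rw [h.fac1 l hl, pow_one]
  unfold hh
  rw [jacobiSym.neg _ hodd, jacobiSym.neg _ hodd, Nat.cast_mul, jacobiSym.mul_left, e1]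
  have e2 : jacobiSym ((D / l ^ D.factorization l : ℕ) : ℤ) l = chp l D := rfl
  rw [e2]
  split_ifs with h
  · obtain ⟨k, hk⟩ := h
    rw [hk, ← two_mul, pow_mul, sq, hsq, one_pow]
    ring
  · rw [Nat.not_even_iff_odd] at h
    obtain ⟨k, hk⟩ := h
    rw [hk, pow_succ, pow_mul, sq, hsq, one_pow]
    ring

theorem mem_er (h : FF n) {l : ℕ} (hl : l.Prime) (h2 : l ≠ 2) (hd : l ∣ n) :
    l ∈ n.primeFactors.erase 2 := Finset.mem_erase.2 ⟨h2, (h.mem hl).2 hd⟩

theorem hh_four (h : FF n) {D l : ℕ} (hD : D ≠ 0) (hl : l ∈ n.primeFactors.erase 2) :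
    hh n (4 * D) l = hh n D l := by
  have hp := pf_prime (Finset.mem_of_mem_erase hl)
  rw [hh_eq h hl, hh_eq h hl, fac4 hD hp (Finset.ne_of_mem_erase hl), chp4 hp]

theorem fac_four (h : FF n) {D l : ℕ} (hD : D ≠ 0) (hl : l.Prime) (h2 : l ≠ 2) :
    fac n (4 * D) l = fac n D l := by
  unfold fac
  split_ifs with h1
  · rw [hh_four h hD (mem_er h hl h2 h1)]
  · rw [fac4 hD hl h2]

/-- the symbol is the product of the two signs -/
theorem hh_ST (h : FF n) {S T l : ℕ} (hS : S ≠ 0) (hT : T ≠ 0) (hl : l ∈ n.primeFactors.erase 2) :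
    hh n (S * T) l = eS n S l * eT n T l := by
  have h2 := Finset.ne_of_mem_erase hl
  unfold eS eT kq
  rw [hh_eq h hl, ← h.Ps_p l hl, fac_ST hS hT, chp_mul, if_neg h2, cq_odd h2, cq_odd h2, pow_add]
  ring

theorem facg_eq (h : FF n) {S T l : ℕ} (hS : S ≠ 0) (hT : T ≠ 0)
    (hp : l.Prime) (h2 : l ≠ 2) (hl : l ∉ n.primeFactors) : fac n (S * T) l =
      ∑ j ∈ range (S.factorization l + T.factorization l + 1), Ps n l ^ j := by
  unfold fac
  rw [if_neg (fun h1 => hl ((h.mem hp).2 h1)), fac_ST hS hT, h.Ps_l l hp h2 hl]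

theorem one_zero (h : FF n) {c S T : ℕ} (hc : c = 1 ∨ c = 2) (hS : S ≠ 0) (hT : T ≠ 0)
    (hST : S + T = c * n) {l : ℕ} (hp : l.Prime) (h2 : l ≠ 2) (hl : l ∉ n.primeFactors) :
    S.factorization l = 0 ∨ T.factorization l = 0 := by
  by_contra h0
  push Not at h0
  have h1 := (dvd_fac hp hS).2 (by omega)
  have h3 := (dvd_fac hp hT).2 (by omega)
  exact hl ((h.mem hp).2 (dvd_cn hc hp h2 (hST ▸ dvd_add h1 h3)))

/-! ### the local sums -/

variable {u3 u7 : ℕ → ℕ → ℤ} {B : Finset ℕ}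

/-- the sign at a prime of the right kernel -/
def sT (n : ℕ) (B : Finset ℕ) (T l : ℕ) : ℤ :=
  if l ∈ n.primeFactors ∧ l ∉ B then eT n T l else 1

/-- a local sum with a level condition -/
def Lc (u : ℕ → ℕ → ℤ) (n : ℕ) (B : Finset ℕ) (S T l : ℕ) : ℤ :=
  ∑ i ∈ range (S.factorization l + 1), ∑ j ∈ range (T.factorization l + 1),
    Ps n l ^ (i + j) * (if l ∈ n.primeFactors then wb n B S T l i j else 1) * u i j

theorem Lu_gen {S T l : ℕ} (h3 : l ≠ 7) (h5 : l ≠ 3) :
    Lu u3 u7 n B S T l = Lc (fun _ _ => 1) n B S T l := by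
  unfold Lu Lc Wu
  simp only [if_neg h3, if_neg h5, mul_one]

theorem Lu_seven {S T : ℕ} : Lu u3 u7 n B S T 7 = Lc u7 n B S T 7 := by
  unfold Lu Lc Wu
  simp only [if_true, show ¬ ((7 : ℕ) = 3) by norm_num, if_false, mul_one]

theorem Lu_three {S T : ℕ} : Lu u3 u7 n B S T 3 = Lc u3 n B S T 3 := by
  unfold Lu Lc Wu
  simp only [if_true, show ¬ ((3 : ℕ) = 7) by norm_num, if_false, mul_one]

/-- the sum of the right kernel weights at a prime of `n`, `p ∣ T` -/
theorem Lc_R {c S T : ℕ} (hS : S ≠ 0) (hT : T ≠ 0) (hST : S + T = c * n) {p : ℕ}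
    (hp : p ∈ n.primeFactors) (hB : p ∉ B) (h1 : p ∣ T) (u : ℕ → ℕ → ℤ) :
    Lc u n B S T p = u (S.factorization p) 0 * eS n S p + u 0 (T.factorization p) * eT n T p := by
  have hd := dvd_iff' hST hp
  have hpp := pf_prime hp
  have s1 := (dvd_fac hpp hS).1 (hd.2 h1)
  have t1 := (dvd_fac hpp hT).1 h1
  unfold Lc wb wq
  simp only [if_pos hp, if_neg hB, if_pos h1]
  have e := two_pt (S.factorization p) (T.factorization p) (S.factorization p) 0 0
    (T.factorization p) le_rfl (Nat.zero_le _) (Nat.zero_le _) le_rfl (Or.inl (by omega))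
    (u (S.factorization p) 0 * cq n p S) (u 0 (T.factorization p) * (kq n p * cq n p T))
    (fun i j => Ps n p ^ (i + j))
  have e2 : ∀ i ∈ range (S.factorization p + 1), ∀ j ∈ range (T.factorization p + 1),
      Ps n p ^ (i + j) * (if i = S.factorization p ∧ j = 0 then cq n p S
        else if i = 0 ∧ j = T.factorization p then kq n p * cq n p T else 0) * u i j =
      Ps n p ^ (i + j) * (if i = S.factorization p ∧ j = 0 then
        u (S.factorization p) 0 * cq n p S
        else if i = 0 ∧ j = T.factorization p then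
          u 0 (T.factorization p) * (kq n p * cq n p T) else 0) := by
    intro i _ j _
    by_cases a1 : i = S.factorization p ∧ j = 0
    · rw [if_pos a1, if_pos a1, a1.1, a1.2]
      ring
    · rw [if_neg a1, if_neg a1]
      by_cases a2 : i = 0 ∧ j = T.factorization p
      · rw [if_pos a2, if_pos a2, a2.1, a2.2]
        ring
      · rw [if_neg a2, if_neg a2]
        ring
  rw [Finset.sum_congr rfl fun i hi => Finset.sum_congr rfl fun j hj => e2 i hi j hj, e]
  unfold eS eT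
  simp only [add_zero, zero_add]
  ring

/-- the sum of the left kernel weights at a prime of `n`, `p ∣ T` -/
theorem Lc_L {c S T : ℕ} (hS : S ≠ 0) (hT : T ≠ 0) (hST : S + T = c * n) {p : ℕ}
    (hp : p ∈ n.primeFactors) (hB : p ∈ B) (h1 : p ∣ T) (u : ℕ → ℕ → ℤ) :
    Lc u n B S T p = u 0 0 + u (S.factorization p) (T.factorization p) *
      (eS n S p * eT n T p) := by
  have hd := dvd_iff' hST hp
  have hpp := pf_prime hp
  have s1 := (dvd_fac hpp hS).1 (hd.2 h1)
  have t1 := (dvd_fac hpp hT).1 h1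
  unfold Lc wb wa
  simp only [if_pos hp, if_pos hB, if_pos h1]
  have e := two_pt (S.factorization p) (T.factorization p) 0 0 (S.factorization p)
    (T.factorization p) (Nat.zero_le _) (Nat.zero_le _) le_rfl le_rfl (Or.inl (by omega))
    (u 0 0) (u (S.factorization p) (T.factorization p) * (kq n p * cq n p S * cq n p T))
    (fun i j => Ps n p ^ (i + j))
  have e2 : ∀ i ∈ range (S.factorization p + 1), ∀ j ∈ range (T.factorization p + 1),
      Ps n p ^ (i + j) * (if i = 0 ∧ j = 0 then 1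
        else if i = S.factorization p ∧ j = T.factorization p then
          kq n p * cq n p S * cq n p T else 0) * u i j =
      Ps n p ^ (i + j) * (if i = 0 ∧ j = 0 then u 0 0
        else if i = S.factorization p ∧ j = T.factorization p then
          u (S.factorization p) (T.factorization p) * (kq n p * cq n p S * cq n p T)
          else 0) := by
    intro i _ j _
    by_cases a1 : i = 0 ∧ j = 0
    · rw [if_pos a1, if_pos a1, a1.1, a1.2]
      ring
    · rw [if_neg a1, if_neg a1]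
      by_cases a2 : i = S.factorization p ∧ j = T.factorization p
      · rw [if_pos a2, if_pos a2, a2.1, a2.2]
        ring
      · rw [if_neg a2, if_neg a2]
        ring
  rw [Finset.sum_congr rfl fun i hi => Finset.sum_congr rfl fun j hj => e2 i hi j hj, e]
  unfold eS eT
  simp only [add_zero, pow_zero, pow_add]
  ring

/-- the local sum at a prime of `n`, `p ∤ T` -/
theorem Lc_nd {c S T : ℕ} (hST : S + T = c * n) {p : ℕ}
    (hp : p ∈ n.primeFactors) (h1 : ¬ p ∣ T) (u : ℕ → ℕ → ℤ) :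
    Lc u n B S T p = u 0 0 * sT n B T p := by
  have hd := dvd_iff' hST hp
  unfold Lc wb wa wq sT eT
  rw [Nat.factorization_eq_zero_of_not_dvd h1,
    Nat.factorization_eq_zero_of_not_dvd (fun h2 => h1 (hd.1 h2))]
  simp only [zero_add, Finset.sum_range_one, pow_zero, one_mul, if_neg h1, if_pos hp]
  by_cases hB : p ∈ B
  · simp [hB]
  · simp only [hB, if_false, hp, not_false_eq_true, and_self, if_true]
    ring

/-- the local sum away from `n` -/
theorem Lc_out {S T l : ℕ} (hl : l ∉ n.primeFactors) (u : ℕ → ℕ → ℤ) :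
    Lc u n B S T l = ∑ i ∈ range (S.factorization l + 1), ∑ j ∈ range (T.factorization l + 1),
      Ps n l ^ (i + j) * u i j := by
  unfold Lc
  simp only [if_neg hl, mul_one]

/-- the local sums away from `2`, `7` and `3` -/
theorem Lu_Q' (h : FF n) {c S T : ℕ} (hc : c = 1 ∨ c = 2) (hS : S ≠ 0) (hT : T ≠ 0)
    (hST : S + T = c * n) {l : ℕ} (hl : l ∈ Q' n S T) :
    Lu u3 u7 n B S T l = sT n B T l * Ff n S T l := by
  obtain ⟨hp, h2, h3, h5, hm⟩ := mem_Q' hl
  have hD := mem_ST hS hT hp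
  rw [Lu_gen h3 h5]
  by_cases hlP : l ∈ n.primeFactors
  · have hlP' : l ∈ n.primeFactors.erase 2 := Finset.mem_erase.2 ⟨h2, hlP⟩
    have hd := dvd_iff' hST hlP
    have hD' : l ∈ (S * T).primeFactors ↔ l ∣ T := by rw [hD, hd, or_self]
    unfold Ff
    simp only [hD']
    by_cases h1 : l ∣ T
    · rw [if_pos h1]
      have c1 := eT_sq (n := n) hp hT
      have e0 : fac n (S * T) l = 1 + eS n S l * eT n T l := by
        unfold fac
        rw [if_pos (pf_dvd hlP), hh_ST h hS hT hlP']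
      unfold sT
      by_cases hB : l ∈ B
      · rw [Lc_L hS hT hST hlP hB h1, if_neg (by tauto), e0]
        ring
      · rw [Lc_R hS hT hST hlP hB h1, if_pos ⟨hlP, hB⟩, e0]
        linear_combination (-(eS n S l)) * c1
    · rw [if_neg h1, Lc_nd hST hlP h1]
      ring
  · unfold sT
    rw [if_neg (by tauto), one_mul, Lc_out hlP]
    unfold Ff
    rw [if_pos (hm hlP), facg_eq h hS hT hp h2 hlP]
    simp only [mul_one]
    rcases one_zero h hc hS hT hST hp h2 hlP with h0 | h0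
    · rw [h0, zero_add, Finset.sum_range_one, zero_add]
      exact Finset.sum_congr rfl fun j _ => by rw [zero_add]
    · rw [h0, zero_add, add_zero]
      exact Finset.sum_congr rfl fun i _ => by rw [Finset.sum_range_one, add_zero]

theorem Lu_two {c S T : ℕ} (hS : S ≠ 0) (hT : T ≠ 0) (hST : S + T = c * n) :
    Lu u3 u7 n B S T 2 = L2 n S T * sT n B T 2 := by
  rw [Lu_gen (by norm_num) (by norm_num)]
  unfold L2
  by_cases h2 : 2 ∈ n.primeFactors
  · rw [if_pos h2]
    have c1 := eT_sq (n := n) Nat.prime_two hT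
    by_cases h1 : 2 ∣ T
    · rw [if_pos h1]
      unfold sT
      by_cases hB : 2 ∈ B
      · rw [Lc_L hS hT hST h2 hB h1, if_neg (by tauto)]
        ring
      · rw [Lc_R hS hT hST h2 hB h1, if_pos ⟨h2, hB⟩]
        linear_combination (-(eS n S 2)) * c1
    · rw [if_neg h1, Lc_nd hST h2 h1]
  · unfold sT
    rw [if_neg h2, if_neg (by tauto), mul_one, Lc_out h2, Finset.sum_mul_sum]
    refine Finset.sum_congr rfl fun i _ => Finset.sum_congr rfl fun j _ => ?_
    rw [pow_add]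
    ring

/-- **the product form** -/
theorem DS_val {f g : ℕ → Prop} [DecidablePred f] [DecidablePred g] (hL : Lev f g u3 u7)
    (h : FF n) {c S T : ℕ} (hc : c = 1 ∨ c = 2) (hS : S ≠ 0) (hT : T ≠ 0)
    (hST : S + T = c * n) {r3 r7 : ℤ} (h3 : Lc u3 n B S T 3 = r3 * sT n B T 3)
    (h7 : Lc u7 n B S T 7 = r7 * sT n B T 7) :
    DS f g n B S T = r3 * r7 * L2 n S T * (∏ l ∈ n.primeFactors \ B, eT n T l) *
      ∏ l ∈ Q' n S T, Ff n S T l := by
  classical
  rw [DS_eq hL B hS hT hST, split_QQ, Lu_two hS hT hST, Lu_seven, Lu_three, h3, h7,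
    Finset.prod_congr rfl fun l (hl : l ∈ Q' n S T) => Lu_Q' h hc hS hT hST hl,
    Finset.prod_mul_distrib]
  have e1 : ∏ l ∈ n.primeFactors \ B, eT n T l = ∏ l ∈ QQ n S T, sT n B T l := by
    unfold sT
    have e2 : ∀ l ∈ QQ n S T, (if l ∈ n.primeFactors ∧ l ∉ B then eT n T l else (1 : ℤ)) =
        if l ∈ n.primeFactors \ B then eT n T l else 1 := by
      intro l _
      simp only [Finset.mem_sdiff]
    rw [Finset.prod_congr rfl e2, Finset.prod_ite_mem, Finset.inter_eq_right.2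
      (Finset.sdiff_subset.trans sub_QQ)]
  rw [e1, split_QQ]
  ring

/-! ### the product formulas -/

/-- the powers away from `n` -/
theorem out_one (h : FF n) {c S T : ℕ} (hc : c = 1 ∨ c = 2) (hS : S ≠ 0) (hT : T ≠ 0)
    (hST : S + T = c * n) (hL : 2 ∉ n.primeFactors → L2 n S T ≠ 0)
    (hF : ∀ l ∈ Q' n S T, Ff n S T l ≠ 0) {l : ℕ} (hl : l ∈ QQ n S T)
    (hlP : l ∉ n.primeFactors) (h5 : l ≠ 3) (h3 : l ≠ 7) :
    Ps n l ^ S.factorization l = 1 ∧ Ps n l ^ T.factorization l = 1 := by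
  by_cases h2 : l = 2
  · subst h2
    have h6 := hL hlP
    unfold L2 at h6
    rw [if_neg hlP] at h6
    have hx := Ps_pm (n := n) (m := 2) (by norm_num)
    exact ⟨pow_alt hx (left_ne_zero_of_mul h6), pow_alt hx (right_ne_zero_of_mul h6)⟩
  have hl' : l ∈ Q' n S T :=
    Finset.mem_erase.2 ⟨h5, Finset.mem_erase.2 ⟨h3, Finset.mem_erase.2 ⟨h2, hl⟩⟩⟩
  obtain ⟨hp, _, _, _, hm⟩ := mem_Q' hl'
  have h6 := hF l hl'
  unfold Ff at h6
  rw [if_pos (hm hlP), facg_eq h hS hT hp h2 hlP] at h6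
  have hx := Ps_pm (n := n) hp.ne_zero
  rcases one_zero h hc hS hT hST hp h2 hlP with h0 | h0
  · rw [h0, zero_add] at h6
    rw [h0, pow_zero]
    exact ⟨rfl, pow_alt hx h6⟩
  · rw [h0, add_zero] at h6
    rw [h0, pow_zero]
    exact ⟨pow_alt hx h6, rfl⟩

/-- the factor of the level primes away from `n` -/
def dl (n T : ℕ) : ℤ := (if 3 ∈ n.primeFactors then 1 else Ps n 3 ^ T.factorization 3) *
  (if 7 ∈ n.primeFactors then 1 else Ps n 7 ^ T.factorization 7)

theorem dl_sq (n T : ℕ) : dl n T * dl n T = 1 := by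
  have h3 : ∀ k : ℕ, Ps n 3 ^ k * Ps n 3 ^ k = 1 := fun k => by
    rw [← mul_pow]
    rcases Ps_pm (n := n) (m := 3) (by norm_num) with h | h <;> rw [h] <;> norm_num
  have h7 : ∀ k : ℕ, Ps n 7 ^ k * Ps n 7 ^ k = 1 := fun k => by
    rw [← mul_pow]
    rcases Ps_pm (n := n) (m := 7) (by norm_num) with h | h <;> rw [h] <;> norm_num
  unfold dl
  split_ifs
  · norm_num
  · rw [one_mul, h7]
  · rw [mul_one, h3]
  · linear_combination (Ps n 7 ^ T.factorization 7 * Ps n 7 ^ T.factorization 7) *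
      h3 (T.factorization 3) + h7 (T.factorization 7)

theorem prod_pow_out {U : ℕ} (hU : U ≠ 0) {S T : ℕ} (hsub : U.primeFactors ⊆ QQ n S T)
    (ho : ∀ l ∈ QQ n S T, l ∉ n.primeFactors → l ≠ 3 → l ≠ 7 → Ps n l ^ U.factorization l = 1) :
    ∏ l ∈ n.primeFactors, Ps n l ^ U.factorization l = Ps n U * dl n U := by
  classical
  have e1 : Ps n U = ∏ l ∈ QQ n S T, Ps n l ^ U.factorization l := Ps_fac n _ U hU hsub
  have e2 : ∏ l ∈ QQ n S T, Ps n l ^ U.factorization l =
      (∏ l ∈ n.primeFactors, Ps n l ^ U.factorization l) *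
        ∏ l ∈ QQ n S T \ n.primeFactors, Ps n l ^ U.factorization l := by
    rw [mul_comm]
    exact (Finset.prod_sdiff sub_QQ).symm
  have e3 : ∏ l ∈ QQ n S T \ n.primeFactors, Ps n l ^ U.factorization l = dl n U := by
    have e4 : ∀ l ∈ QQ n S T \ n.primeFactors, Ps n l ^ U.factorization l =
        (if l = 3 then Ps n 3 ^ U.factorization 3 else 1) *
          (if l = 7 then Ps n 7 ^ U.factorization 7 else 1) := by
      intro l hl
      rw [Finset.mem_sdiff] at hl
      by_cases h3 : l = 3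
      · subst h3
        rw [if_pos rfl, if_neg (by norm_num), mul_one]
      by_cases h7 : l = 7
      · subst h7
        rw [if_pos rfl, if_neg (by norm_num), one_mul]
      rw [if_neg h3, if_neg h7, ho l hl.1 hl.2 h3 h7, one_mul]
    rw [Finset.prod_congr rfl e4, Finset.prod_mul_distrib,
      Finset.prod_ite_eq' _ 3 (fun _ => Ps n 3 ^ U.factorization 3),
      Finset.prod_ite_eq' _ 7 (fun _ => Ps n 7 ^ U.factorization 7)]
    unfold dl
    simp only [Finset.mem_sdiff, mem_QQ3, mem_QQ7, true_and]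
    by_cases h3 : 3 ∈ n.primeFactors <;> by_cases h7 : 7 ∈ n.primeFactors <;> simp [h3, h7]
  rw [e1, e2, e3, mul_assoc, dl_sq, mul_one]

/-- the product of the signs attached to `T` -/
theorem prod_eT (h : FF n) {c S T : ℕ} (hc : c = 1 ∨ c = 2) (hS : S ≠ 0) (hT : T ≠ 0)
    (hST : S + T = c * n) (hL : 2 ∉ n.primeFactors → L2 n S T ≠ 0)
    (hF : ∀ l ∈ Q' n S T, Ff n S T l ≠ 0) :
    ∏ l ∈ n.primeFactors, eT n T l = -dl n T := by
  have hsub : T.primeFactors ⊆ QQ n S T :=
    (Nat.primeFactors_mono (dvd_mul_left T S) (mul_ne_zero hS hT)).trans pf_QQ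
  have e4 := prod_pow_out hT hsub fun l hl hlP h3 h7 =>
    (out_one h hc hS hT hST hL hF hl hlP h3 h7).2
  have c2 : Ps n T * Ps n T = 1 := by
    rcases Ps_pm (n := n) hT with h | h <;> rw [h] <;> norm_num
  unfold eT
  rw [Finset.prod_mul_distrib, Finset.prod_mul_distrib, h.kprod, e4]
  have e5 : ∏ l ∈ n.primeFactors, cq n l T = Ps n T := rfl
  rw [e5]
  linear_combination (-(dl n T)) * c2

/-- the product of the signs attached to `S` -/
theorem prod_eS (h : FF n) {c S T : ℕ} (hc : c = 1 ∨ c = 2) (hS : S ≠ 0) (hT : T ≠ 0)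
    (hST : S + T = c * n) (hL : 2 ∉ n.primeFactors → L2 n S T ≠ 0)
    (hF : ∀ l ∈ Q' n S T, Ff n S T l ≠ 0) :
    ∏ l ∈ n.primeFactors, eS n S l = dl n S := by
  have hsub : S.primeFactors ⊆ QQ n S T :=
    (Nat.primeFactors_mono (dvd_mul_right S T) (mul_ne_zero hS hT)).trans pf_QQ
  have e4 := prod_pow_out hS hsub fun l hl hlP h3 h7 =>
    (out_one h hc hS hT hST hL hF hl hlP h3 h7).1
  have c2 : Ps n S * Ps n S = 1 := by
    rcases Ps_pm (n := n) hS with h | h <;> rw [h] <;> norm_num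
  unfold eS
  rw [Finset.prod_mul_distrib, e4]
  have e5 : ∏ l ∈ n.primeFactors, cq n l S = Ps n S := rfl
  rw [e5]
  linear_combination (dl n S) * c2

/-- the signs at a prime not dividing `T` agree -/
theorem eS_nd {c S T : ℕ} (hST : S + T = c * n) {p : ℕ}
    (hp : p ∈ n.primeFactors.erase 2) (h1 : ¬ p ∣ T) : eS n S p = eT n T p := by
  have hp' := Finset.mem_of_mem_erase hp
  have h2 := Finset.ne_of_mem_erase hp
  have hd := dvd_iff' hST hp'
  have h1' : ¬ p ∣ S := fun h3 => h1 (hd.1 h3)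
  unfold eS eT kq
  rw [if_neg h2, cq_odd h2, cq_odd h2, Nat.factorization_eq_zero_of_not_dvd h1,
    Nat.factorization_eq_zero_of_not_dvd h1', pow_zero, one_mul, one_mul, chp_nd h1, chp_nd h1',
    ← jacobiSym.neg _ (podd hp)]
  apply jacobiSym.mod_left'
  have h3 : ((S : ℤ) + T) = c * n := by exact_mod_cast hST
  have h4 : (p : ℤ) ∣ n := by exact_mod_cast pf_dvd hp'
  have h5 : (S : ℤ) = -T + c * n := by linarith
  rw [h5]
  obtain ⟨k, hk⟩ := h4
  rw [hk]
  apply Int.emod_emod_of_dvd _ (dvd_refl _) |>.symm.trans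
  simp [Int.add_emod, Int.mul_emod]

/-- the signs at the odd primes apart from `3` and `7` agree -/
theorem eS_eq (h : FF n) {c S T : ℕ} (hS : S ≠ 0) (hT : T ≠ 0)
    (hST : S + T = c * n) (hF : ∀ l ∈ Q' n S T, Ff n S T l ≠ 0) {p : ℕ}
    (hp : p ∈ n.primeFactors.erase 2) (h5 : p ≠ 3) (h3 : p ≠ 7) : eS n S p = eT n T p := by
  have hp' := Finset.mem_of_mem_erase hp
  have hpp := pf_prime hp'
  have h2 := Finset.ne_of_mem_erase hp
  by_cases h1 : p ∣ T
  · have hl' : p ∈ Q' n S T :=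
      Finset.mem_erase.2 ⟨h5, Finset.mem_erase.2 ⟨h3, Finset.mem_erase.2 ⟨h2, sub_QQ hp'⟩⟩⟩
    have h6 := hF p hl'
    unfold Ff fac at h6
    rw [if_pos ((mem_ST hS hT hpp).2 (Or.inr h1)), if_pos (pf_dvd hp'), hh_ST h hS hT hp] at h6
    have c1 := eT_sq (n := n) hpp hT
    have c3 := eS_sq (n := n) hpp hS
    rcases mul_self_eq_one_iff.1 c1 with h7 | h7 <;> rcases mul_self_eq_one_iff.1 c3 with h8 | h8 <;>
      rw [h7, h8] at h6 ⊢ <;> norm_num at h6
  · exact eS_nd hST hp h1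

/-- the local symbol -/
def hl (n S T l : ℕ) : ℤ := if l ∈ n.primeFactors then eS n S l * eT n T l else 1

theorem hl_sq {S T l : ℕ} (hS : S ≠ 0) (hT : T ≠ 0) : hl n S T l * hl n S T l = 1 := by
  unfold hl
  split_ifs with h
  · linear_combination (eS n S l * eS n S l) * eT_sq (n := n) (pf_prime h) hT +
      eS_sq (n := n) (pf_prime h) hS
  · norm_num

theorem hl_nd {c S T p : ℕ} (hT0 : T ≠ 0) (hST : S + T = c * n) (h2 : p ≠ 2) (h1 : ¬ p ∣ T) :
    hl n S T p = 1 := by
  unfold hl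
  split_ifs with h
  · rw [eS_nd hST (Finset.mem_erase.2 ⟨h2, h⟩) h1, eT_sq (pf_prime h) hT0]
  · rfl

/-- the product formula -/
theorem s_rel (h : FF n) {c S T : ℕ} (hc : c = 1 ∨ c = 2) (hS : S ≠ 0) (hT : T ≠ 0)
    (hST : S + T = c * n) (hL : 2 ∉ n.primeFactors → L2 n S T ≠ 0)
    (hF : ∀ l ∈ Q' n S T, Ff n S T l ≠ 0) :
    hl n S T 2 * hl n S T 3 * hl n S T 7 = -(dl n S * dl n T) := by
  classical
  have e1 : ∏ l ∈ n.primeFactors, (eS n S l * eT n T l) = -(dl n S * dl n T) := by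
    rw [Finset.prod_mul_distrib, prod_eT h hc hS hT hST hL hF, prod_eS h hc hS hT hST hL hF]
    ring
  have e2 : ∏ l ∈ n.primeFactors, (eS n S l * eT n T l) =
      ∏ l ∈ n.primeFactors, ((if l = 2 then eS n S 2 * eT n T 2 else 1) *
        (if l = 3 then eS n S 3 * eT n T 3 else 1) * (if l = 7 then eS n S 7 * eT n T 7 else 1)) := by
    refine Finset.prod_congr rfl fun l hl => ?_
    by_cases h2 : l = 2
    · subst h2
      rw [if_pos rfl, if_neg (by norm_num), if_neg (by norm_num), mul_one, mul_one]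
    by_cases h5 : l = 3
    · subst h5
      rw [if_pos rfl, if_neg (by norm_num), if_neg (by norm_num), one_mul, mul_one]
    by_cases h7 : l = 7
    · subst h7
      rw [if_pos rfl, if_neg (by norm_num), if_neg (by norm_num), one_mul, one_mul]
    rw [if_neg h2, if_neg h5, if_neg h7, eS_eq h hS hT hST hF (Finset.mem_erase.2 ⟨h2, hl⟩) h5 h7,
      eT_sq (pf_prime hl) hT, one_mul, one_mul]
  rw [e2, Finset.prod_mul_distrib, Finset.prod_mul_distrib,
    Finset.prod_ite_eq' n.primeFactors 2 (fun _ => eS n S 2 * eT n T 2),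
    Finset.prod_ite_eq' n.primeFactors 3 (fun _ => eS n S 3 * eT n T 3),
    Finset.prod_ite_eq' n.primeFactors 7 (fun _ => eS n S 7 * eT n T 7)] at e1
  exact e1

/-- the factor at `2` -/
theorem two_L2 (h : FF n) {c S T : ℕ} (hc : c = 1 ∨ c = 2) (hS : S ≠ 0) (hT : T ≠ 0)
    (hST : S + T = c * n) (hL : 2 ∉ n.primeFactors → L2 n S T ≠ 0)
    (hF : ∀ l ∈ Q' n S T, Ff n S T l ≠ 0)
    (h2T : 2 ∈ n.primeFactors → ¬ 2 ∣ T → eS n S 2 = eT n T 2) :
    2 * L2 n S T = (1 - dl n S * dl n T * (hl n S T 3 * hl n S T 7)) * M2 n S T := by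
  have e3 := s_rel h hc hS hT hST hL hF
  have q3 := hl_sq (n := n) (l := 3) hS hT
  have q7 := hl_sq (n := n) (l := 7) hS hT
  have q2 := hl_sq (n := n) (l := 2) hS hT
  have e4 : -(dl n S * dl n T * (hl n S T 3 * hl n S T 7)) = hl n S T 2 := by
    have : hl n S T 2 = (hl n S T 2 * hl n S T 3 * hl n S T 7) * (hl n S T 3 * hl n S T 7) := by
      linear_combination (-(hl n S T 2 * hl n S T 7 * hl n S T 7)) * q3 - (hl n S T 2) * q7
    rw [this, e3]
    ring
  have e5 : 1 - dl n S * dl n T * (hl n S T 3 * hl n S T 7) = 1 + hl n S T 2 := by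
    rw [← e4]; ring
  rw [e5]
  unfold L2 M2
  by_cases h2 : 2 ∈ n.primeFactors
  · rw [if_pos h2, if_pos h2]
    have e6 : hl n S T 2 = eS n S 2 * eT n T 2 := if_pos h2
    by_cases hT2 : 2 ∣ T
    · rw [if_pos hT2, if_pos hT2, e6]
      ring
    · rw [if_neg hT2, if_neg hT2, e6, h2T h2 hT2, eT_sq Nat.prime_two hT]
      norm_num
  · have e6 : hl n S T 2 = 1 := if_neg h2
    rw [if_neg h2, if_neg h2, e6]
    ring

/-! ### the signs at the primes of `A` -/

theorem jac_kap {p : ℕ} (h2 : p ≠ 2) (u : ℤ) : jacobiSym u p = kap n p u :=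
  Pool.Agent.N871.G17.jac_kap h2 u

/-- the sign at an odd prime -/
theorem eT_odd (hF : FF n) {T k p : ℕ} (hT : T ≠ 0) (hk : k = 1 ∨ k = 2)
    (hTn : T < k * n) (hp : p ∈ n.primeFactors.erase 2)
    (hh1 : p ∣ T → p ∣ T / p → eS n (k * n - T) p * eT n T p ≠ -1) :
    eT n T p = kq n p * sgp k n p T := by
  have hp' := Finset.mem_erase.1 hp
  have hpp := Nat.prime_of_mem_primeFactors hp'.2
  have h2 : p ≠ 2 := hp'.1
  have hpn : p ∣ n := Nat.dvd_of_mem_primeFactors hp'.2
  have hn0 : n ≠ 0 := hF.n0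
  have hfac : n.factorization p = 1 := hF.fac1 p hp
  have hJ : Ps n p = kap n p ((n / p : ℕ) : ℤ) := by
    rw [hF.Ps_p p hp]
    unfold chp
    rw [hfac, pow_one, jac_kap (n := n) h2]
  have hnp : ¬ p ∣ n / p := by
    have := Nat.not_dvd_ordCompl hpp hn0
    rwa [hfac, pow_one] at this
  have hJ2 := kap_sq (n := n) hpp (u := ((n / p : ℕ) : ℤ)) (by exact_mod_cast hnp)
  set v := T.factorization p with hv
  have hT0 : ¬ p ∣ T / p ^ v := Nat.not_dvd_ordCompl hpp hT
  have hcT : cq n p T = kap n p ((T / p ^ v : ℕ) : ℤ) := by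
    rw [cq_odd h2, ← jac_kap h2]
    rfl
  have heT : eT n T p = Ps n p ^ v * (kq n p * cq n p T) := rfl
  unfold sgp
  by_cases hpT : p ∣ T
  · have hpT' : (p : ℤ) ∣ (T : ℤ) := by exact_mod_cast hpT
    rw [if_pos hpT']
    have hdiv : (T : ℤ) / (p : ℤ) = ((T / p : ℕ) : ℤ) := by push_cast; rfl
    rw [hdiv]
    by_cases hpT2 : p ∣ T / p
    · have hpT2' : (p : ℤ) ∣ ((T / p : ℕ) : ℤ) := by exact_mod_cast hpT2
      rw [if_pos hpT2', jac_kap (n := n) h2]
      -- `p ∥ S`
      have hnp' : p * (n / p) = n := Nat.mul_div_cancel' hpn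
      have hTp : p * (T / p) = T := Nat.mul_div_cancel' hpT
      obtain ⟨S0, hS0⟩ : ∃ S0 : ℕ, k * n - T = p * S0 := by
        refine ⟨k * (n / p) - T / p, ?_⟩
        rw [Nat.mul_sub, hTp, ← mul_assoc, mul_comm p k, mul_assoc, hnp']
      have hS0' : (S0 : ℤ) = k * ((n / p : ℕ) : ℤ) - ((T / p : ℕ) : ℤ) := by
        have h5 : (p : ℤ) * S0 = k * n - T := by
          have : ((k * n - T : ℕ) : ℤ) = ((p * S0 : ℕ) : ℤ) := by rw [hS0]
          rw [Nat.cast_sub hTn.le] at this
          push_cast at this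
          linarith
        have h6 : (p : ℤ) * ((n / p : ℕ) : ℤ) = n := by exact_mod_cast hnp'
        have h7 : (p : ℤ) * ((T / p : ℕ) : ℤ) = T := by exact_mod_cast hTp
        have hp0 : (p : ℤ) ≠ 0 := by exact_mod_cast hpp.ne_zero
        apply mul_left_cancel₀ hp0
        rw [h5, mul_sub, h7, ← h6]
        ring
      have hSk : kap n p (S0 : ℤ) = kap n p (k : ℤ) * kap n p ((n / p : ℕ) : ℤ) := by
        rw [← kap_mul]
        refine Pool.Agent.N871.G17.kap_mod h2 ?_
        rw [hS0']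
        have e : (k : ℤ) * ((n / p : ℕ) : ℤ) - ((T / p : ℕ) : ℤ) - k * ((n / p : ℕ) : ℤ) =
          -((T / p : ℕ) : ℤ) := by ring
        rw [e, dvd_neg]
        exact hpT2'
      have hk0 : ¬ (p : ℤ) ∣ (k : ℤ) := by
        intro h5
        have h6 : p ∣ k := by exact_mod_cast h5
        rcases hk with rfl | rfl
        · exact hpp.one_lt.ne' (Nat.dvd_one.1 h6)
        · exact h2 ((Nat.prime_dvd_prime_iff_eq hpp Nat.prime_two).1 h6)
      have hk2 := kap_sq (n := n) hpp hk0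
      have hS00 : ¬ p ∣ S0 := by
        intro h5
        have h6 := kap_zero (n := n) hpp (by exact_mod_cast h5 : (p : ℤ) ∣ (S0 : ℤ))
        rw [h6] at hSk
        have h7 : (kap n p (k : ℤ) * kap n p ((n / p : ℕ) : ℤ)) *
            (kap n p (k : ℤ) * kap n p ((n / p : ℕ) : ℤ)) = 1 := by
          calc _ = (kap n p (k : ℤ) * kap n p (k : ℤ)) *
              (kap n p ((n / p : ℕ) : ℤ) * kap n p ((n / p : ℕ) : ℤ)) := by ring
            _ = 1 := by rw [hk2, hJ2, one_mul]
        rw [← hSk] at h7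
        norm_num at h7
      have hS00' : S0 ≠ 0 := by
        rintro rfl
        exact hS00 (dvd_zero p)
      have hfS : (k * n - T).factorization p = 1 := by
        rw [hS0, Nat.factorization_mul hpp.ne_zero hS00', Finsupp.add_apply,
          hpp.factorization_self, Nat.factorization_eq_zero_of_not_dvd hS00]
      have hcS : cq n p (k * n - T) = kap n p (S0 : ℤ) := by
        rw [cq_odd h2]
        unfold chp
        rw [hfS, pow_one, hS0, Nat.mul_div_cancel_left _ hpp.pos, jac_kap (n := n) h2]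
      have heS : eS n (k * n - T) p = kap n p (k : ℤ) := by
        unfold eS
        rw [hfS, pow_one, hcS, hSk, hJ]
        linear_combination (kap n p (k : ℤ)) * hJ2
      have hS0n : k * n - T ≠ 0 := by omega
      have h8 := hh1 hpT hpT2
      have c1 := eT_sq (n := n) hpp hT
      rw [heS] at h8
      have e9 : kap n p (-(k : ℤ)) = kq n p * kap n p (k : ℤ) := by
        rw [kap_neg, kap_kq hpp]
      rw [e9, ← mul_assoc, kq_sq hpp, one_mul]
      rcases mul_self_eq_one_iff.1 c1 with h9 | h9 <;>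
        rcases mul_self_eq_one_iff.1 hk2 with h10 | h10 <;> rw [h9, h10] at h8 ⊢ <;>
        norm_num at h8
    · have hpT2' : ¬ (p : ℤ) ∣ ((T / p : ℕ) : ℤ) := by exact_mod_cast hpT2
      rw [if_neg hpT2', jac_kap (n := n) h2, kap_mul, heT, hcT]
      have hv' : v = 1 := by
        have hv1 : 1 ≤ v := (hpp.dvd_iff_one_le_factorization hT).1 hpT
        by_contra hne
        apply hpT2
        have h5 : p ^ 2 ∣ T := (hpp.pow_dvd_iff_le_factorization hT).2 (by omega)
        obtain ⟨c, hc⟩ := h5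
        refine ⟨c, ?_⟩
        rw [hc, sq, mul_assoc, Nat.mul_div_cancel_left _ hpp.pos]
      rw [hv', pow_one, pow_one, hJ]
      ring
  · have hpT' : ¬ (p : ℤ) ∣ (T : ℤ) := by exact_mod_cast hpT
    have hv0 : v = 0 := Nat.factorization_eq_zero_of_not_dvd hpT
    rw [if_neg hpT', heT, hcT, hv0, pow_zero, pow_zero, Nat.div_one, one_mul, jac_kap (n := n) h2]

/-- the sign at `2` -/
theorem eT_two {T k : ℕ} (h : Ev n) (hT : T ≠ 0) : eT n T 2 = kq n 2 * sg2 k n T := by
  have h1 := Pool.Agent.N871.G17.sig_two (k := k) h hT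
  rw [kap_kq Nat.prime_two] at h1
  rw [← h1]
  unfold Pool.Agent.N871.G17.sig eT
  have h3 : ¬ 2 ∣ T / 2 ^ T.factorization 2 := Nat.not_dvd_ordCompl Nat.prime_two hT
  rw [kap_nneg Nat.prime_two, if_neg h3]
  have e : cq n 2 (T / 2 ^ T.factorization 2) = cq n 2 T := by
    rw [cq_two, cq_two]
    unfold Pool.Agent.N295.P15.E.oc
    have h4 : (T / 2 ^ T.factorization 2).factorization 2 = 0 :=
      Nat.factorization_eq_zero_of_not_dvd h3
    rw [h4, pow_zero, Nat.div_one]
  rw [e]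
  ring

end Pool.Agent.N871.G21
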