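import Pool.Agent.N871.P15G.Van2
import Pool.Agent.N218.P21G.Rot7
import Pool.Agent.N877.P21G.Defs3

/-!
# P21G: the rotation of norm `21` of the lattice ramified at `7`; the vanishing statements
-/

set_option autoImplicit false

namespace Pool.Agent.N871.P21G

open Finset
open Pool.Agent.N969.P15 (V3 Ev c2)
open Pool.Agent.N969.P17G (sgp sg2 sgn sgnE t2)
open Pool.Agent.N969.RQ (ip7 vec7 Fd)
open Pool.Agent.N970.P21G (mem7)
open Pool.Agent.N970.RQ (rot7 wot7 rot7_rot7 wot7_wot7)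
open Pool.Agent.N970.P17G (hs hs_mul hs_sq_mul hs_two hs_norm hs_pm sg2_ne sg2_zero)
open Pool.Agent.N877.P21G
open Pool.Agent.N99.P17G (gcd_one jac_sq_mul)
open Pool.Agent.N218.P21G (lo SF exists_SF sgnE_lo FA FA_pm FA_mul FA_rot FA_neg FA_wot rot_mem
  wot_mem neg_mem sqf_of T_neg sgp_sq)
open Pool.Agent.N871.P15G (shape' neg_or not_dvd_of_prime c2_16 c2_8a c2_8b c2_24a c2_24b
  zero_of sq_sum)
open Pool.Agent.N973.P15G (Ng Ps Ud)

/-! ### the rotation -/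

/-- the axis, of norm `84` -/
def ax : V3 := ![2, 4, -1]

/-- the coordinate along the axis -/
def cw (v : V3) : ℤ := (v 1 + v 0) / 3

theorem cw_spec {v : V3} (h : (3 : ℤ) ∣ v 1 + v 0) : v 1 + v 0 = 3 * cw v := by
  unfold cw
  omega

/-- the rotation by `π` -/
def rh (v : V3) : V3 := ![cw v * 2 - v 0, cw v * 4 - v 1, cw v * (-1) - v 2]

theorem rh0 (v : V3) : rh v 0 = cw v * 2 - v 0 := rfl
theorem rh1 (v : V3) : rh v 1 = cw v * 4 - v 1 := rfl
theorem rh2 (v : V3) : rh v 2 = cw v * (-1) - v 2 := rfl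

theorem cw_rh {v : V3} (h : (3 : ℤ) ∣ v 1 + v 0) : rh v 1 + rh v 0 = 3 * cw v := by
  have h1 := cw_spec h
  rw [rh0, rh1]
  linarith

theorem dvd_rh {v : V3} (h : (3 : ℤ) ∣ v 1 + v 0) : (3 : ℤ) ∣ rh v 1 + rh v 0 := ⟨_, cw_rh h⟩

theorem rh_rh {v : V3} (h : (3 : ℤ) ∣ v 1 + v 0) : rh (rh v) = v := by
  have h1 : cw (rh v) = cw v := by
    have h2 := cw_rh h
    have h3 := cw_spec (dvd_rh h)
    omega
  funext i
  fin_cases i
  · show cw (rh v) * 2 - rh v 0 = v 0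
    rw [h1, rh0]; ring
  · show cw (rh v) * 4 - rh v 1 = v 1
    rw [h1, rh1]; ring
  · show cw (rh v) * (-1) - rh v 2 = v 2
    rw [h1, rh2]; ring

theorem ip7_rh {v : V3} (h : (3 : ℤ) ∣ v 1 + v 0) :
    ip7 v (rh v) = 42 * cw v ^ 2 - ip7 v v := by
  have h1 := cw_spec h
  have e : v 0 = 3 * cw v - v 1 := by linarith
  unfold ip7
  rw [rh0, rh1, rh2, e]
  ring

theorem mem_rh {n : ℤ} {v : V3} (hv : ip7 v v = n) (h : (3 : ℤ) ∣ v 1 + v 0) :
    ip7 (rh v) (rh v) = n := by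
  rw [← hv]
  have h1 := cw_spec h
  have e : v 0 = 3 * cw v - v 1 := by linarith
  unfold ip7
  rw [rh0, rh1, rh2, e]
  ring

theorem rh_T {n : ℤ} {v : V3} (hv : ip7 v v = n) (h : (3 : ℤ) ∣ v 1 + v 0) :
    (n + ip7 v (rh v)) / 2 = cw v ^ 2 * 21 := by
  rw [ip7_rh h, hv]
  omega

/-! ### the signs of the rotation -/

/-- the sign of the rotation at a prime not dividing `42` -/
theorem sgp_rh {n p : ℕ} (hp : p.Prime) (h2 : p ≠ 2) (h3 : p ≠ 3) (h7 : p ≠ 7) (hn : p ∣ n)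
    (hn2 : ¬ p ^ 2 ∣ n) {v : V3} (hv : ip7 v v = n) (h : (3 : ℤ) ∣ v 1 + v 0) :
    sgp 1 n p (cw v ^ 2 * 21) = jacobiSym 21 p := by
  have : Fact p.Prime := ⟨hp⟩
  have hpi := Nat.prime_iff_prime_int.1 hp
  have n3 : ¬ (p : ℤ) ∣ 3 := by exact_mod_cast not_dvd_of_prime hp Nat.prime_three h3
  have n7 : ¬ (p : ℤ) ∣ 7 := by exact_mod_cast not_dvd_of_prime hp (by norm_num : Nat.Prime 7) h7
  have n2 : ¬ (p : ℤ) ∣ 2 := by exact_mod_cast not_dvd_of_prime hp Nat.prime_two h2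
  have n21 : ¬ (p : ℤ) ∣ 21 := by
    intro h
    have e : (21 : ℤ) = 3 * 7 := by norm_num
    rw [e] at h
    exact (hpi.dvd_or_dvd h).elim n3 n7
  have h6 := cw_spec h
  rw [sgp_sq hp _ _ n21]
  set c := cw v with hc
  split_ifs with hx
  swap
  · rfl
  obtain ⟨y, hy⟩ := hx
  have key : jacobiSym (-21) p = 1 := by
    by_cases h11 : p = 11
    · subst h11
      decide +kernel
    have n11 : ¬ (p : ℤ) ∣ 11 := by
      exact_mod_cast not_dvd_of_prime hp (by norm_num : Nat.Prime 11) h11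
    have hd : (p : ℤ) ∣ (-84) * v 2 ^ 2 - (11 * v 1 + 2 * v 2) ^ 2 := by
      have e3 : (-84) * v 2 ^ 2 - (11 * v 1 + 2 * v 2) ^ 2 =
          -11 * ip7 v v + p * (11 * (7 * (3 * y * (3 * (p * y) - 2 * v 1)))) := by
        have e : v 0 = 3 * (p * y) - v 1 := by rw [← hy]; linarith
        unfold ip7
        rw [e]
        ring
      rw [e3, hv]
      exact dvd_add (Dvd.dvd.mul_left (by exact_mod_cast hn) _) (dvd_mul_right _ _)
    have hv2 : ¬ (p : ℤ) ∣ v 2 := by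
      rintro ⟨z, hz⟩
      have h7 : (p : ℤ) ∣ (11 * v 1 + 2 * v 2) ^ 2 := by
        have h8 : (p : ℤ) ∣ (-84) * v 2 ^ 2 := ⟨-84 * z * v 2, by rw [hz]; ring⟩
        have := dvd_sub h8 hd
        simpa using this
      have h8 := hpi.dvd_of_dvd_pow h7
      have h9 : (p : ℤ) ∣ 11 * v 1 := by
        have e : 11 * v 1 = (11 * v 1 + 2 * v 2) - p * (2 * z) := by rw [hz]; ring
        rw [e]
        exact dvd_sub h8 (dvd_mul_right _ _)
      obtain ⟨w, hw⟩ := (hpi.dvd_or_dvd h9).resolve_left n11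
      apply hn2
      have : (p : ℤ) ^ 2 ∣ (n : ℤ) := by
        rw [← hv]
        have e : v 0 = p * (3 * y - w) := by
          have : v 0 = 3 * c - v 1 := by linarith
          rw [this, hy, hw]; ring
        unfold ip7
        rw [e, hw, hz]
        exact ⟨7 * (3 * y - w) ^ 2 + 4 * w ^ 2 + 8 * z ^ 2 + 4 * w * z, by ring⟩
      exact_mod_cast this
    have n84 : ¬ (p : ℤ) ∣ -84 := by
      intro h
      have e : (-84 : ℤ) = 2 * (2 * (-21)) := by norm_num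
      rw [e] at h
      rcases hpi.dvd_or_dvd h with h | h
      · exact n2 h
      · rcases hpi.dvd_or_dvd h with h | h
        · exact n2 h
        · exact n21 ((dvd_neg (a := (p : ℤ)) (b := 21)).1 h)
    have h8 := jac_sq_mul hv2 hd n84
    have e : (-84 : ℤ) = 2 ^ 2 * (-21) := by norm_num
    rw [e, jacobiSym.mul_left, jacobiSym.sq_one' (gcd_one n2), one_mul] at h8
    exact h8
  have e3 : (-21 : ℤ) = (-1) * 21 := by norm_num
  rw [e3, jacobiSym.mul_left] at key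
  have h8 : jacobiSym 21 p * jacobiSym 21 p = 1 := by
    rw [← jacobiSym.mul_left, ← sq]
    exact jacobiSym.sq_one' (gcd_one n21)
  calc jacobiSym (-1) p = jacobiSym (-1) p * (jacobiSym 21 p * jacobiSym 21 p) := by
        rw [h8, mul_one]
    _ = jacobiSym 21 p := by rw [← mul_assoc, key, one_mul]

theorem fin32 : ∀ a b : ZMod 32, (11 * a ^ 2 + 4 * a * b + 8 * b ^ 2 = 4 ∨
    11 * a ^ 2 + 4 * a * b + 8 * b ^ 2 = 20 ∨ 11 * a ^ 2 + 4 * a * b + 8 * b ^ 2 = 8 ∨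
    11 * a ^ 2 + 4 * a * b + 8 * b ^ 2 = 24) → 11 * a ^ 2 + 4 * a * b + 8 * b ^ 2 = 8 := by
  decide +kernel

/-- the sign of the rotation at two -/
theorem sg2_rh {n : ℕ} (hn : Ev n) {v : V3} (hv : ip7 v v = n) (h : (3 : ℤ) ∣ v 1 + v 0) :
    sg2 1 n (cw v ^ 2 * 21) = c2 n 5 := by
  have h6 := cw_spec h
  by_cases hc : cw v = 0
  · rw [hc]
    have e0 : (0 : ℤ) ^ 2 * 21 = 0 := by norm_num
    rw [e0, sg2_zero]
    have h8 : n % 32 = 8 := by
      have e : v 0 = - v 1 := by rw [hc] at h6; linarith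
      have e1 : ((n : ℤ) : ZMod 32) = 11 * (v 1 : ZMod 32) ^ 2 +
          4 * (v 1 : ZMod 32) * (v 2 : ZMod 32) + 8 * (v 2 : ZMod 32) ^ 2 := by
        rw [← hv]
        unfold ip7
        rw [e]
        push_cast
        ring
      have h := Pool.Agent.N99.P17G.mod_case n hn
      rw [e1] at h
      have h2 := fin32 _ _ h
      rw [← e1] at h2
      have h3 : ((n : ℕ) : ZMod 32) = ((8 : ℕ) : ZMod 32) := by
        rw [Int.cast_natCast] at h2
        rw [h2]; rfl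
      rw [ZMod.natCast_eq_natCast_iff'] at h3
      exact h3
    rw [c2_8b h8 (-1) (by norm_num), c2_8b h8 5 (by norm_num)]
    simp
  · have h0 : cw v ^ 2 * 21 ≠ 0 := by positivity
    rw [sg2_ne h0, hs_sq_mul n hc (by norm_num)]
    have := Pool.Agent.N970.P17G.hs_of n (u := 21) (by norm_num) 0
    simp only [pow_zero, one_mul, mul_one] at this
    rw [this]
    exact Pool.Agent.N970.P17G.c2_mod n (by norm_num)

theorem f3 : Fact (Nat.Prime 3) := ⟨Nat.prime_three⟩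

/-- the sign of the rotation at three -/
theorem sgp3_rh {n : ℕ} (hn : 3 ∣ n) (hn2 : ¬ 9 ∣ n) {v : V3} (hv : ip7 v v = n)
    (h : (3 : ℤ) ∣ v 1 + v 0) :
    sgp 1 n 3 (cw v ^ 2 * 21) = jacobiSym ((n / 3 : ℕ) : ℤ) 3 := by
  have := f3
  have h6 := cw_spec h
  set c := cw v with hc
  obtain ⟨k, hk⟩ := hn
  have hk3 : n / 3 = k := by omega
  have hk0 : ¬ (3 : ℤ) ∣ k := by omega
  have hn3 : (n : ℤ) = 3 * k := by rw [hk]; push_cast; ring
  unfold sgp
  rw [hk3]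
  push_cast
  have e2 : c ^ 2 * 21 / 3 = 7 * c ^ 2 := by
    have : c ^ 2 * 21 = 3 * (7 * c ^ 2) := by ring
    rw [this]; exact Int.mul_ediv_cancel_left _ (by norm_num)
  rw [if_pos ⟨7 * c ^ 2, by ring⟩, e2]
  by_cases hx : (3 : ℤ) ∣ c
  · obtain ⟨y, hy⟩ := hx
    rw [if_pos ⟨21 * y ^ 2, by rw [hy]; ring⟩]
    -- `11 n = (11 v1 + 2 v2)^2 + 84 v2^2` modulo `9`
    have e3 : 11 * (n : ℤ) = (11 * v 1 + 2 * v 2) ^ 2 + 84 * v 2 ^ 2 +
        9 * (11 * (7 * (y * (9 * y - 2 * v 1)))) := by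
      have e : v 0 = 3 * (3 * y) - v 1 := by rw [← hy]; linarith
      rw [← hv]
      unfold ip7
      rw [e]
      ring
    rw [hn3] at e3
    have h5 : (3 : ℤ) ∣ (11 * v 1 + 2 * v 2) ^ 2 := by
      have e4 : (11 * v 1 + 2 * v 2) ^ 2 = 3 * (11 * k - 28 * v 2 ^ 2 -
          3 * (11 * (7 * (y * (9 * y - 2 * v 1))))) := by
        linarith
      exact ⟨_, e4⟩
    obtain ⟨z, hz⟩ : (3 : ℤ) ∣ 11 * v 1 + 2 * v 2 :=
      Int.Prime.dvd_pow' Nat.prime_three (by exact_mod_cast h5)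
    have e5 : 11 * (k : ℤ) - 28 * v 2 ^ 2 = 3 * (z ^ 2 + 11 * (7 * (y * (9 * y - 2 * v 1)))) := by
      rw [hz] at e3
      linarith
    have hv2 : ¬ (3 : ℤ) ∣ v 2 := by
      rintro ⟨w, hw⟩
      rw [hw] at e5
      generalize z ^ 2 + 11 * (7 * (y * (9 * y - 2 * v 1))) = q at e5
      have : 11 * (k : ℤ) = 3 * (84 * w ^ 2 + q) := by linarith
      generalize 84 * w ^ 2 + q = q' at this
      omega
    have h7 : jacobiSym (11 * (k : ℤ)) 3 = jacobiSym (28 * v 2 ^ 2) 3 := by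
      apply jacobiSym.mod_left'
      apply Int.ModEq.symm
      rw [Int.modEq_iff_dvd]
      exact ⟨_, e5⟩
    rw [jacobiSym.mul_left, jacobiSym.mul_left 28, jacobiSym.sq_one' (gcd_one (p := 3) hv2)] at h7
    have a1 : jacobiSym 11 3 = -1 := by decide +kernel
    have a2 : jacobiSym 28 3 = 1 := by decide +kernel
    have a3 : jacobiSym (-1) 3 = -1 := by decide +kernel
    rw [a1, a2] at h7
    rw [a3]
    linarith
  · have hT : ¬ (3 : ℤ) ∣ 7 * c ^ 2 := by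
      intro h
      have : (3 : ℤ) ∣ c ^ 2 := by omega
      exact hx (Int.Prime.dvd_pow' Nat.prime_three (by exact_mod_cast this))
    rw [if_neg hT, jacobiSym.mul_left, jacobiSym.mul_left, jacobiSym.sq_one' (gcd_one (p := 3) hx)]
    have a2 : jacobiSym 7 3 = 1 := by decide +kernel
    rw [a2]
    ring

/-! ### the products -/

theorem jac21 {N : ℕ} (h : ¬ 2 ∣ N) : jacobiSym 21 N = jacobiSym N 21 := by
  have := jacobiSym.quadratic_reciprocity_one_mod_four (a := 21) (b := N) (by norm_num)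
    (Nat.odd_iff.2 (by omega))
  exact_mod_cast this

/-- the sign of the rotation, `3 ∤ A` -/
theorem sg_rh {n A : ℕ} (hn : Ng n) (hU : Ud n A) (h3 : ¬ 3 ∣ A) (h7 : ¬ 7 ∣ A)
    (hA : A = 1 ∨ Ps A) (hm : Ng (n / A)) {v : V3} (hv : ip7 v v = n) (h : (3 : ℤ) ∣ v 1 + v 0) :
    sgnE 1 A n ((n + ip7 v (rh v)) / 2) = jacobiSym A 21 := by
  rw [rh_T hv h, sgnE_lo]
  have hAn := hU.1
  have key : ∀ N : ℕ, N ∣ A → ¬ 2 ∣ N → ∀ p ∈ N.primeFactors,
      sgp 1 n p (cw v ^ 2 * 21) = jacobiSym 21 p := by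
    intro N hN h2 p hp
    have hp' := Nat.prime_of_mem_primeFactors hp
    have hpN := Nat.dvd_of_mem_primeFactors hp
    have hp2 : p ≠ 2 := by rintro rfl; exact h2 hpN
    have hp3 : p ≠ 3 := by rintro rfl; exact h3 (hpN.trans hN)
    have hp7 : p ≠ 7 := by rintro rfl; exact h7 (hpN.trans hN)
    exact sgp_rh hp' hp2 hp3 hp7 ((hpN.trans hN).trans hAn) (sqf_of hn hp' hp2) hv h
  rcases shape' hn hU hA hm with ⟨h2, hs, h4⟩ | ⟨N, rfl, hN2, hNs, hN4, h16, hEv⟩ |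
    ⟨N, rfl, hN2, hNs, h4, hEv⟩
  · exact (P15G.prod_lo 21 _ hs h2 (key A (dvd_refl _) h2)).trans (jac21 h2)
  · have e : 4 * N = 2 ^ 2 * N := by norm_num
    rw [e]
    refine (P15G.prod_lo2 21 _ hNs hN2 two_ne_zero (key N ⟨4, by ring⟩ hN2)).trans ?_
    rw [sg2_rh hEv hv h, jac21 hN2]
    have : c2 n 5 = 1 := by
      unfold c2
      rw [if_neg (by norm_num), if_pos h16, if_pos (by norm_num)]
    rw [this]
    push_cast
    rw [jacobiSym.mul_left]
    have : jacobiSym 4 21 = 1 := by decide +kernel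
    rw [this]
  · have e : 8 * N = 2 ^ 3 * N := by norm_num
    rw [e]
    refine (P15G.prod_lo2 21 _ hNs hN2 three_ne_zero (key N ⟨8, by ring⟩ hN2)).trans ?_
    rw [sg2_rh hEv hv h, jac21 hN2]
    have h5 : c2 n 5 = -1 := by
      rcases h4 with ⟨-, h32⟩ | ⟨-, h32⟩
      · exact c2_8b h32 5 (by norm_num)
      · exact c2_24b h32 5 (by norm_num)
    rw [h5]
    push_cast
    rw [jacobiSym.mul_left]
    have : jacobiSym 8 21 = -1 := by decide +kernel
    rw [this]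

/-- the product over an odd squarefree multiple of three -/
theorem prod_lo3 {n B : ℕ} (a T : ℤ) (hs : Squarefree B) (h3 : ¬ 3 ∣ B) (h2 : ¬ 2 ∣ B)
    (h : ∀ p ∈ B.primeFactors, sgp 1 n p T = jacobiSym a p) :
    ∏ p ∈ (3 * B).primeFactors, lo n p T = sgp 1 n 3 T * jacobiSym a B := by
  have hB0 : B ≠ 0 := by rintro rfl; simp at h3
  have h3B : 3 ∉ B.primeFactors := fun h => h3 (Nat.dvd_of_mem_primeFactors h)
  rw [Nat.primeFactors_mul (by norm_num) hB0, Nat.prime_three.primeFactors,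
    ← Finset.insert_eq, prod_insert h3B]
  have e := P15G.prod_lo a T hs h2 h
  have e' : ∏ p ∈ B.primeFactors, lo n p T = jacobiSym a B := e
  rw [e']
  unfold lo
  rw [if_neg (by norm_num)]

theorem prod_lo32 {n B k : ℕ} (a T : ℤ) (hs : Squarefree B) (h3 : ¬ 3 ∣ B) (h2 : ¬ 2 ∣ B)
    (hk : k ≠ 0) (h : ∀ p ∈ B.primeFactors, sgp 1 n p T = jacobiSym a p) :
    ∏ p ∈ (2 ^ k * (3 * B)).primeFactors, lo n p T =
      sg2 1 n T * (sgp 1 n 3 T * jacobiSym a B) := by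
  have h23 : ¬ 2 ∣ 3 * B := fun h => by
    rcases Nat.prime_two.dvd_mul.1 h with h | h
    · omega
    · exact h2 h
  have h2N : 2 ∉ (3 * B).primeFactors := fun h => h23 (Nat.dvd_of_mem_primeFactors h)
  rw [P15G.pf_pow h23 hk, prod_insert h2N, prod_lo3 a T hs h3 h2 h]
  unfold lo
  rw [if_pos rfl]

theorem jac21' (B : ℕ) : jacobiSym B 21 = jacobiSym B 3 * jacobiSym B 7 := by
  have e : 21 = 3 * 7 := rfl
  rw [e, jacobiSym.mul_right]

/-- the sign of the rotation, `3 ∣ A` -/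
theorem sg_rh3 {n A : ℕ} (hn : Ng n) (hU : Ud n A) (h3 : 3 ∣ A) (h7 : ¬ 7 ∣ A)
    (hA : A = 1 ∨ Ps A) (hm : Ng (n / A)) {v : V3} (hv : ip7 v v = n) (h : (3 : ℤ) ∣ v 1 + v 0) :
    sgnE 1 A n ((n + ip7 v (rh v)) / 2) =
      - (jacobiSym A 7 * jacobiSym ((n / A : ℕ) : ℤ) 3) := by
  rw [rh_T hv h, sgnE_lo]
  have hAn := hU.1
  have hn3 : 3 ∣ n := h3.trans hAn
  have hn9 : ¬ 9 ∣ n := sqf_of hn Nat.prime_three (by norm_num)
  have hn0 : n ≠ 0 := by rintro rfl; simp at hn9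
  have hA0 : 0 < A := Nat.pos_of_ne_zero (by rintro rfl; exact hn0 (Nat.eq_zero_of_zero_dvd hAn))
  obtain ⟨m, hm'⟩ := hAn
  have hd : n / A = m := by rw [hm']; exact Nat.mul_div_cancel_left _ hA0
  have s3 := sgp3_rh hn3 hn9 hv h
  have key : ∀ B : ℕ, B ∣ A → ¬ 2 ∣ B → ¬ 3 ∣ B → ∀ p ∈ B.primeFactors,
      sgp 1 n p (cw v ^ 2 * 21) = jacobiSym 21 p := by
    intro N hN h2 hN3 p hp
    have hp' := Nat.prime_of_mem_primeFactors hp
    have hpN := Nat.dvd_of_mem_primeFactors hp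
    have hp2 : p ≠ 2 := by rintro rfl; exact h2 hpN
    have hp3 : p ≠ 3 := by rintro rfl; exact hN3 hpN
    have hp7 : p ≠ 7 := by rintro rfl; exact h7 (hpN.trans hN)
    exact sgp_rh hp' hp2 hp3 hp7 ((hpN.trans hN).trans hU.1) (sqf_of hn hp' hp2) hv h
  have sq3 : ∀ B : ℕ, ¬ 3 ∣ B → jacobiSym B 3 * jacobiSym B 3 = 1 := by
    intro B hB
    have := f3
    rw [← jacobiSym.mul_left, ← sq]
    exact jacobiSym.sq_one' (gcd_one (p := 3) (by exact_mod_cast hB))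
  rcases shape' hn hU hA hm with ⟨h2, hs, h4⟩ | ⟨N, rfl, hN2, hNs, hN4, h16, hEv⟩ |
    ⟨N, rfl, hN2, hNs, h4, hEv⟩
  · obtain ⟨B, rfl⟩ := h3
    have hB2 : ¬ 2 ∣ B := fun h => h2 (h.mul_left 3)
    have hB3 : ¬ 3 ∣ B := by
      rintro ⟨c, rfl⟩
      have := hs 3 ⟨c, by ring⟩
      rw [Nat.isUnit_iff] at this
      omega
    have hBs : Squarefree B := hs.squarefree_of_dvd ⟨3, by ring⟩
    have hn3' : n / 3 = B * m := by rw [hm', mul_assoc]; exact Nat.mul_div_cancel_left _ (by norm_num)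
    rw [prod_lo3 21 _ hBs hB3 hB2 (key B ⟨3, by ring⟩ hB2 hB3), s3, jac21 hB2, jac21', hn3', hd]
    push_cast
    rw [jacobiSym.mul_left, jacobiSym.mul_left 3]
    have a : jacobiSym 3 7 = -1 := by decide +kernel
    rw [a]
    linear_combination (jacobiSym B 7 * jacobiSym m 3) * sq3 B hB3
  · obtain ⟨B, rfl⟩ : 3 ∣ N := by omega
    have hB2 : ¬ 2 ∣ B := fun h => hN2 (h.mul_left 3)
    have hB3 : ¬ 3 ∣ B := by
      rintro ⟨c, rfl⟩
      have := hNs 3 ⟨c, by ring⟩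
      rw [Nat.isUnit_iff] at this
      omega
    have hBs : Squarefree B := hNs.squarefree_of_dvd ⟨3, by ring⟩
    have hn3' : n / 3 = 4 * (B * m) := by
      have : n = 3 * (4 * (B * m)) := by rw [hm']; ring
      rw [this]; exact Nat.mul_div_cancel_left _ (by norm_num)
    have e : 4 * (3 * B) = 2 ^ 2 * (3 * B) := by norm_num
    have h5 : c2 n 5 = 1 := by
      unfold c2
      rw [if_neg (by norm_num), if_pos h16, if_pos (by norm_num)]
    rw [e, prod_lo32 21 _ hBs hB3 hB2 two_ne_zero (key B ⟨12, by ring⟩ hB2 hB3), s3,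
      jac21 hB2, jac21', hn3', ← e, hd, sg2_rh hEv hv h, h5]
    push_cast
    rw [jacobiSym.mul_left, jacobiSym.mul_left, jacobiSym.mul_left 4 (3 * (B : ℤ)),
      jacobiSym.mul_left 3]
    have a1 : jacobiSym 4 7 = 1 := by decide +kernel
    have a2 : jacobiSym 4 3 = 1 := by decide +kernel
    have a : jacobiSym 3 7 = -1 := by decide +kernel
    rw [a, a1, a2]
    linear_combination (jacobiSym B 7 * jacobiSym m 3) * sq3 B hB3
  · obtain ⟨B, rfl⟩ : 3 ∣ N := by omega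
    have hB2 : ¬ 2 ∣ B := fun h => hN2 (h.mul_left 3)
    have hB3 : ¬ 3 ∣ B := by
      rintro ⟨c, rfl⟩
      have := hNs 3 ⟨c, by ring⟩
      rw [Nat.isUnit_iff] at this
      omega
    have hBs : Squarefree B := hNs.squarefree_of_dvd ⟨3, by ring⟩
    have hn3' : n / 3 = 8 * (B * m) := by
      have : n = 3 * (8 * (B * m)) := by rw [hm']; ring
      rw [this]; exact Nat.mul_div_cancel_left _ (by norm_num)
    have e : 8 * (3 * B) = 2 ^ 3 * (3 * B) := by norm_num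
    have h5 : c2 n 5 = -1 := by
      rcases h4 with ⟨-, h32⟩ | ⟨-, h32⟩
      · exact c2_8b h32 5 (by norm_num)
      · exact c2_24b h32 5 (by norm_num)
    rw [e, prod_lo32 21 _ hBs hB3 hB2 three_ne_zero (key B ⟨24, by ring⟩ hB2 hB3), s3,
      jac21 hB2, jac21', hn3', ← e, hd, sg2_rh hEv hv h, h5]
    push_cast
    rw [jacobiSym.mul_left, jacobiSym.mul_left, jacobiSym.mul_left 8 (3 * (B : ℤ)),
      jacobiSym.mul_left 3]
    have a1 : jacobiSym 8 7 = 1 := by decide +kernel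
    have a2 : jacobiSym 8 3 = -1 := by decide +kernel
    have a : jacobiSym 3 7 = -1 := by decide +kernel
    rw [a, a1, a2]
    linear_combination (jacobiSym B 7 * jacobiSym m 3) * sq3 B hB3

end Pool.Agent.N871.P21G
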