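import Pool.Agent.N871.P21G.Van

/-!
# P21G: `S_VAN3`, `S_VAN21`, `S_VANN'`
-/

set_option autoImplicit false

namespace Pool.Agent.N871.P21G

open Finset
open Pool.Agent.N969.P15 (V3 Ev c2)
open Pool.Agent.N969.P17G (sgp sg2 sgn sgnE t2)
open Pool.Agent.N969.RQ (ip7 vec7 Fd ud)
open Pool.Agent.N970.P21G (mem7)
open Pool.Agent.N970.RQ (rot7 wot7 rot7_rot7 wot7_wot7)
open Pool.Agent.N877.P21G
open Pool.Agent.N877.P21 (Cls0 Cls0e Cl3 Cl3e Cl7 Cl7e Cl21 Cl21e Sp7)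
open Pool.Agent.N218.P21G (lo SF exists_SF sgnE_lo FA FA_pm FA_mul FA_rot FA_neg FA_wot rot_mem
  wot_mem neg_mem sqf_of T_neg rot0 rot1 rot2 wot0 wot1 wot2)
open Pool.Agent.N871.P15G (neg_or zero_of sq_sum)
open Pool.Agent.N973.P15G (Ng Ps Ud)

/-- a sign function for `A` -/
structure Is0 (A n : ℕ) (f : V3 → ℤ) : Prop where
  pm : ∀ v, f v = 1 ∨ f v = -1
  mul : ∀ v ∈ vec7 n, ∀ w ∈ vec7 n, sgnE 1 A n ((n + ip7 v w) / 2) = f v * f w
  rot : ∀ v ∈ vec7 (n : ℤ), f (rot7 v) = f v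

/-- a sign function for `A` with its behaviour under the rotations -/
structure Is (A n : ℕ) (f : V3 → ℤ) : Prop extends Is0 A n f where
  wot : ∀ v ∈ vec7 (n : ℤ), f (wot7 v) = jacobiSym A 7 * f v

theorem act {A n : ℕ} {f : V3 → ℤ} (h : Is0 A n f) {v w : V3} (hv : v ∈ vec7 n) (hw : w ∈ vec7 n)
    {e : ℤ} (he : sgnE 1 A n ((n + ip7 v w) / 2) = e) : f w = e * f v := by
  rw [← he, h.mul v hv w hw]
  rcases h.pm v with h1 | h1 <;> rw [h1] <;> ring

/-- the sum over the vectors on the first line -/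
noncomputable def S1 (n : ℕ) (g : V3 → ℤ) : ℤ :=
  ∑ v ∈ (vec7 n).filter (fun v => (3 : ℤ) ∣ v 1 + v 0), g v

theorem mem1 {n : ℕ} {v : V3} : v ∈ (vec7 n).filter (fun v => (3 : ℤ) ∣ v 1 + v 0) ↔
    ip7 v v = n ∧ (3 : ℤ) ∣ v 1 + v 0 := by
  rw [mem_filter, mem7]

/-- the weight of the lines -/
theorem sum_w7 {A n : ℕ} {f : V3 → ℤ} (h : Is A n f) :
    ∑ v ∈ vec7 n, w7 n v * f v = (if 3 ∣ n then 2 else 1) * ((1 - jacobiSym A 7) * S1 n f) := by
  have e1 : ∑ v ∈ vec7 (n : ℤ), (if (3 : ℤ) ∣ v 1 + v 0 then 1 else 0) * f v = S1 n f := by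
    unfold S1
    rw [sum_filter]
    refine sum_congr rfl fun v _ => ?_
    split_ifs <;> ring
  have e2 : ∑ v ∈ vec7 (n : ℤ), (if (3 : ℤ) ∣ v 1 - v 0 then 1 else 0) * f v =
      jacobiSym A 7 * S1 n f := by
    rw [← e1, mul_sum]
    refine sum_nbij' wot7 wot7 (fun v hv => wot_mem hv) (fun v hv => wot_mem hv)
      (fun v _ => wot7_wot7 v) (fun v _ => wot7_wot7 v) ?_
    intro v hv
    have hd : ((3 : ℤ) ∣ wot7 v 1 + wot7 v 0) ↔ (3 : ℤ) ∣ v 1 - v 0 := by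
      rw [wot0, wot1]
      constructor <;> intro h <;> omega
    simp only [hd, h.wot v hv]
    have hj : jacobiSym A 7 * jacobiSym A 7 * f v = f v := by
      have h1 := h.wot v hv
      have h2 := h.wot (wot7 v) (wot_mem hv)
      rw [wot7_wot7, h1] at h2
      linarith
    split_ifs
    · linarith
    · ring
  have e3 : ∑ v ∈ vec7 (n : ℤ), w7 n v * f v = (if 3 ∣ n then 2 else 1) *
      (∑ v ∈ vec7 (n : ℤ), (if (3 : ℤ) ∣ v 1 + v 0 then 1 else 0) * f v -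
        ∑ v ∈ vec7 (n : ℤ), (if (3 : ℤ) ∣ v 1 - v 0 then 1 else 0) * f v) := by
    rw [← sum_sub_distrib, mul_sum]
    refine sum_congr rfl fun v _ => ?_
    unfold w7
    ring
  rw [e3, e1, e2]
  ring

theorem P7_sq {A n : ℕ} {f : V3 → ℤ} (h : Is0 A n f) :
    P7 A n = (∑ v ∈ vec7 n, w7 n v * f v) ^ 2 :=
  sq_sum _ (fun v => w7 n v * f v) _ fun v hv w hw => by
    rw [h.mul v hv w hw]; ring

theorem N7_sq {A n : ℕ} {f : V3 → ℤ} (h : Is0 A n f) :
    N7 A n = (∑ v ∈ vec7 n, wn v * f v) ^ 2 :=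
  sq_sum _ (fun v => wn v * f v) _ fun v hv w hw => by
    rw [h.mul v hv w hw]; ring

/-- the weight with orientations -/
def ww (v : V3) : ℤ := jacobiSym (2 * v 1 + v 2) 7 * jacobiSym (v 1 + v 2) 3

theorem sum_wn {n : ℕ} {f : V3 → ℤ} :
    ∑ v ∈ vec7 n, wn v * f v = 2 * S1 n (fun v => ww v * f v) := by
  unfold S1
  rw [sum_filter, mul_sum]
  refine sum_congr rfl fun v _ => ?_
  unfold wn ww
  split_ifs <;> ring

theorem jac7_neg (x : ℤ) : jacobiSym (-x) 7 = - jacobiSym x 7 := by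
  have e : -x = (-1) * x := by ring
  rw [e, jacobiSym.mul_left]
  have : jacobiSym (-1) 7 = -1 := by decide +kernel
  rw [this]; ring

theorem jac3_neg (x : ℤ) : jacobiSym (-x) 3 = - jacobiSym x 3 := by
  have e : -x = (-1) * x := by ring
  rw [e, jacobiSym.mul_left]
  have : jacobiSym (-1) 3 = -1 := by decide +kernel
  rw [this]; ring

theorem jac_mod {p : ℕ} {x y : ℤ} (h : (p : ℤ) ∣ y - x) : jacobiSym x p = jacobiSym y p :=
  jacobiSym.mod_left' (Int.modEq_iff_dvd.2 h)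

theorem ww_neg (v : V3) : ww (-v) = ww v := by
  unfold ww
  simp only [Pi.neg_apply]
  have e1 : 2 * -v 1 + -v 2 = -(2 * v 1 + v 2) := by ring
  have e2 : -v 1 + -v 2 = -(v 1 + v 2) := by ring
  rw [e1, e2, jac7_neg, jac3_neg]
  ring

theorem ww_rh (v : V3) : ww (rh v) = ww v := by
  unfold ww
  rw [rh1, rh2]
  have e1 : jacobiSym (2 * (cw v * 4 - v 1) + (cw v * (-1) - v 2)) 7 =
      jacobiSym (-(2 * v 1 + v 2)) 7 := jac_mod ⟨-cw v, by push_cast; ring⟩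
  have e2 : jacobiSym (cw v * 4 - v 1 + (cw v * (-1) - v 2)) 3 =
      jacobiSym (-(v 1 + v 2)) 3 := jac_mod ⟨-cw v, by push_cast; ring⟩
  rw [e1, e2, jac7_neg, jac3_neg]
  ring

/-! ### `v ↦ -v` and the rotation of norm `21` -/

theorem w7_neg (n : ℕ) (v : V3) : w7 n (-v) = w7 n v := by
  unfold w7
  simp only [Pi.neg_apply]
  have e1 : (3 : ℤ) ∣ -v 1 + -v 0 ↔ (3 : ℤ) ∣ v 1 + v 0 := by constructor <;> intro h <;> omega
  have e2 : (3 : ℤ) ∣ -v 1 - -v 0 ↔ (3 : ℤ) ∣ v 1 - v 0 := by constructor <;> intro h <;> omega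
  simp only [e1, e2]

theorem wn_eq (v : V3) : wn v = if (3 : ℤ) ∣ v 1 + v 0 then 2 * ww v else 0 := rfl

theorem wn_neg (v : V3) : wn (-v) = wn v := by
  rw [wn_eq, wn_eq, ww_neg]
  simp only [Pi.neg_apply]
  have e1 : (3 : ℤ) ∣ -v 1 + -v 0 ↔ (3 : ℤ) ∣ v 1 + v 0 := by constructor <;> intro h <;> omega
  simp only [e1]

theorem zero_neg {A n : ℕ} {f : V3 → ℤ} (h : Is0 A n f) (h0 : sgnE 1 A n 0 = -1) :
    P7 A n = 0 ∧ N7 A n = 0 := by
  have hf : ∀ v ∈ vec7 (n : ℤ), f (-v) = - f v := by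
    intro v hv
    have h1 := act h hv (neg_mem hv) (e := -1) (by rw [T_neg (mem7.1 hv), h0])
    rw [h1]; ring
  constructor
  · rw [P7_sq h, zero_of (f := f) (g := w7 n) (τ := fun v => -v) (fun v hv => neg_mem hv)
      (fun v _ => neg_neg v) hf (fun v _ => w7_neg n v)]
    norm_num
  · rw [N7_sq h, zero_of (f := f) (g := wn) (τ := fun v => -v) (fun v hv => neg_mem hv)
      (fun v _ => neg_neg v) hf (fun v _ => wn_neg v)]
    norm_num

theorem zero_rh {A n : ℕ} {f : V3 → ℤ} (h : Is0 A n f)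
    (h0 : ∀ v : V3, ip7 v v = n → (3 : ℤ) ∣ v 1 + v 0 →
      sgnE 1 A n ((n + ip7 v (rh v)) / 2) = -1) :
    S1 n f = 0 ∧ S1 n (fun v => ww v * f v) = 0 := by
  have hm : ∀ v ∈ (vec7 n).filter (fun v : V3 => (3 : ℤ) ∣ v 1 + v 0),
      rh v ∈ (vec7 n).filter (fun v : V3 => (3 : ℤ) ∣ v 1 + v 0) := by
    intro v hv
    rw [mem1] at hv ⊢
    exact ⟨mem_rh hv.1 hv.2, dvd_rh hv.2⟩
  have hr : ∀ v ∈ (vec7 n).filter (fun v : V3 => (3 : ℤ) ∣ v 1 + v 0), rh (rh v) = v :=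
    fun v hv => rh_rh (mem1.1 hv).2
  have hf : ∀ v ∈ (vec7 n).filter (fun v : V3 => (3 : ℤ) ∣ v 1 + v 0), f (rh v) = - f v := by
    intro v hv
    obtain ⟨h1, h2⟩ := mem1.1 hv
    have h3 := act h (mem7.2 h1) (mem7.2 (mem_rh h1 h2)) (h0 v h1 h2)
    rw [h3]; ring
  constructor
  · have := zero_of (f := f) (g := fun _ => 1) (τ := rh) hm hr hf (fun _ _ => rfl)
    unfold S1
    simpa using this
  · exact zero_of (f := f) (g := ww) (τ := rh) hm hr hf (fun v _ => ww_rh v)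

/-! ### two eigenlines -/

/-- the four linear forms -/
def L4 {R : Type*} [CommRing R] (i : Fin 4) (a b c : R) : R :=
  ![b + a, b - a, b + c - a, b + c + a] i

theorem two4 : ∀ a b c : ZMod 3, 7 * (a * a) + 4 * (b * b) + 8 * (c * c) + 2 * (b * c + c * b) = 2 →
    ∑ i : Fin 4, (if L4 i a b c = 0 then (1 : ℤ) else 0) = 2 := by
  decide

theorem dvd3_iff (x : ℤ) : (3 : ℤ) ∣ x ↔ (x : ZMod 3) = 0 :=
  (ZMod.intCast_zmod_eq_zero_iff_dvd x 3).symm

theorem two_lines {n : ℕ} (h3 : n % 3 = 2) {v : V3} (hv : ip7 v v = n) :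
    (if (3 : ℤ) ∣ v 1 + v 0 then (1 : ℤ) else 0) + (if (3 : ℤ) ∣ v 1 - v 0 then 1 else 0) +
      (if (3 : ℤ) ∣ v 1 + v 2 - v 0 then 1 else 0) + (if (3 : ℤ) ∣ v 1 + v 2 + v 0 then 1 else 0) =
      2 := by
  have e : ((n : ℤ) : ZMod 3) = 2 := by
    have := (ZMod.intCast_eq_intCast_iff' n 2 3).2 (by push_cast; omega)
    rw [this]; rfl
  have e2 : ((ip7 v v : ℤ) : ZMod 3) = 7 * ((v 0 : ZMod 3) * v 0) + 4 * ((v 1 : ZMod 3) * v 1) +
      8 * ((v 2 : ZMod 3) * v 2) + 2 * ((v 1 : ZMod 3) * v 2 + (v 2 : ZMod 3) * v 1) := by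
    unfold ip7
    push_cast
    ring
  have h := two4 (v 0 : ZMod 3) (v 1) (v 2) (by rw [← e2, hv, e])
  rw [Fin.sum_univ_four] at h
  simp only [dvd3_iff]
  push_cast
  exact h

/-- the sum over the vectors with two given lines -/
noncomputable def S2 (n : ℕ) (g : V3 → ℤ) (P : V3 → Prop) [DecidablePred P] : ℤ :=
  ∑ v ∈ (vec7 n).filter (fun v => (3 : ℤ) ∣ v 1 + v 0 ∧ P v), g v

theorem S1_split {n : ℕ} (h3 : n % 3 = 2) (g : V3 → ℤ) :
    S1 n g = S2 n g (fun v => (3 : ℤ) ∣ v 1 - v 0) + S2 n g (fun v => (3 : ℤ) ∣ v 1 + v 2 - v 0) +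
      S2 n g (fun v => (3 : ℤ) ∣ v 1 + v 2 + v 0) := by
  unfold S1 S2
  simp only [sum_filter]
  rw [← sum_add_distrib, ← sum_add_distrib]
  refine sum_congr rfl fun v hv => ?_
  have h := two_lines h3 (mem7.1 hv)
  by_cases h1 : (3 : ℤ) ∣ v 1 + v 0
  · rw [if_pos h1] at h ⊢
    simp only [h1, true_and]
    have h2 : g v * ((if (3 : ℤ) ∣ v 1 - v 0 then (1 : ℤ) else 0) +
      (if (3 : ℤ) ∣ v 1 + v 2 - v 0 then 1 else 0) +
      (if (3 : ℤ) ∣ v 1 + v 2 + v 0 then 1 else 0)) = g v := by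
      have : (if (3 : ℤ) ∣ v 1 - v 0 then (1 : ℤ) else 0) +
        (if (3 : ℤ) ∣ v 1 + v 2 - v 0 then 1 else 0) +
        (if (3 : ℤ) ∣ v 1 + v 2 + v 0 then 1 else 0) = 1 := by linarith
      rw [this, mul_one]
    refine h2.symm.trans ?_
    simp only [mul_add, mul_ite, mul_one, mul_zero]
  · simp [h1]

/-- `χ₃(A) = χ₇(A) = -1`: the oriented sum vanishes -/
theorem zero_ori {A n : ℕ} {f : V3 → ℤ} (h : Is A n f) (h3 : n % 3 = 2)
    (hA : jacobiSym A 7 = -1) : S1 n (fun v => ww v * f v) = 0 := by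
  rw [S1_split h3]
  have z : ∀ (P : V3 → Prop) [DecidablePred P] (τ : V3 → V3),
      (∀ v ∈ vec7 (n : ℤ), τ v ∈ vec7 (n : ℤ)) → (∀ v, τ (τ v) = v) →
      (∀ v : V3, (3 : ℤ) ∣ v 1 + v 0 → P v → (3 : ℤ) ∣ τ v 1 + τ v 0 ∧ P (τ v)) →
      (∀ v ∈ vec7 (n : ℤ), (3 : ℤ) ∣ v 1 + v 0 → P v → ww (τ v) * f (τ v) = - (ww v * f v)) →
      S2 n (fun v => ww v * f v) P = 0 := by
    intro P _ τ h1 h2 h4 h5
    have := zero_of (S := (vec7 n).filter (fun v => (3 : ℤ) ∣ v 1 + v 0 ∧ P v))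
      (f := fun v => ww v * f v) (g := fun _ => 1) (τ := τ)
      (fun v hv => by
        rw [mem_filter] at hv ⊢
        exact ⟨h1 v hv.1, h4 v hv.2.1 hv.2.2⟩)
      (fun v _ => h2 v)
      (fun v hv => by
        rw [mem_filter] at hv
        exact h5 v hv.1 hv.2.1 hv.2.2) (fun _ _ => rfl)
    unfold S2
    simpa using this
  have z2 := z (fun v => (3 : ℤ) ∣ v 1 - v 0) wot7 (fun v hv => wot_mem hv) wot7_wot7
    (fun v h1 h2 => by
      simp only [wot0, wot1]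
      constructor <;> omega)
    (fun v hv h1 h2 => by
      rw [h.wot v hv, hA]
      have : ww (wot7 v) = ww v := by
        unfold ww
        rw [wot1, wot2]
        have e1 : 2 * -v 1 + -v 2 = -(2 * v 1 + v 2) := by ring
        have e2 : -v 1 + -v 2 = -(v 1 + v 2) := by ring
        rw [e1, e2, jac7_neg, jac3_neg]
        ring
      rw [this]; ring)
  have z3 := z (fun v => (3 : ℤ) ∣ v 1 + v 2 - v 0) rot7 (fun v hv => rot_mem hv) rot7_rot7
    (fun v h1 h2 => by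
      simp only [rot0, rot1, rot2]
      constructor <;> omega)
    (fun v hv h1 h2 => by
      rw [h.rot v hv]
      have : ww (rot7 v) = - ww v := by
        unfold ww
        rw [rot1, rot2]
        have e1 : 2 * (v 1 + v 2) + -v 2 = 2 * v 1 + v 2 := by ring
        have e2 : jacobiSym (v 1 + v 2 + -v 2) 3 = jacobiSym (-(v 1 + v 2)) 3 :=
          jac_mod (by push_cast; omega)
        rw [e1, e2, jac3_neg]
        ring
      rw [this]; ring)
  have z4 := z (fun v => (3 : ℤ) ∣ v 1 + v 2 + v 0) (fun v => rot7 (wot7 v))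
    (fun v hv => rot_mem (wot_mem hv))
    (fun v => by
      funext i
      fin_cases i <;> simp [rot7, wot7])
    (fun v h1 h2 => by
      simp only [rot0, rot1, rot2, wot0, wot1, wot2]
      constructor <;> omega)
    (fun v hv h1 h2 => by
      rw [h.rot _ (wot_mem hv), h.wot v hv, hA]
      have : ww (rot7 (wot7 v)) = ww v := by
        unfold ww
        rw [rot1, rot2, wot1, wot2]
        have e1 : 2 * (-v 1 + -v 2) + - -v 2 = -(2 * v 1 + v 2) := by ring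
        have e2 : jacobiSym (-v 1 + -v 2 + - -v 2) 3 = jacobiSym (-(v 1 + v 2)) 3 :=
          jac_mod (by push_cast; omega)
        rw [e1, e2, jac7_neg, jac3_neg]
        ring
      rw [this]; ring)
  rw [z2, z3, z4]
  norm_num

/-! ### the classes -/

theorem Fd_Ps {A : ℕ} : Fd A ↔ Ps A := by
  constructor
  · rintro ⟨h1, h | h⟩
    · exact Or.inl ⟨h.1, h.2, h1⟩
    · exact Or.inr h
  · rintro (⟨h1, h2, h3⟩ | ⟨M, rfl, h2, h3⟩)
    · exact ⟨h3, Or.inl ⟨h1, h2⟩⟩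
    · exact ⟨by omega, Or.inr ⟨M, rfl, h2, h3⟩⟩

theorem mem_pd {n A : ℕ} (h : A ∈ pd n) : Ud n A ∧ (A = 1 ∨ Fd A) ∧ ¬ 7 ∣ A := by
  classical
  unfold pd at h
  rw [mem_filter] at h
  obtain ⟨h1, h2, h3⟩ := h
  unfold ud at h1
  rw [mem_filter] at h1
  exact ⟨⟨Nat.dvd_of_mem_divisors h1.1, h1.2⟩, h2, h3⟩

theorem sg_sgnE {A n : ℕ} (h : A ∣ n) (T : ℤ) : N973.P15G.sg A n T = sgnE 1 A n T := by
  rw [P15G.sg_prod h, sgnE_lo]
  rfl

theorem pos_of {n A : ℕ} (hn : Fn n) (hA : A ∣ n) : 0 < A := by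
  rcases Nat.eq_zero_or_pos A with h | h
  · subst h
    have h0 := Nat.eq_zero_of_zero_dvd hA
    subst h0
    rcases hn with ⟨h, -⟩ | ⟨k, hk, h, -⟩
    · exact absurd rfl h.ne_zero
    · have := h.ne_zero
      omega
  · exact h

/-- the sign function of a member of `pd n` -/
theorem cases {n A : ℕ} (hn : Fn n) (hA : A ∈ pd n) : ∃ f, Is0 A n f ∧
    (sgnE 1 A n 0 = -1 ∨ (Is A n f ∧ Ng (n / A))) := by
  obtain ⟨hU, hP, h7⟩ := mem_pd hA
  obtain ⟨F, H⟩ := exists_SF hn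
  have h0 : Is0 A n (FA F A) := ⟨FA_pm H A, fun v hv w hw => FA_mul H hU.1 h7 hv hw,
    fun v hv => FA_rot hn H hU.1 h7 hv⟩
  refine ⟨FA F A, h0, ?_⟩
  rcases neg_or hn hU with h | ⟨-, hm⟩
  · left
    rw [← sg_sgnE hU.1, h]
  · right
    refine ⟨⟨h0, ?_⟩, hm⟩
    intro v hv
    have hA0 := pos_of hn hU.1
    obtain ⟨⟨m, rfl⟩, hc⟩ := hU
    rw [Nat.mul_div_cancel_left _ hA0] at hm hc
    exact FA_wot hP hm hc hn H h7 hv

theorem jac7_cases {A : ℕ} (h : ¬ 7 ∣ A) : jacobiSym A 7 = 1 ∨ jacobiSym A 7 = -1 := by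
  apply jacobiSym.eq_one_or_neg_one
  have : Nat.Coprime 7 A := (Nat.Prime.coprime_iff_not_dvd (by norm_num)).2 h
  rw [Int.gcd_comm]
  exact_mod_cast this

theorem P7_one {A n : ℕ} {f : V3 → ℤ} (h : Is A n f) (h1 : jacobiSym A 7 = 1) : P7 A n = 0 := by
  rw [P7_sq h.toIs0, sum_w7 h, h1]
  ring

theorem P7_zero {A n : ℕ} {f : V3 → ℤ} (h : Is A n f) (h1 : S1 n f = 0) : P7 A n = 0 := by
  rw [P7_sq h.toIs0, sum_w7 h, h1]
  ring

theorem jac3_val {A : ℕ} : (A % 3 = 1 → jacobiSym A 3 = 1) ∧ (A % 3 = 2 → jacobiSym A 3 = -1) :=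
  ⟨P15G.jac3_of_one, P15G.jac3_of_two⟩

theorem mod7_of {A : ℕ} (h : jacobiSym A 7 = -1) : A % 7 = 3 ∨ A % 7 = 5 ∨ A % 7 = 6 := by
  have h1 : jacobiSym ((A % 7 : ℕ) : ℤ) 7 = -1 := by
    rw [← h]
    apply jacobiSym.mod_left'
    push_cast
    omega
  have h2 : A % 7 < 7 := Nat.mod_lt _ (by norm_num)
  have e0 : jacobiSym ((0 : ℕ) : ℤ) 7 = 0 := by decide +kernel
  have e1 : jacobiSym ((1 : ℕ) : ℤ) 7 = 1 := by decide +kernel
  have e2 : jacobiSym ((2 : ℕ) : ℤ) 7 = 1 := by decide +kernel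
  have e4 : jacobiSym ((4 : ℕ) : ℤ) 7 = 1 := by decide +kernel
  generalize A % 7 = r at h1 h2
  interval_cases r
  · rw [e0] at h1; norm_num at h1
  · rw [e1] at h1; norm_num at h1
  · rw [e2] at h1; norm_num at h1
  · simp
  · rw [e4] at h1; norm_num at h1
  · simp
  · simp

/-- the class of the cofactor -/
theorem co_Sp7 {n A : ℕ} (hI : I7 n) (hA : A ∣ n) (hn0 : 0 < A) (h : jacobiSym A 7 = -1) :
    Sp7 (n / A) := by
  obtain ⟨m, rfl⟩ := hA
  rw [Nat.mul_div_cancel_left _ hn0]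
  have h1 := mod7_of h
  unfold I7 at hI
  unfold Sp7
  rw [Nat.mul_mod] at hI
  have h2 : m % 7 < 7 := Nat.mod_lt _ (by norm_num)
  generalize m % 7 = r at *
  rcases h1 with h1 | h1 | h1 <;> rw [h1] at hI <;> interval_cases r <;> omega

/-- the main case distinction: the sign function, the class of `A`, or vanishing -/
theorem main {n A : ℕ} (hn : Fn n) (hA : A ∈ pd n) : P7 A n = 0 ∨
    (Ng (n / A) ∧ ((Ai A) ∨ (A0 A ∧ (n / A) % 3 = 1))) := by
  obtain ⟨f, h0, hf⟩ := cases hn hA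
  obtain ⟨hU, hP, h7⟩ := mem_pd hA
  rcases hf with hf | ⟨hf, hm⟩
  · exact Or.inl (zero_neg h0 hf).1
  rcases jac7_cases h7 with hj | hj
  · exact Or.inl (P7_one hf hj)
  have hA1 : A ≠ 1 := by
    rintro rfl
    have : jacobiSym ((1 : ℕ) : ℤ) 7 = 1 := by decide +kernel
    rw [this] at hj
    norm_num at hj
  have hFd : Fd A := hP.resolve_left hA1
  have hPs : A = 1 ∨ Ps A := Or.inr (Fd_Ps.1 hFd)
  by_cases h3 : 3 ∣ A
  · by_cases hm3 : (n / A) % 3 = 1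
    · exact Or.inr ⟨hm, Or.inr ⟨⟨hFd, h3, hj⟩, hm3⟩⟩
    · left
      have hm2 : (n / A) % 3 = 2 := by
        have : ¬ 3 ∣ n / A := fun h => by
          have := Nat.dvd_gcd h3 h
          rw [hU.2] at this
          omega
        omega
      refine P7_zero hf (zero_rh h0 fun v hv hl => ?_).1
      rw [sg_rh3 hn hU h3 h7 hPs hm hv hl, hj, jac3_val.2 hm2]
      norm_num
  · by_cases h1 : A % 3 = 1
    · left
      refine P7_zero hf (zero_rh h0 fun v hv hl => ?_).1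
      rw [sg_rh hn hU h3 h7 hPs hm hv hl, jac21', hj, jac3_val.1 h1]
      norm_num
    · exact Or.inr ⟨hm, Or.inl ⟨hFd, by omega, hj⟩⟩

/-- **VAN3** -/
theorem t_VAN3 : S_VAN3 := by
  intro n hn h3 hI A hA hc
  obtain ⟨hU, hP, h7⟩ := mem_pd hA
  have hA0 := pos_of hn hU.1
  rcases main hn hA with h | ⟨hm, h | ⟨h, hm3⟩⟩
  · exact h
  · exfalso
    have hS := co_Sp7 hI hU.1 hA0 h.2.2
    have h3m : 3 ∣ n / A := by
      obtain ⟨m, rfl⟩ := hU.1
      rw [Nat.mul_div_cancel_left _ hA0]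
      rcases (Nat.Prime.dvd_mul Nat.prime_three).1 h3 with h' | h'
      · have := h.2.1; omega
      · exact h'
    apply hc
    refine ⟨Or.inl ⟨h, ?_⟩, hU.2⟩
    rcases hm with ⟨hs, h4⟩ | hE
    · exact Or.inl ⟨hs, h4, hS, h3m⟩
    · exact Or.inr ⟨hE, hS, h3m⟩
  · exfalso
    have hS := co_Sp7 hI hU.1 hA0 h.2.2
    apply hc
    refine ⟨Or.inr ⟨h, ?_⟩, hU.2⟩
    rcases hm with ⟨hs, h4⟩ | hE
    · exact Or.inl ⟨hs, h4, hm3, hS⟩
    · exact Or.inr ⟨hE, hm3, hS⟩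

/-- **VAN21** -/
theorem t_VAN21 : S_VAN21 := by
  intro n hn h21 A hA hc
  obtain ⟨hU, hP, h7⟩ := mem_pd hA
  have hA0 := pos_of hn hU.1
  have h7m : 7 ∣ n / A := by
    obtain ⟨m, rfl⟩ := hU.1
    rw [Nat.mul_div_cancel_left _ hA0]
    exact ((Nat.Prime.dvd_mul (by norm_num)).1 (dvd_trans (by norm_num) h21)).resolve_left h7
  rcases main hn hA with h | ⟨hm, h | ⟨h, hm3⟩⟩
  · exact h
  · exfalso
    have h3m : 3 ∣ n / A := by
      obtain ⟨m, rfl⟩ := hU.1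
      rw [Nat.mul_div_cancel_left _ hA0]
      rcases (Nat.Prime.dvd_mul Nat.prime_three).1 (dvd_trans (by norm_num) h21 : 3 ∣ A * m) with
        h' | h'
      · have := h.2.1; omega
      · exact h'
    apply hc
    refine ⟨Or.inl ⟨h, ?_⟩, hU.2⟩
    rcases hm with ⟨hs, h4⟩ | hE
    · exact Or.inl ⟨hs, h4, h7m, h3m⟩
    · exact Or.inr ⟨hE, h7m, h3m⟩
  · exfalso
    apply hc
    refine ⟨Or.inr ⟨h, ?_⟩, hU.2⟩
    rcases hm with ⟨hs, h4⟩ | hE
    · exact Or.inl ⟨hs, h4, h7m, hm3⟩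
    · exact Or.inr ⟨hE, h7m, hm3⟩

theorem N7_zero {A n : ℕ} {f : V3 → ℤ} (h : Is0 A n f) (h1 : S1 n (fun v => ww v * f v) = 0) :
    N7 A n = 0 := by
  rw [N7_sq h, sum_wn, h1]
  ring

theorem I7_of_mod {m : ℕ} (h : jacobiSym m 7 = 1) : I7 m := by
  have h1 : jacobiSym ((m % 7 : ℕ) : ℤ) 7 = 1 := by
    rw [← h]
    apply jacobiSym.mod_left'
    push_cast
    omega
  have h2 : m % 7 < 7 := Nat.mod_lt _ (by norm_num)
  have e0 : jacobiSym ((0 : ℕ) : ℤ) 7 = 0 := by decide +kernel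
  have e1 : jacobiSym ((3 : ℕ) : ℤ) 7 = -1 := by decide +kernel
  have e2 : jacobiSym ((5 : ℕ) : ℤ) 7 = -1 := by decide +kernel
  have e4 : jacobiSym ((6 : ℕ) : ℤ) 7 = -1 := by decide +kernel
  unfold I7
  generalize m % 7 = r at h1 h2
  interval_cases r
  · rw [e0] at h1; norm_num at h1
  · simp
  · simp
  · rw [e1] at h1; norm_num at h1
  · simp
  · rw [e2] at h1; norm_num at h1
  · rw [e4] at h1; norm_num at h1

theorem jac_of_I7 {n : ℕ} (h : I7 n) : jacobiSym n 7 = 1 := by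
  have hx : ∀ r : ℕ, (r : ℤ) % 7 = (n : ℤ) % 7 → jacobiSym (r : ℤ) 7 = 1 →
      jacobiSym (n : ℤ) 7 = 1 := by
    intro r h1 h2
    rw [← h2]
    exact (jacobiSym.mod_left' h1).symm
  rcases h with h | h | h
  · exact hx 1 (by omega) (by decide +kernel)
  · exact hx 2 (by omega) (by decide +kernel)
  · exact hx 4 (by omega) (by decide +kernel)

/-- **VANN'** -/
theorem t_VANN' : S_VANN' := by
  intro n hK A hA
  obtain ⟨hn, hn3, hI⟩ := hK
  obtain ⟨hU, hP, h7⟩ := mem_pd hA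
  have hA0 := pos_of hn hU.1
  have hmul : (A % 3 * ((n / A) % 3)) % 3 = 2 := by
    obtain ⟨m, rfl⟩ := hU.1
    rw [Nat.mul_div_cancel_left _ hA0, ← Nat.mul_mod]
    exact hn3
  have h3 : ¬ 3 ∣ A := fun h => by
    have := h.trans hU.1
    omega
  constructor
  · intro hc
    rcases main hn hA with h | ⟨hm, h | ⟨h, hm3⟩⟩
    · exact h
    · exfalso
      have hS := co_Sp7 hI hU.1 hA0 h.2.2
      have hm3 : (n / A) % 3 = 1 := by
        rw [h.2.1] at hmul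
        have : (n / A) % 3 < 3 := Nat.mod_lt _ (by norm_num)
        interval_cases (n / A) % 3 <;> omega
      apply hc
      refine ⟨h, ?_⟩
      rcases hm with ⟨hs, h4⟩ | hE
      · exact Or.inl ⟨hs, h4, hm3, hS⟩
      · exact Or.inr ⟨hE, hm3, hS⟩
    · exact absurd h.2.1 h3
  · intro hA1 hc
    obtain ⟨f, h0, hf⟩ := cases hn hA
    rcases hf with hf | ⟨hf, hm⟩
    · exact (zero_neg h0 hf).2
    have hFd : Fd A := hP.resolve_left hA1
    have hPs : A = 1 ∨ Ps A := Or.inr (Fd_Ps.1 hFd)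
    have hA3 : A % 3 = 1 ∨ A % 3 = 2 := by omega
    rcases jac7_cases h7 with hj | hj
    · rcases hA3 with h1 | h1
      · exfalso
        apply hc
        refine ⟨⟨hFd, h1, hj⟩, hm, ?_, ?_⟩
        · rw [h1, one_mul, Nat.mod_mod] at hmul
          exact hmul
        · apply I7_of_mod
          have h5 := jac_of_I7 hI
          have e : (n : ℤ) = A * ((n / A : ℕ) : ℤ) := by
            exact_mod_cast (Nat.mul_div_cancel' hU.1).symm
          rw [e, jacobiSym.mul_left, hj, one_mul] at h5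
          exact h5
      · refine N7_zero h0 (zero_rh h0 fun v hv hl => ?_).2
        rw [sg_rh hn hU h3 h7 hPs hm hv hl, jac21', hj, jac3_val.2 h1]
        norm_num
    · rcases hA3 with h1 | h1
      · refine N7_zero h0 (zero_rh h0 fun v hv hl => ?_).2
        rw [sg_rh hn hU h3 h7 hPs hm hv hl, jac21', hj, jac3_val.1 h1]
        norm_num
      · exact N7_zero h0 (zero_ori hf hn3 hj)

end Pool.Agent.N871.P21G
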